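import Pool.Agent.X291.MF.WMel

/-!
# Analytic continuation and functional equation of the twisted series
-/

set_option autoImplicit false

open Set Filter Topology MeasureTheory Asymptotics

namespace Pool.Agent.X291.MF

noncomputable section

variable {ν : ℂ} {u : ℕ → ℂ} {S : ℝ → ℂ} {C : ℝ}

/-- Mellin transform of the series -/
lemma mellin_S (hC : ∀ n, ‖u n‖ ≤ C * n) (hsum : ∀ y : ℝ, 0 < y → HasSum (fun n : ℕ => u n * WW ν (2 * Real.pi * n * y)) (S y))
    {w : ℂ} (hw : 2 < w.re) (h1 : 0 < (w + 1 / 2 + ν).re) (h2 : 0 < (w + 1 / 2 - ν).re) :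
    HasSum (fun n : ℕ => ((2 * Real.pi : ℝ) : ℂ) ^ (-w) * mellin (WW ν) w * (u n * (n : ℂ) ^ (-w))) (mellin S w) := by
  have hπ := Real.pi_pos
  have hu0 : u 0 = 0 := by
    have := hC 0
    simpa using this
  have hC0 : 0 ≤ C := by
    have := (norm_nonneg _).trans (hC 1)
    simpa using this
  obtain ⟨hconv, _⟩ := WW_mellin h1 h2
  set F : ℕ → ℝ → ℂ := fun n y => (y : ℂ) ^ (w - 1) • (u n * WW ν (2 * Real.pi * n * y)) with hF
  have hFint : ∀ n, Integrable (F n) (volume.restrict (Ioi 0)) := by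
    intro n
    rcases Nat.eq_zero_or_pos n with rfl | hn
    · have : F 0 = fun _ => 0 := by funext y; simp [hF, hu0]
      rw [this]; exact integrable_zero _ _ _
    · have ha : 0 < 2 * Real.pi * (n : ℝ) := by positivity
      have h3 : MellinConvergent (fun y => u n • WW ν (2 * Real.pi * n * y)) w :=
        ((MellinConvergent.comp_mul_left ha).2 hconv).const_smul (u n)
      exact h3
  set I0 : ℝ := ∫ y in Ioi (0 : ℝ), ‖(y : ℂ) ^ (w - 1) • WW ν y‖ with hI0
  have hnorm : ∀ n, ∫ y in Ioi (0 : ℝ), ‖F n y‖ = ‖u n‖ * ((2 * Real.pi * n) ^ (-w.re) * I0) := by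
    intro n
    rcases Nat.eq_zero_or_pos n with rfl | hn
    · simp [hF, hu0]
    · have ha : 0 < 2 * Real.pi * (n : ℝ) := by positivity
      set a : ℝ := 2 * Real.pi * (n : ℝ) with ha_def
      have e1 : ∀ y ∈ Ioi (0 : ℝ), ‖F n y‖ = (‖u n‖ * a ^ (1 - w.re)) * ‖((a * y : ℝ) : ℂ) ^ (w - 1) • WW ν (a * y)‖ := by
        intro y hy
        have hy' : 0 < y := hy
        simp only [hF]
        rw [norm_smul, norm_smul, norm_mul, Complex.norm_cpow_eq_rpow_re_of_pos hy',
          Complex.norm_cpow_eq_rpow_re_of_pos (by positivity), Complex.sub_re, Complex.one_re,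
          Real.mul_rpow ha.le hy'.le]
        have e2 : a ^ (1 - w.re) * a ^ (w.re - 1) = 1 := by
          rw [← Real.rpow_add ha]; simp
        calc y ^ (w.re - 1) * (‖u n‖ * ‖WW ν (a * y)‖) = (a ^ (1 - w.re) * a ^ (w.re - 1)) * (y ^ (w.re - 1) * (‖u n‖ * ‖WW ν (a * y)‖)) := by
              rw [e2, one_mul]
          _ = _ := by ring
      rw [setIntegral_congr_fun measurableSet_Ioi e1, integral_const_mul,
        integral_comp_mul_left_Ioi (fun y : ℝ => ‖(y : ℂ) ^ (w - 1) • WW ν y‖) 0 ha, mul_zero, smul_eq_mul]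
      rw [show -w.re = (1 - w.re) + -1 by ring, Real.rpow_add ha, Real.rpow_neg_one]
      ring
  have hI0' : 0 ≤ I0 := integral_nonneg fun y => norm_nonneg _
  have hsn : Summable fun n => ∫ y in Ioi (0 : ℝ), ‖F n y‖ := by
    simp only [hnorm]
    have h3 : Summable fun n : ℕ => (C * (2 * Real.pi) ^ (-w.re) * I0) * (n : ℝ) ^ (1 - w.re) :=
      (Real.summable_nat_rpow.2 (by linarith)).mul_left _
    refine Summable.of_nonneg_of_le (fun n => by positivity) (fun n => ?_) h3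
    rcases Nat.eq_zero_or_pos n with rfl | hn
    · rw [hu0, norm_zero, zero_mul]; positivity
    · have hn' : (0 : ℝ) < n := by exact_mod_cast hn
      rw [Real.mul_rpow (by positivity) hn'.le]
      calc ‖u n‖ * ((2 * Real.pi) ^ (-w.re) * (n : ℝ) ^ (-w.re) * I0)
          ≤ (C * n) * ((2 * Real.pi) ^ (-w.re) * (n : ℝ) ^ (-w.re) * I0) := by gcongr; exact hC n
        _ = (C * (2 * Real.pi) ^ (-w.re) * I0) * (n : ℝ) ^ (1 - w.re) := by
            rw [sub_eq_add_neg, Real.rpow_add hn', Real.rpow_one]; ring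
  have key := hasSum_integral_of_summable_integral_norm hFint hsn
  have e1 : ∫ y in Ioi (0 : ℝ), ∑' n, F n y = mellin S w := by
    rw [mellin]
    refine setIntegral_congr_fun measurableSet_Ioi fun y hy => ?_
    have := (hsum y hy).const_smul ((y : ℂ) ^ (w - 1))
    exact this.tsum_eq
  rw [e1] at key
  refine key.congr_fun fun n => ?_
  rcases Nat.eq_zero_or_pos n with rfl | hn
  · simp [hF, hu0]
  · have ha : 0 < 2 * Real.pi * (n : ℝ) := by positivity
    have h3 := mellin_comp_mul_left (WW ν) w ha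
    have h4 : ∫ y in Ioi (0 : ℝ), F n y = u n * mellin (fun y => WW ν (2 * Real.pi * n * y)) w := by
      rw [mellin, ← integral_const_mul]
      refine setIntegral_congr_fun measurableSet_Ioi fun y _ => ?_
      simp only [hF, smul_eq_mul]
      ring
    have h5 : ((2 * Real.pi * (n : ℝ) : ℝ) : ℂ) ^ (-w) = ((2 * Real.pi : ℝ) : ℂ) ^ (-w) * (n : ℂ) ^ (-w) := by
      have := Complex.mul_cpow_ofReal_nonneg (show 0 ≤ 2 * Real.pi by positivity) (show (0 : ℝ) ≤ n from n.cast_nonneg) (-w)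
      rw [← Complex.ofReal_mul, Complex.ofReal_natCast] at this
      exact this
    rw [h4, h3, smul_eq_mul, h5]
    ring

lemma S_decay (hC : ∀ n, ‖u n‖ ≤ C * n) (hsum : ∀ y : ℝ, 0 < y → HasSum (fun n : ℕ => u n * WW ν (2 * Real.pi * n * y)) (S y)) :
    ∃ K, 0 ≤ K ∧ ∀ y : ℝ, 1 ≤ y → ‖S y‖ ≤ K * Real.exp (-y) := by
  obtain ⟨CW, hCW0, hCW⟩ := WW_decay ν
  have hπ := Real.pi_gt_three
  have hC0 : 0 ≤ C := by
    have := (norm_nonneg _).trans (hC 1)
    simpa using this
  have hu0 : u 0 = 0 := by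
    have := hC 0
    simpa using this
  have hr : ‖Real.exp (-(1 / 2 : ℝ))‖ < 1 := by
    rw [Real.norm_of_nonneg (Real.exp_pos _).le, Real.exp_lt_one_iff]; norm_num
  have h1 := (summable_pow_mul_geometric_of_norm_lt_one 1 hr)
  refine ⟨C * CW * ∑' n : ℕ, ((n : ℝ) ^ 1 * Real.exp (-(1 / 2 : ℝ)) ^ n), ?_, fun y hy => ?_⟩
  · refine mul_nonneg (by positivity) (tsum_nonneg fun n => by positivity)
  · have h2 := hsum y (by linarith)
    rw [← h2.tsum_eq]
    have hb : ∀ n : ℕ, ‖u n * WW ν (2 * Real.pi * n * y)‖ ≤ (C * CW * Real.exp (-y)) * ((n : ℝ) ^ 1 * Real.exp (-(1 / 2 : ℝ)) ^ n) := by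
      intro n
      rcases Nat.eq_zero_or_pos n with rfl | hn
      · rw [hu0]; simp
      · have hn' : (1 : ℝ) ≤ n := by exact_mod_cast hn
        have hny : (1 : ℝ) ≤ n * y := one_le_mul_of_one_le_of_one_le hn' hy
        have h3 : 1 ≤ 2 * Real.pi * n * y := by nlinarith
        rw [norm_mul, pow_one]
        have h4 : Real.exp (-(2 * Real.pi * n * y / 4)) ≤ Real.exp (-y) * Real.exp (-(1 / 2 : ℝ)) ^ n := by
          rw [← Real.exp_nat_mul, ← Real.exp_add]
          apply Real.exp_le_exp.2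
          nlinarith
        calc ‖u n‖ * ‖WW ν (2 * Real.pi * n * y)‖ ≤ (C * n) * (CW * (Real.exp (-y) * Real.exp (-(1 / 2 : ℝ)) ^ n)) :=
              mul_le_mul (hC n) ((hCW _ h3).trans (by gcongr)) (norm_nonneg _) (by positivity)
          _ = _ := by ring
    have h3 := tsum_of_norm_bounded (h1.mul_left (C * CW * Real.exp (-y))).hasSum hb
    rw [tsum_mul_left] at h3
    calc _ ≤ _ := h3
      _ = _ := by ring

/-- **analytic continuation and functional equation** -/
theorem analytic {N : ℕ} [NeZero N] (δ : ℕ) (hC : ∀ n, ‖u n‖ ≤ C * n) (hcont : ContinuousOn S (Ioi 0))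
    (hsum : ∀ y : ℝ, 0 < y → HasSum (fun n : ℕ => u n * WW ν (2 * Real.pi * n * y)) (S y))
    (hfe : ∀ y : ℝ, 0 < y → S (1 / ((N : ℝ) ^ 2 * y)) = -((N * y : ℂ) ^ (2 * δ)) * S y) :
    ∃ Lam : ℂ → ℂ, Differentiable ℂ Lam ∧ (∀ s, Lam (1 - s) = - Lam s) ∧
      ∀ s, Lam s = (N : ℂ) ^ (s + (δ - 1 / 2)) * mellin S (s + (δ - 1 / 2)) := by
  have hN : (0 : ℝ) < N := by exact_mod_cast Nat.pos_of_ne_zero (NeZero.ne N)
  have hNc : (N : ℂ) ≠ 0 := by exact_mod_cast NeZero.ne N
  set F : ℝ → ℂ := fun y => ((y ^ ((δ : ℝ) - 1 / 2) : ℝ) : ℂ) * S (y / N) with hF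
  have hFc : ContinuousOn F (Ioi 0) := by
    refine ContinuousOn.mul ?_ ?_
    · refine Complex.continuous_ofReal.comp_continuousOn ?_
      intro y hy
      exact (Real.continuousAt_rpow_const y _ (Or.inl (ne_of_gt hy))).continuousWithinAt
    · refine hcont.comp (by fun_prop) fun y hy => ?_
      have : 0 < y := hy
      exact div_pos this hN
  have hFli : LocallyIntegrableOn F (Ioi 0) := hFc.locallyIntegrableOn measurableSet_Ioi
  have hFfe : ∀ x ∈ Ioi (0 : ℝ), F (1 / x) = ((-1 : ℂ) * ((x ^ (1 : ℝ) : ℝ) : ℂ)) • F x := by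
    intro x hx
    have hx' : 0 < x := hx
    have hxc : (x : ℂ) ≠ 0 := by exact_mod_cast hx'.ne'
    simp only [hF]
    have e1 : 1 / x / N = 1 / ((N : ℝ) ^ 2 * (x / N)) := by field_simp
    rw [e1, hfe (x / N) (by positivity), Real.rpow_one, smul_eq_mul]
    have e2 : ((N : ℂ) * ((x / N : ℝ) : ℂ)) = x := by push_cast; field_simp
    rw [e2]
    have e3 : (1 / x) ^ ((δ : ℝ) - 1 / 2) * x ^ (2 * δ) = x * x ^ ((δ : ℝ) - 1 / 2) := by
      rw [one_div, Real.inv_rpow hx'.le, ← Real.rpow_neg hx'.le, ← Real.rpow_natCast x (2 * δ), ← Real.rpow_add hx']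
      nth_rewrite 2 [← Real.rpow_one x]
      rw [← Real.rpow_add hx']
      congr 1
      push_cast; ring
    have e3' : (((1 / x) ^ ((δ : ℝ) - 1 / 2) : ℝ) : ℂ) * (x : ℂ) ^ (2 * δ) = x * ((x ^ ((δ : ℝ) - 1 / 2) : ℝ) : ℂ) := by
      exact_mod_cast e3
    linear_combination (-S (x / N)) * e3'
  have hFtop : ∀ r : ℝ, (F · - 0) =O[atTop] (· ^ r : ℝ → ℝ) := by
    intro r
    simp only [sub_zero]
    obtain ⟨K, hK0, hK⟩ := S_decay hC hsum
    have h1 : F =O[atTop] fun y : ℝ => y ^ ((δ : ℝ) - 1 / 2) * Real.exp (-(1 / N) * y) := by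
      refine IsBigO.of_bound K ?_
      filter_upwards [eventually_ge_atTop (N : ℝ)] with y hy
      have hy0 : 0 < y := lt_of_lt_of_le hN hy
      simp only [hF]
      rw [norm_mul, Complex.norm_real, norm_mul, Real.norm_of_nonneg (Real.exp_pos _).le]
      have h2 := hK (y / N) (by rw [le_div_iff₀ hN]; linarith)
      have e1 : -(y / N) = -(1 / N) * y := by ring
      rw [e1] at h2
      calc ‖y ^ ((δ : ℝ) - 1 / 2)‖ * ‖S (y / N)‖ ≤ ‖y ^ ((δ : ℝ) - 1 / 2)‖ * (K * Real.exp (-(1 / N) * y)) := by gcongr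
        _ = _ := by ring
    have h2 : (fun y : ℝ => Real.exp (-(1 / N) * y)) =O[atTop] fun y : ℝ => y ^ (r - ((δ : ℝ) - 1 / 2)) :=
      (isLittleO_exp_neg_mul_rpow_atTop (by positivity) _).isBigO
    refine h1.trans ?_
    have h3 := (isBigO_refl (fun y : ℝ => y ^ ((δ : ℝ) - 1 / 2)) atTop).mul h2
    refine h3.trans_eventuallyEq ?_
    filter_upwards [eventually_gt_atTop 0] with y hy
    rw [← Real.rpow_add hy]
    congr 1; ring
  let P : WeakFEPair ℂ :=
    { f := F, g := F, k := 1, ε := -1, f₀ := 0, g₀ := 0, hf_int := hFli, hg_int := hFli, hk := one_pos,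
      hε := by norm_num, h_feq := hFfe, hf_top := hFtop, hg_top := hFtop }
  have hP : IsStrongFEPair P := ⟨rfl, rfl⟩
  refine ⟨P.Λ, hP.differentiable_Λ, fun s => ?_, fun s => ?_⟩
  · have h1 := P.functional_equation s
    have h2 : P.symm.Λ = P.Λ := by
      rw [hP.symm_Λ_eq, hP.Λ_eq]
    rw [h2] at h1
    simpa [P] using h1
  · rw [hP.Λ_eq]
    have h1 : mellin P.f s = mellin (fun y : ℝ => (y : ℂ) ^ ((δ : ℂ) - 1 / 2) • S ((1 / N : ℝ) * y)) s := by
      rw [mellin, mellin]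
      refine setIntegral_congr_fun measurableSet_Ioi fun y hy => ?_
      have hy' : 0 < y := hy
      simp only [P, hF]
      rw [Complex.ofReal_cpow hy'.le, smul_eq_mul (a := (y : ℂ) ^ ((δ : ℂ) - 1 / 2))]
      push_cast
      congr 3
      ring
    rw [h1, mellin_cpow_smul, mellin_comp_mul_left _ _ (by positivity), smul_eq_mul]
    congr 1
    rw [Complex.ofReal_div, Complex.ofReal_one, Complex.ofReal_natCast, one_div, Complex.inv_cpow, Complex.cpow_neg, inv_inv]
    rw [Complex.natCast_arg]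
    exact Real.pi_pos.ne

end

end Pool.Agent.X291.MF
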