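import Pool.Agent.X291.MF.Tw
import Pool.Agent.X291.MF.An

/-!
# The twisted L-functions of an odd Maass form of level one vanish at `1/2`
-/

set_option autoImplicit false

open UpperHalfPlane MeasureTheory Set Filter Topology Function
open scoped MatrixGroups Modular ENNReal Pointwise ContDiff

namespace Pool.Agent.X291.MF

noncomputable section

variable {f : ℍ → ℂ} {lam : ℂ} {a : ℕ → ℂ} {ν : ℂ} {N : ℕ} [NeZero N]

/-- folding a sum over `ℤ` -/
lemma fold {g : ℤ → ℂ} {T : ℂ} (h : HasSum g T) (h0 : g 0 = 0) (hs : ∀ n : ℕ, g (-n) = g n) :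
    HasSum (fun n : ℕ => 2 * g n) T := by
  have h1 := h.nat_add_neg
  rw [h0, add_zero] at h1
  refine h1.congr_fun fun n => ?_
  rw [hs]; ring

/-- the two kinds of twisted series, in a uniform format -/
lemma series (hf : IsHeckeMaassForm f lam a) (hodd : IsOddForm f) {A : ℤ → ℂ} (hA : FCoef f ν A)
    {χ : DirichletCharacter ℂ N} (hχ : IsPQ χ) :
    ∃ (δ : ℕ) (S : ℝ → ℂ), ContinuousOn S (Ioi 0) ∧
      (∀ y : ℝ, 0 < y → HasSum (fun n : ℕ => (χ n * A n * (n : ℂ) ^ δ) * WW ν (2 * Real.pi * n * y)) (S y)) ∧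
      (∀ y : ℝ, 0 < y → S (1 / ((N : ℝ) ^ 2 * y)) = -((N * y : ℂ) ^ (2 * δ)) * S y) ∧ (δ = 0 ∨ δ = 1) := by
  have hs : ContDiffOn ℝ ∞ (FF f) UU := hf.smooth
  set τ := gaussSum χ (ZMod.stdAddChar (N := N)) with hτ
  have hτ0 : τ ≠ 0 := gauss_ne hχ
  have hcI : ContinuousOn (fun y : ℝ => (y : ℂ) * Complex.I) (Ioi 0) := by fun_prop
  rcases χ.even_or_odd with hev | hod
  · -- even characters
    have hev' : χ (-1) = 1 := hev
    have hc0 : (4 * Real.pi * Complex.I * τ : ℂ) ≠ 0 := by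
      simp [Real.pi_ne_zero, hτ0]
    refine ⟨1, fun y => (4 * Real.pi * Complex.I * τ)⁻¹ * tw χ (Gx (FF f)) (y * Complex.I), ?_, ?_, ?_, Or.inr rfl⟩
    · exact continuousOn_const.mul ((smooth_tw (smooth_Gx hs) χ).continuousOn.comp hcI fun y hy => mem_I hy)
    · intro y hy
      have h1 := tw_hasSum hχ (G := Gx (FF f)) (y := y)
        (c := fun n => 2 * Real.pi * Complex.I * n * (A n * WW ν (2 * Real.pi * |(n : ℝ)| * y)))
        (fun x => hA.sum_x hf x hy)
      have h2 := fold h1 (by simp) (fun n => by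
        have hn : χ ((-(n : ℤ) : ℤ) : ZMod N) = χ ((n : ℤ) : ZMod N) := by
          push_cast; exact DirichletCharacter.Even.eval_neg χ _ hev
        rw [hn, hA.odd hf hodd]
        push_cast
        rw [abs_neg]
        ring)
      have h3 := h2.mul_left ((4 * Real.pi * Complex.I * τ)⁻¹)
      refine h3.congr_fun fun n => ?_
      push_cast
      rw [Nat.abs_cast, pow_one, ← hτ]
      field_simp
      ring
    · intro y hy
      simp only
      rw [fe1 hf hχ hy, hev']
      push_cast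
      ring
  · -- odd characters
    have hod' : χ (-1) = -1 := hod
    have hc0 : (2 * τ : ℂ) ≠ 0 := by simp [hτ0]
    refine ⟨0, fun y => (2 * τ)⁻¹ * tw χ (FF f) (y * Complex.I), ?_, ?_, ?_, Or.inl rfl⟩
    · exact continuousOn_const.mul ((smooth_tw hs χ).continuousOn.comp hcI fun y hy => mem_I hy)
    · intro y hy
      have h1 := tw_hasSum hχ (G := FF f) (y := y)
        (c := fun n => A n * WW ν (2 * Real.pi * |(n : ℝ)| * y)) (fun x => hA.sum hf x hy)
      have h2 := fold h1 (by simp [hA.zero]) (fun n => by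
        have hn : χ ((-(n : ℤ) : ℤ) : ZMod N) = -χ ((n : ℤ) : ZMod N) := by
          push_cast; exact DirichletCharacter.Odd.eval_neg χ _ hod
        rw [hn, hA.odd hf hodd]
        push_cast
        rw [abs_neg]
        ring)
      have h3 := h2.mul_left ((2 * τ)⁻¹)
      refine h3.congr_fun fun n => ?_
      push_cast
      rw [Nat.abs_cast, pow_zero, ← hτ]
      field_simp
    · intro y hy
      simp only
      rw [fe0 hf hχ hy, hod']
      push_cast
      ring

/-- the twisted L-function: an entire function which is the Euler product of the twist for large `Re s` -/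
structure IsTwistedLFunction (a : ℕ → ℂ) {N : ℕ} (χ : DirichletCharacter ℂ N) (L : ℂ → ℂ) : Prop where
  entire : Differentiable ℂ L
  euler : ∃ σ : ℝ, ∀ s : ℂ, σ < s.re → HasProd (fun p : Nat.Primes =>
    (1 - a p * χ p * (p : ℂ) ^ (-s) + χ p ^ 2 * (p : ℂ) ^ (-(2 * s)))⁻¹) (L s)

lemma IsTwistedLFunction.unique {a : ℕ → ℂ} {N : ℕ} {χ : DirichletCharacter ℂ N} {L L' : ℂ → ℂ}
    (h : IsTwistedLFunction a χ L) (h' : IsTwistedLFunction a χ L') : L = L' := by
  obtain ⟨σ, hσ⟩ := h.euler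
  obtain ⟨σ', hσ'⟩ := h'.euler
  have h1 : AnalyticOnNhd ℂ L univ := fun z _ => h.entire.analyticAt z
  have h2 : AnalyticOnNhd ℂ L' univ := fun z _ => h'.entire.analyticAt z
  refine h1.eq_of_eventuallyEq h2 (z₀ := ((max σ σ' + 1 : ℝ) : ℂ)) ?_
  have h3 : IsOpen {s : ℂ | max σ σ' < s.re} := isOpen_lt continuous_const Complex.continuous_re
  filter_upwards [h3.mem_nhds (show ((max σ σ' + 1 : ℝ) : ℂ) ∈ {s : ℂ | max σ σ' < s.re} by
    show max σ σ' < ((max σ σ' + 1 : ℝ) : ℂ).re
    rw [Complex.ofReal_re]; linarith)] with s hs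
  have hs' : max σ σ' < s.re := hs
  exact (hσ s (lt_of_le_of_lt (le_max_left _ _) hs')).unique (hσ' s (lt_of_le_of_lt (le_max_right _ _) hs'))

/-- **all quadratic twists vanish at the centre** -/
theorem twist_main (hf : IsHeckeMaassForm f lam a) (hodd : IsOddForm f) {χ : DirichletCharacter ℂ N} (hχ : IsPQ χ) :
    ∃ L : ℂ → ℂ, IsTwistedLFunction a χ L ∧ L (1 / 2) = 0 := by
  obtain ⟨ν, hν⟩ := exists_nu lam
  obtain ⟨A, hA⟩ := exists_FCoef hf hν
  obtain ⟨C, hC0, hC⟩ := hA.bdd hf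
  have hρ := rho_one_ne hf hodd hA
  have hM := exists_Mul1 hf hodd hA
  obtain ⟨δ, S, hcont, hsum, hfe, hδ⟩ := series hf hodd hA hχ
  have hu : ∀ n : ℕ, ‖χ n * A n * (n : ℂ) ^ δ‖ ≤ C * n := by
    intro n
    rcases Nat.eq_zero_or_pos n with rfl | hn
    · rw [Nat.cast_zero, Nat.cast_zero, hA.zero]; simp
    · have hn' : (1 : ℝ) ≤ n := by exact_mod_cast hn
      rw [norm_mul, norm_mul, norm_pow, Complex.norm_natCast]
      have h1 : (n : ℝ) ^ δ ≤ n := by
        rcases hδ with rfl | rfl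
        · simpa using hn'
        · simp
      calc ‖χ n‖ * ‖A n‖ * (n : ℝ) ^ δ ≤ 1 * C * n := by
            gcongr
            · exact χ.norm_le_one _
            · exact hC _
        _ = C * n := by ring
  obtain ⟨Lam, hLd, hLfe, hLval⟩ := analytic (N := N) δ hu hcont hsum hfe
  have hπ := Real.pi_pos
  have hNc : (N : ℂ) ≠ 0 := by exact_mod_cast NeZero.ne N
  have hπc : ((2 * Real.pi : ℝ) : ℂ) ≠ 0 := by
    have : (2 * Real.pi : ℝ) ≠ 0 := by positivity
    exact_mod_cast this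
  set w : ℂ → ℂ := fun s => s + (δ - 1 / 2) with hw
  have hwd : Differentiable ℂ w := by intro s; simp only [hw]; fun_prop
  set L : ℂ → ℂ := fun s => (rho A 1)⁻¹ * (((N : ℂ) ^ (-(w s)) * ((2 * Real.pi : ℝ) : ℂ) ^ (w s)) *
    ((2 : ℂ) ^ (-(w s + ν - 1 / 2)) * ((Complex.Gamma ((w s + 1 / 2 + ν) / 2))⁻¹ *
      (Complex.Gamma ((w s + 1 / 2 - ν) / 2))⁻¹))) * Lam s with hL
  have hentire : Differentiable ℂ L := by
    have h1 : Differentiable ℂ fun s => (N : ℂ) ^ (-(w s)) := by
      intro s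
      exact (hwd s).neg.const_cpow (Or.inl hNc)
    have h2 : Differentiable ℂ fun s => ((2 * Real.pi : ℝ) : ℂ) ^ (w s) := by
      intro s
      exact (hwd s).const_cpow (Or.inl hπc)
    have h3 : Differentiable ℂ fun s => (2 : ℂ) ^ (-(w s + ν - 1 / 2)) := by
      intro s
      exact (((hwd s).add_const ν).sub_const (1 / 2)).neg.const_cpow (Or.inl (by norm_num))
    have h4 : Differentiable ℂ fun s => (Complex.Gamma ((w s + 1 / 2 + ν) / 2))⁻¹ :=
      Complex.differentiable_one_div_Gamma.comp (((hwd.add_const _).add_const _).div_const _)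
    have h5 : Differentiable ℂ fun s => (Complex.Gamma ((w s + 1 / 2 - ν) / 2))⁻¹ :=
      Complex.differentiable_one_div_Gamma.comp (((hwd.add_const _).sub_const _).div_const _)
    exact (((h1.mul h2).mul (h3.mul (h4.mul h5))).const_mul (rho A 1)⁻¹).mul hLd
  refine ⟨L, ⟨hentire, 3 + ‖ν‖, fun s hs => ?_⟩, ?_⟩
  · -- the Euler product
    have hνr := abs_le.1 (Complex.abs_re_le_norm ν)
    have hν0 := norm_nonneg ν
    have hδr : (0 : ℝ) ≤ δ := δ.cast_nonneg
    have hwre : (w s).re = s.re + (δ - 1 / 2) := by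
      simp only [hw]
      rw [Complex.add_re, Complex.sub_re, Complex.natCast_re]
      norm_num
    have hw2 : 2 < (w s).re := by rw [hwre]; linarith
    have hw3 : 0 < (w s + 1 / 2 + ν).re := by
      have : (w s + 1 / 2 + ν).re = (w s).re + 1 / 2 + ν.re := by simp
      rw [this, hwre]; linarith [hνr.1]
    have hw4 : 0 < (w s + 1 / 2 - ν).re := by
      have : (w s + 1 / 2 - ν).re = (w s).re + 1 / 2 - ν.re := by simp
      rw [this, hwre]; linarith [hνr.2]
    have hE := euler hM (C := C / ‖rho A 1‖) (fun n => by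
      rw [norm_div, rho, norm_mul, Complex.norm_real, Real.norm_of_nonneg (Real.sqrt_nonneg _)]
      rw [div_mul_eq_mul_div]
      refine div_le_div_of_nonneg_right ?_ (norm_nonneg _)
      rw [mul_comm]
      exact mul_le_mul_of_nonneg_right (hC _) (Real.sqrt_nonneg _)) χ (s := s) (by linarith)
    have hval : L s = ∑' n : ℕ, (rho A n / rho A 1) * χ n * (n : ℂ) ^ (-s) := by
      have h1 := mellin_S hu hsum hw2 hw3 hw4
      have h2 := h1.tsum_eq
      rw [tsum_mul_left] at h2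
      have h3 : ∀ n : ℕ, χ n * A n * (n : ℂ) ^ δ * (n : ℂ) ^ (-(w s)) = rho A 1 * ((rho A n / rho A 1) * χ n * (n : ℂ) ^ (-s)) := by
        intro n
        rcases Nat.eq_zero_or_pos n with rfl | hn
        · rw [Nat.cast_zero, Nat.cast_zero, hA.zero, rho_zero]; simp
        · have hnc : (n : ℂ) ≠ 0 := by exact_mod_cast hn.ne'
          have h4 : (n : ℂ) ^ δ * (n : ℂ) ^ (-(w s)) = (Real.sqrt n : ℂ) * (n : ℂ) ^ (-s) := by
            have h5 : (Real.sqrt n : ℂ) = (n : ℂ) ^ (1 / 2 : ℂ) := by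
              rw [Real.sqrt_eq_rpow, Complex.ofReal_cpow n.cast_nonneg]
              push_cast; rfl
            rw [h5, ← Complex.cpow_natCast, ← Complex.cpow_add _ _ hnc, ← Complex.cpow_add _ _ hnc]
            congr 1
            simp only [hw]; ring
          have h6 : rho A 1 * (rho A n / rho A 1 * χ n * (n : ℂ) ^ (-s)) = rho A n * χ n * (n : ℂ) ^ (-s) := by
            field_simp
          rw [h6]
          unfold rho
          linear_combination (χ n * A n) * h4
      simp only [h3] at h2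
      rw [tsum_mul_left] at h2
      simp only [hL]
      rw [hLval s, ← h2, (WW_mellin hw3 hw4).2]
      have g1 : Complex.Gamma ((w s + 1 / 2 + ν) / 2) ≠ 0 := by
        refine Complex.Gamma_ne_zero_of_re_pos ?_
        rw [show (2 : ℂ) = ((2 : ℝ) : ℂ) by norm_num, Complex.div_ofReal_re]; norm_num at hw3 ⊢; exact hw3
      have g2 : Complex.Gamma ((w s + 1 / 2 - ν) / 2) ≠ 0 := by
        refine Complex.Gamma_ne_zero_of_re_pos ?_
        rw [show (2 : ℂ) = ((2 : ℝ) : ℂ) by norm_num, Complex.div_ofReal_re]; norm_num at hw4 ⊢; exact hw4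
      have e1 : (N : ℂ) ^ (-(w s)) * (N : ℂ) ^ (w s) = 1 := by
        rw [← Complex.cpow_add _ _ hNc]; simp
      have e2 : ((2 * Real.pi : ℝ) : ℂ) ^ (w s) * ((2 * Real.pi : ℝ) : ℂ) ^ (-(w s)) = 1 := by
        rw [← Complex.cpow_add _ _ hπc]; simp
      have e3 : (2 : ℂ) ^ (-(w s + ν - 1 / 2)) * (2 : ℂ) ^ (w s + ν - 1 / 2) = 1 := by
        rw [← Complex.cpow_add _ _ (by norm_num)]; simp
      have ew : s + ((δ : ℂ) - 1 / 2) = w s := rfl
      rw [ew]
      generalize (N : ℂ) ^ (-(w s)) = n1 at *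
      generalize (N : ℂ) ^ (w s) = n2 at *
      generalize ((2 * Real.pi : ℝ) : ℂ) ^ (w s) = p1 at *
      generalize ((2 * Real.pi : ℝ) : ℂ) ^ (-(w s)) = p2 at *
      generalize (2 : ℂ) ^ (-(w s + ν - 1 / 2)) = t1 at *
      generalize (2 : ℂ) ^ (w s + ν - 1 / 2) = t2 at *
      generalize Complex.Gamma ((w s + 1 / 2 + ν) / 2) = G1 at *
      generalize Complex.Gamma ((w s + 1 / 2 - ν) / 2) = G2 at *
      generalize (∑' n : ℕ, (rho A n / rho A 1) * χ n * (n : ℂ) ^ (-s)) = T at *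
      calc (rho A 1)⁻¹ * ((n1 * p1) * (t1 * (G1⁻¹ * G2⁻¹))) * (n2 * (p2 * (t2 * G1 * G2) * (rho A 1 * T)))
          = ((rho A 1)⁻¹ * rho A 1) * (n1 * n2) * (p1 * p2) * (t1 * t2) * (G1⁻¹ * G1) * (G2⁻¹ * G2) * T := by ring
        _ = T := by rw [inv_mul_cancel₀ hρ, inv_mul_cancel₀ g1, inv_mul_cancel₀ g2, e1, e2, e3]; ring
    rw [hval]
    exact hE.2
  · have h1 := hLfe (1 / 2)
    have h2 : Lam (1 / 2) = 0 := by
      rw [show (1 : ℂ) - 1 / 2 = 1 / 2 by norm_num] at h1
      have : (2 : ℂ) * Lam (1 / 2) = 0 := by linear_combination h1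
      simpa using this
    simp only [hL]
    rw [h2, mul_zero]

end

end Pool.Agent.X291.MF
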