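import Mathlib

/-!
# The `K`-Bessel function as `∫ t^r exp(-t - y²/(4t)) dt`
-/

set_option autoImplicit false

open Set Filter Topology MeasureTheory

namespace Pool.Agent.X291.MF

noncomputable section

/-- `exp(-t - y²/(4t))` -/
def EE (t y : ℝ) : ℝ := Real.exp (-t - y ^ 2 / (4 * t))

lemma exp_inv_le {t c : ℝ} (ht : 0 < t) (hc : 0 < c) (k : ℕ) :
    Real.exp (-(c / t)) ≤ (k.factorial / c ^ k) * t ^ k := by
  have h1 : 0 < c / t := by positivity
  have h2 := Real.pow_div_factorial_le_exp (c / t) h1.le k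
  rw [Real.exp_neg]
  have h3 : 0 < (c / t) ^ k / k.factorial := by positivity
  calc (Real.exp (c / t))⁻¹ ≤ ((c / t) ^ k / k.factorial)⁻¹ := by gcongr
    _ = (k.factorial / c ^ k) * t ^ k := by
        rw [inv_div, div_pow]; field_simp

lemma integ (σ : ℝ) {c b : ℝ} (hc : 0 < c) (hb : 0 < b) :
    IntegrableOn (fun t : ℝ => t ^ σ * Real.exp (-(b * t) - c / t)) (Ioi 0) := by
  obtain ⟨k, hk⟩ := exists_nat_gt (-1 - σ)
  have h1 : IntegrableOn (fun t : ℝ => (k.factorial / c ^ k) * (t ^ (σ + k) * Real.exp (-b * t ^ (1 : ℝ)))) (Ioi 0) :=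
    (integrableOn_rpow_mul_exp_neg_mul_rpow (by linarith) one_pos hb).const_mul _
  refine Integrable.mono' h1 ?_ ?_
  · refine ContinuousOn.aestronglyMeasurable ?_ measurableSet_Ioi
    intro t ht
    have ht' : t ≠ 0 := (ne_of_gt ht)
    refine ContinuousAt.continuousWithinAt ?_
    refine ContinuousAt.mul (Real.continuousAt_rpow_const _ _ (Or.inl ht')) ?_
    refine (ContinuousAt.rexp ?_)
    refine ContinuousAt.sub (by fun_prop) (continuousAt_const.div continuousAt_id ht')
  · filter_upwards [ae_restrict_mem measurableSet_Ioi] with t ht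
    have ht' : 0 < t := ht
    rw [Real.norm_of_nonneg (by positivity), sub_eq_add_neg, Real.exp_add, Real.rpow_one, Real.rpow_add ht',
      Real.rpow_natCast]
    have h2 := exp_inv_le ht' hc k
    calc t ^ σ * (Real.exp (-(b * t)) * Real.exp (-(c / t)))
        ≤ t ^ σ * (Real.exp (-(b * t)) * ((k.factorial / c ^ k) * t ^ k)) := by gcongr
      _ = _ := by rw [neg_mul]; ring

/-- the integrals -/
def JJ (r : ℂ) (y : ℝ) : ℂ := ∫ t in Ioi (0 : ℝ), (t : ℂ) ^ r * (EE t y : ℂ)

lemma EE_le {t y a : ℝ} (ht : 0 < t) (ha : 0 ≤ a) (hy : a ≤ y) : EE t y ≤ Real.exp (-(1 * t) - (a ^ 2 / 4) / t) := by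
  unfold EE
  apply Real.exp_le_exp.2
  have : a ^ 2 / 4 / t ≤ y ^ 2 / (4 * t) := by
    rw [div_div]; gcongr
  linarith

lemma EE_decay {t y : ℝ} (ht : 0 < t) (hy : 1 ≤ y) :
    EE t y ≤ Real.exp (-(y / 2)) * Real.exp (-((1 / 2) * t) - (1 / 8) / t) := by
  rw [EE, ← Real.exp_add]
  apply Real.exp_le_exp.2
  have h1 : y ≤ t + y ^ 2 / (4 * t) := by
    have : 0 ≤ (t - y / 2) ^ 2 / t := by positivity
    have h2 : (t - y / 2) ^ 2 / t = t + y ^ 2 / (4 * t) - y := by field_simp; ring
    linarith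
  have h2 : 1 / 8 / t ≤ (y ^ 2 / (4 * t)) / 2 := by
    rw [div_div, div_div]
    rw [div_le_div_iff₀ (by positivity) (by positivity)]
    nlinarith [mul_nonneg (sub_nonneg.2 (one_le_pow₀ hy : (1 : ℝ) ≤ y ^ 2)) ht.le]
  linarith

lemma cont_EE (y : ℝ) : ContinuousOn (fun t => EE t y) (Ioi 0) := by
  intro t ht
  have ht' : t ≠ 0 := (ne_of_gt ht)
  unfold EE
  refine ContinuousAt.continuousWithinAt ?_
  refine (ContinuousAt.rexp ?_)
  refine ContinuousAt.sub (by fun_prop) (continuousAt_const.div (by fun_prop) (by positivity))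

lemma cont_cpow (r : ℂ) : ContinuousOn (fun t : ℝ => (t : ℂ) ^ r) (Ioi 0) := by
  intro t ht
  have ht' : 0 < t := ht
  exact (Complex.continuousAt_ofReal_cpow_const t r (Or.inr ht'.ne')).continuousWithinAt

lemma cont_integrand (r : ℂ) (y : ℝ) : ContinuousOn (fun t : ℝ => (t : ℂ) ^ r * (EE t y : ℂ)) (Ioi 0) :=
  (cont_cpow r).mul (Complex.continuous_ofReal.comp_continuousOn (cont_EE y))

lemma meas_integrand (r : ℂ) (y : ℝ) :
    AEStronglyMeasurable (fun t : ℝ => (t : ℂ) ^ r * (EE t y : ℂ)) (volume.restrict (Ioi 0)) :=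
  (cont_integrand r y).aestronglyMeasurable measurableSet_Ioi

lemma norm_integrand (r : ℂ) {y t : ℝ} (ht : 0 < t) : ‖(t : ℂ) ^ r * (EE t y : ℂ)‖ = t ^ r.re * EE t y := by
  rw [norm_mul, Complex.norm_cpow_eq_rpow_re_of_pos ht, Complex.norm_real,
    Real.norm_of_nonneg (show 0 ≤ EE t y from (Real.exp_pos _).le)]

lemma int_integrand (r : ℂ) {y : ℝ} (hy : 0 < y) :
    IntegrableOn (fun t : ℝ => (t : ℂ) ^ r * (EE t y : ℂ)) (Ioi 0) := by
  refine Integrable.mono' (integ r.re (c := y ^ 2 / 4) (b := 1) (by positivity) one_pos) (meas_integrand r y) ?_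
  filter_upwards [ae_restrict_mem measurableSet_Ioi] with t ht
  have ht' : 0 < t := ht
  rw [norm_integrand r ht']
  exact mul_le_mul_of_nonneg_left (EE_le ht' hy.le le_rfl) (by positivity)

lemma dEE_y {t : ℝ} (ht : 0 < t) (y : ℝ) : HasDerivAt (fun y => EE t y) (-(y / (2 * t)) * EE t y) y := by
  unfold EE
  have h1 : HasDerivAt (fun y : ℝ => -t - y ^ 2 / (4 * t)) (-(y / (2 * t))) y := by
    have := (((hasDerivAt_id y).pow 2).div_const (4 * t)).const_sub (-t)
    refine this.congr_deriv ?_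
    simp only [id_eq, Nat.cast_ofNat]
    field_simp
    ring
  exact h1.exp.congr_deriv (by ring)

lemma dEE_t (y : ℝ) {t : ℝ} (ht : 0 < t) : HasDerivAt (fun t => EE t y) ((-1 + y ^ 2 / (4 * t ^ 2)) * EE t y) t := by
  unfold EE
  have h1 : HasDerivAt (fun t : ℝ => -t - y ^ 2 / (4 * t)) (-1 + y ^ 2 / (4 * t ^ 2)) t := by
    have h2 : HasDerivAt (fun t : ℝ => 4 * t) 4 t := by simpa using (hasDerivAt_id t).const_mul 4
    have := ((hasDerivAt_id t).neg).sub ((hasDerivAt_const t (y ^ 2)).div h2 (by positivity))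
    refine this.congr_deriv ?_
    field_simp
    ring
  exact h1.exp.congr_deriv (by ring)

/-- derivative in `y` -/
lemma dJJ (r : ℂ) {y : ℝ} (hy : 0 < y) : HasDerivAt (JJ r) (-(y / 2) * JJ (r - 1) y) y := by
  have hpos : ∀ s ∈ Metric.closedBall y (y / 2), y / 2 ≤ s ∧ s ≤ 2 * y := by
    intro s hs
    rw [Metric.mem_closedBall, Real.dist_eq, abs_le] at hs
    constructor <;> linarith [hs.1, hs.2]
  have key := (hasDerivAt_integral_of_dominated_loc_of_deriv_le (𝕜 := ℝ) (μ := volume.restrict (Ioi 0))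
    (F := fun s (t : ℝ) => (t : ℂ) ^ r * (EE t s : ℂ))
    (F' := fun s (t : ℝ) => -((s : ℂ) / 2) * ((t : ℂ) ^ (r - 1) * (EE t s : ℂ)))
    (s := Metric.closedBall y (y / 2))
    (bound := fun t => y * (t ^ (r - 1).re * Real.exp (-(1 * t) - ((y / 2) ^ 2 / 4) / t)))
    (Metric.closedBall_mem_nhds y (by positivity)) ?_ ?_ ?_ ?_ ?_ ?_).2
  · unfold JJ
    refine key.congr_deriv ?_
    rw [integral_const_mul]
  · exact Eventually.of_forall fun s => meas_integrand r s
  · exact int_integrand r hy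
  · exact (meas_integrand (r - 1) y).const_mul _
  · filter_upwards [ae_restrict_mem measurableSet_Ioi] with t ht s hs
    have ht' : 0 < t := ht
    obtain ⟨h1, h2⟩ := hpos s hs
    rw [norm_mul, norm_integrand _ ht', norm_neg, norm_div, Complex.norm_real, Real.norm_of_nonneg (by linarith)]
    simp only [Complex.norm_ofNat]
    refine mul_le_mul (by linarith) ?_ (by have := Real.exp_pos (-t - s ^ 2 / (4 * t)); unfold EE; positivity) hy.le
    exact mul_le_mul_of_nonneg_left (EE_le ht' (by positivity) h1) (by positivity)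
  · exact (integ _ (by positivity) one_pos).const_mul _
  · filter_upwards [ae_restrict_mem measurableSet_Ioi] with t ht s _
    have ht' : 0 < t := ht
    have htc : (t : ℂ) ≠ 0 := by exact_mod_cast ht'.ne'
    have h1 := ((dEE_y ht' s).ofReal_comp).const_mul ((t : ℂ) ^ r)
    refine h1.congr_deriv ?_
    rw [Complex.cpow_sub _ _ htc, Complex.cpow_one]
    push_cast
    field_simp

/-- integration by parts -/
lemma ibpJJ (r : ℂ) {y : ℝ} (hy : 0 < y) :
    (r + 1) * JJ r y - JJ (r + 1) y + (y ^ 2 / 4) * JJ (r - 1) y = 0 := by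
  have hint1 := int_integrand r hy
  have hint2 := int_integrand (r + 1) hy
  have hint3 := int_integrand (r - 1) hy
  have hfun : ∀ t ∈ Ioi (0 : ℝ), (r + 1) * (t : ℂ) ^ r * (EE t y : ℂ) +
      (t : ℂ) ^ (r + 1) * (((-1 + y ^ 2 / (4 * t ^ 2)) * EE t y : ℝ) : ℂ) =
      (r + 1) * ((t : ℂ) ^ r * (EE t y : ℂ)) - (t : ℂ) ^ (r + 1) * (EE t y : ℂ) +
        (y ^ 2 / 4) * ((t : ℂ) ^ (r - 1) * (EE t y : ℂ)) := by
    intro t ht
    have htc : (t : ℂ) ≠ 0 := by exact_mod_cast (ne_of_gt ht)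
    rw [Complex.cpow_sub _ _ htc, Complex.cpow_add _ _ htc, Complex.cpow_one]
    push_cast
    field_simp
    ring
  have key := integral_Ioi_deriv_mul_eq_sub (a := (0 : ℝ)) (u := fun t : ℝ => (t : ℂ) ^ (r + 1))
    (v := fun t : ℝ => (EE t y : ℂ)) (u' := fun t : ℝ => (r + 1) * (t : ℂ) ^ r)
    (v' := fun t : ℝ => (((-1 + y ^ 2 / (4 * t ^ 2)) * EE t y : ℝ) : ℂ)) (a' := 0) (b' := 0) ?_ ?_ ?_ ?_ ?_
  · rw [setIntegral_congr_fun measurableSet_Ioi hfun, integral_add, integral_sub, integral_const_mul,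
      integral_const_mul, sub_self] at key
    · exact key
    · exact hint1.const_mul _
    · exact hint2
    · exact (hint1.const_mul _).sub hint2
    · exact hint3.const_mul _
  · intro t ht
    have ht' : 0 < t := ht
    by_cases hr : r + 1 = 0
    · rw [hr, zero_mul]
      simp only [Complex.cpow_zero]
      exact hasDerivAt_const _ _
    · have := hasDerivAt_ofReal_cpow_const (x := t) ht'.ne' (r := r + 1) hr
      refine this.congr_deriv ?_
      rw [add_sub_cancel_right]
  · intro t ht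
    exact (dEE_t y ht).ofReal_comp
  · refine IntegrableOn.congr_fun (f := fun t : ℝ => (r + 1) * ((t : ℂ) ^ r * (EE t y : ℂ)) - (t : ℂ) ^ (r + 1) * (EE t y : ℂ) +
        (y ^ 2 / 4) * ((t : ℂ) ^ (r - 1) * (EE t y : ℂ))) ?_ ?_ measurableSet_Ioi
    · exact ((hint1.const_mul _).sub hint2).add (hint3.const_mul _)
    · intro t ht
      exact (hfun t ht).symm
  · -- limit at zero
    rw [tendsto_zero_iff_norm_tendsto_zero]
    obtain ⟨k, hk⟩ := exists_nat_gt (-(r + 1).re)
    have hpos : 0 < (r + 1).re + k := by linarith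
    have h1 : Tendsto (fun t : ℝ => (k.factorial / (y ^ 2 / 4) ^ k) * t ^ ((r + 1).re + k)) (𝓝[>] 0) (𝓝 0) := by
      have h2 : Tendsto (fun t : ℝ => t ^ ((r + 1).re + k)) (𝓝[>] 0) (𝓝 0) := by
        have := (Real.continuousAt_rpow_const 0 ((r + 1).re + k) (Or.inr hpos.le)).tendsto
        rw [Real.zero_rpow hpos.ne'] at this
        exact this.mono_left nhdsWithin_le_nhds
      simpa using h2.const_mul _
    refine squeeze_zero' (Eventually.of_forall fun t => norm_nonneg _) ?_ h1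
    filter_upwards [self_mem_nhdsWithin] with t ht
    have ht' : 0 < t := ht
    simp only [Pi.mul_apply]
    rw [norm_integrand _ ht', Real.rpow_add ht', Real.rpow_natCast]
    have h3 : EE t y ≤ (k.factorial / (y ^ 2 / 4) ^ k) * t ^ k := by
      refine le_trans ?_ (exp_inv_le ht' (show 0 < y ^ 2 / 4 by positivity) k)
      unfold EE
      apply Real.exp_le_exp.2
      rw [div_div]
      linarith
    calc t ^ (r + 1).re * EE t y ≤ t ^ (r + 1).re * ((k.factorial / (y ^ 2 / 4) ^ k) * t ^ k) := by gcongr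
      _ = _ := by ring
  · -- limit at infinity
    rw [tendsto_zero_iff_norm_tendsto_zero]
    have h1 := tendsto_rpow_mul_exp_neg_mul_atTop_nhds_zero (r + 1).re 1 one_pos
    refine squeeze_zero' (Eventually.of_forall fun t => norm_nonneg _) ?_ h1
    filter_upwards [eventually_gt_atTop 0] with t ht
    simp only [Pi.mul_apply]
    rw [norm_integrand _ ht]
    refine mul_le_mul_of_nonneg_left ?_ (by positivity)
    unfold EE
    apply Real.exp_le_exp.2
    have : 0 ≤ y ^ 2 / (4 * t) := by positivity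
    linarith

/-- exponential decay -/
lemma JJ_decay (r : ℂ) : ∃ C, 0 ≤ C ∧ ∀ y : ℝ, 1 ≤ y → ‖JJ r y‖ ≤ C * Real.exp (-(y / 2)) := by
  have hi := integ r.re (c := 1 / 8) (b := 1 / 2) (by norm_num) (by norm_num)
  refine ⟨∫ t in Ioi (0 : ℝ), t ^ r.re * Real.exp (-((1 / 2) * t) - (1 / 8) / t), ?_, fun y hy => ?_⟩
  · refine setIntegral_nonneg measurableSet_Ioi fun t ht => ?_
    have ht' : 0 < t := ht
    positivity
  · unfold JJ
    rw [mul_comm, ← integral_const_mul]
    refine norm_integral_le_of_norm_le (hi.const_mul _) ?_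
    filter_upwards [ae_restrict_mem measurableSet_Ioi] with t ht
    have ht' : 0 < t := ht
    rw [norm_integrand _ ht']
    calc t ^ r.re * EE t y ≤ t ^ r.re * (Real.exp (-(y / 2)) * Real.exp (-((1 / 2) * t) - (1 / 8) / t)) := by
          gcongr; exact EE_decay ht' hy
      _ = _ := by ring

end

end Pool.Agent.X291.MF
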