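import Pool.Agent.X291.MF.Ker

/-!
# The kernel on odd functions is bounded
-/

set_option autoImplicit false

open UpperHalfPlane MeasureTheory Set Filter Topology Function
open scoped MatrixGroups Modular

namespace Pool.Agent.X291.MF

noncomputable section

lemma half_sum {g : ℝ → ℝ} {M : ℕ} (anti : AntitoneOn g (Ici 0)) (h0 : ∀ t, 0 ≤ g t)
    {s t : ℝ} (hs : 0 ≤ s) (hst : s ≤ t) (ht : t ≤ s + 1) :
    0 ≤ ∑ m ∈ Finset.range M, g (s + m) - ∑ m ∈ Finset.range M, g (t + m) ∧
    ∑ m ∈ Finset.range M, g (s + m) - ∑ m ∈ Finset.range M, g (t + m) ≤ g 0 := by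
  constructor
  · rw [← Finset.sum_sub_distrib]
    refine Finset.sum_nonneg fun m _ => ?_
    rw [sub_nonneg]
    refine anti ?_ ?_ (by linarith)
    · simp only [mem_Ici]; positivity
    · simp only [mem_Ici]; have : (0 : ℝ) ≤ m := m.cast_nonneg; linarith
  · have h1 : ∑ m ∈ Finset.range M, g (s + m) - ∑ m ∈ Finset.range M, g (t + m)
        ≤ ∑ m ∈ Finset.range M, (g (s + m) - g (s + (m + 1 : ℕ))) := by
      rw [← Finset.sum_sub_distrib]
      refine Finset.sum_le_sum fun m _ => ?_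
      have hm : (0 : ℝ) ≤ m := m.cast_nonneg
      have : g (s + (m + 1 : ℕ)) ≤ g (t + m) := by
        refine anti ?_ ?_ ?_
        · simp only [mem_Ici]; linarith
        · simp only [mem_Ici]; positivity
        · push_cast; linarith
      linarith
    rw [Finset.sum_range_sub' (fun m : ℕ => g (s + m))] at h1
    have h2 : g (s + (0 : ℕ)) ≤ g 0 := by
      refine anti ?_ ?_ ?_ <;> simp [hs]
    have h3 := h0 (s + M)
    linarith

lemma tsum_split {g : ℝ → ℝ} {M : ℕ} (hev : ∀ t, g (-t) = g t) (hM : ∀ t, (M : ℝ) ≤ t → g t = 0)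
    {s : ℝ} (hs : 0 ≤ s) (hs1 : s ≤ 1) :
    ∑' n : ℤ, g (s + n) = ∑ m ∈ Finset.range M, g (s + m) + ∑ m ∈ Finset.range M, g ((1 - s) + m) := by
  have h1 : ∀ m : ℕ, m ∉ Finset.range M → g (s + (m : ℤ)) = 0 := by
    intro m hm
    rw [Finset.mem_range, not_lt] at hm
    apply hM
    have : (M : ℝ) ≤ m := by exact_mod_cast hm
    push_cast
    linarith
  have h2 : ∀ m : ℕ, m ∉ Finset.range M → g (s + ((-(m + 1 : ℤ) : ℤ) : ℝ)) = 0 := by
    intro m hm
    rw [Finset.mem_range, not_lt] at hm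
    rw [← hev]
    apply hM
    have : (M : ℝ) ≤ m := by exact_mod_cast hm
    push_cast
    linarith
  rw [tsum_of_nat_of_neg_add_one (f := fun n : ℤ => g (s + n)) (summable_of_ne_finset_zero h1)
    (summable_of_ne_finset_zero h2)]
  rw [tsum_eq_sum h1, tsum_eq_sum h2]
  congr 1
  refine Finset.sum_congr rfl fun m _ => ?_
  rw [← hev]
  congr 1
  push_cast
  ring

lemma tsum_shift {g : ℝ → ℝ} (s : ℝ) : ∑' n : ℤ, g (s + n) = ∑' n : ℤ, g (Int.fract s + n) := by
  rw [← (Equiv.addRight (-⌊s⌋)).tsum_eq]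
  refine tsum_congr fun n => ?_
  congr 1
  simp only [Equiv.coe_addRight]
  push_cast
  rw [Int.fract]
  ring

lemma per_bound {g : ℝ → ℝ} {M : ℕ} (hev : ∀ t, g (-t) = g t) (anti : AntitoneOn g (Ici 0))
    (h0 : ∀ t, 0 ≤ g t) (hM : ∀ t, (M : ℝ) ≤ t → g t = 0) (s t : ℝ) :
    |∑' n : ℤ, g (s + n) - ∑' n : ℤ, g (t + n)| ≤ g 0 := by
  have key : ∀ s t : ℝ, 0 ≤ s → s ≤ t → t ≤ 1 → |∑' n : ℤ, g (s + n) - ∑' n : ℤ, g (t + n)| ≤ g 0 := by
    intro s t hs hst ht
    rw [tsum_split hev hM hs (by linarith), tsum_split hev hM (by linarith) ht]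
    have h1 := half_sum (M := M) anti h0 hs hst (by linarith)
    have h2 := half_sum (M := M) anti h0 (s := 1 - t) (t := 1 - s) (by linarith) (by linarith) (by linarith)
    rw [abs_le]
    constructor <;> linarith [h1.1, h1.2, h2.1, h2.2]
  rw [tsum_shift s, tsum_shift t]
  rcases le_total (Int.fract s) (Int.fract t) with h | h
  · exact key _ _ (Int.fract_nonneg s) h (Int.fract_lt_one t).le
  · rw [abs_sub_comm]
    exact key _ _ (Int.fract_nonneg t) h (Int.fract_lt_one s).le

/-- the matrices with `c = 0` -/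
def par (p : ℤˣ × ℤ) : SL(2, ℤ) := ⟨!![(p.1 : ℤ), p.1 * p.2; 0, p.1], by
  rw [Matrix.det_fin_two_of]
  rcases Int.units_eq_one_or p.1 with h | h <;> simp [h]⟩

lemma par_inj : Function.Injective par := by
  rintro ⟨u, n⟩ ⟨v, m⟩ h
  have h1 := congrArg (fun g : SL(2, ℤ) => g 0 0) h
  have h2 := congrArg (fun g : SL(2, ℤ) => g 0 1) h
  simp only [par, Matrix.SpecialLinearGroup.coe_mk, Matrix.of_apply, Matrix.cons_val', Matrix.cons_val_zero,
    Matrix.cons_val_one, Matrix.cons_val_fin_one] at h1 h2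
  have h3 : u = v := Units.ext h1
  subst h3
  rw [mul_right_inj' u.ne_zero] at h2
  rw [h2]

lemma par_surj (γ : SL(2, ℤ)) (hc : γ 1 0 = 0) : ∃ p, par p = γ := by
  have hd := γ.det_coe
  rw [Matrix.det_fin_two, hc, mul_zero, sub_zero] at hd
  obtain ⟨u, hu⟩ : ∃ u : ℤˣ, (u : ℤ) = γ 0 0 := ⟨⟨γ 0 0, γ 1 1, hd, by rw [mul_comm]; exact hd⟩, rfl⟩
  have h11 : γ 1 1 = γ 0 0 := by
    rcases Int.units_eq_one_or u with h | h
    · rw [← hu, h] at hd ⊢; simpa using hd
    · rw [← hu, h] at hd ⊢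
      have : -(γ 1 1) = 1 := by simpa using hd
      simp only [Units.val_neg, Units.val_one]; linarith
  refine ⟨(u, γ 0 0 * γ 0 1), ?_⟩
  have huu : (u : ℤ) * u = 1 := by
    rcases Int.units_eq_one_or u with h | h <;> simp [h]
  ext i j
  fin_cases i <;> fin_cases j
  · simp [par, hu]
  · simp only [par, Matrix.SpecialLinearGroup.coe_mk, Matrix.of_apply, Matrix.cons_val', Matrix.cons_val_zero,
      Matrix.cons_val_one, Matrix.cons_val_fin_one, Fin.zero_eta, Fin.mk_one, Fin.isValue]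
    rw [← hu, ← mul_assoc, huu, one_mul]
  · simp [par, hc]
  · simp [par, hu, h11]

lemma par_smul (p : ℤˣ × ℤ) (w : ℍ) : par p • w = (p.2 : ℝ) +ᵥ w := by
  apply UpperHalfPlane.ext
  rw [UpperHalfPlane.coe_specialLinearGroup_apply, coe_vadd]
  simp only [par, Matrix.SpecialLinearGroup.coe_mk, Matrix.of_apply, Matrix.cons_val', Matrix.cons_val_zero,
    Matrix.cons_val_one, Matrix.cons_val_fin_one, algebraMap_int_eq, eq_intCast]
  rcases Int.units_eq_one_or p.1 with h | h
  · simp [h]; ring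
  · simp [h]; ring

/-- admissible profiles for the bound of the kernel -/
structure Prof (φ : ℝ → ℝ) (R : ℝ) : Prop where
  nonneg : ∀ t, 0 ≤ φ t
  anti : AntitoneOn φ (Ici 0)
  supp : ∀ t, R < t → φ t = 0

variable {φ : ℝ → ℝ} {R : ℝ}

lemma D_vadd (z w : ℍ) (a : ℝ) :
    D z (a +ᵥ w) = (((w.re - z.re) + a) ^ 2 + (z.im - w.im) ^ 2) / (z.im * w.im) := by
  unfold D
  rw [vadd_im, ← Complex.normSq_eq_norm_sq, Complex.normSq_apply]
  simp only [Complex.sub_re, Complex.sub_im, coe_re, coe_im, vadd_re, vadd_im]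
  congr 1
  ring

lemma J_re (w : ℍ) : (J • w).re = -w.re := by
  have := congrArg Complex.re (coe_J_smul w)
  simpa using this

lemma J_im (w : ℍ) : (J • w).im = w.im := by
  have := congrArg Complex.im (coe_J_smul w)
  simpa using this

lemma c0_bound (hφ : Prof φ R) (z w : ℍ) :
    |∑' n : ℤ, (φ (D z ((n : ℝ) +ᵥ w)) - φ (D z ((n : ℝ) +ᵥ J • w)))| ≤ φ 0 := by
  have hz := z.im_pos
  have hw := w.im_pos
  set g : ℝ → ℝ := fun t => φ ((t ^ 2 + (z.im - w.im) ^ 2) / (z.im * w.im)) with hg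
  have hev : ∀ t, g (-t) = g t := by intro t; simp [hg]
  have hanti : AntitoneOn g (Ici 0) := by
    intro a ha b hb hab
    simp only [mem_Ici] at ha hb
    refine hφ.anti ?_ ?_ ?_
    · simp only [mem_Ici]; positivity
    · simp only [mem_Ici]; positivity
    · gcongr
  have h0 : ∀ t, 0 ≤ g t := fun t => hφ.nonneg _
  obtain ⟨M, hM⟩ := exists_nat_gt (|R| * (z.im * w.im) + 1)
  have hMg : ∀ t, (M : ℝ) ≤ t → g t = 0 := by
    intro t ht
    apply hφ.supp
    have h1 : 1 ≤ t := by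
      have : 0 ≤ |R| * (z.im * w.im) := by positivity
      linarith
    have h2 : |R| * (z.im * w.im) < t ^ 2 := by nlinarith [mul_nonneg (abs_nonneg R) (mul_pos hz hw).le]
    rw [lt_div_iff₀ (by positivity)]
    have h3 : R * (z.im * w.im) ≤ |R| * (z.im * w.im) := by gcongr; exact le_abs_self R
    nlinarith [sq_nonneg (z.im - w.im)]
  have e1 : ∀ n : ℤ, φ (D z ((n : ℝ) +ᵥ w)) = g ((w.re - z.re) + n) := by
    intro n; rw [D_vadd]
  have e2 : ∀ n : ℤ, φ (D z ((n : ℝ) +ᵥ J • w)) = g ((-w.re - z.re) + n) := by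
    intro n; rw [D_vadd, J_im, J_re]
  simp only [e1, e2]
  have hsum : ∀ s : ℝ, Summable fun n : ℤ => g (s + n) := by
    intro s
    refine summable_of_hasFiniteSupport ?_
    refine (Set.finite_Icc (-(M : ℤ) - ⌈|s|⌉ - 1) ((M : ℤ) + ⌈|s|⌉ + 1)).subset ?_
    intro n hn
    by_contra hcon
    rw [mem_Icc, not_and_or, not_le, not_le] at hcon
    apply hn
    have hc := Int.le_ceil |s|
    rcases hcon with h | h
    · simp only
      rw [← hev]
      apply hMg
      have h' : (n : ℝ) < -(M : ℝ) - ⌈|s|⌉ - 1 := by exact_mod_cast h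
      have := le_abs_self s
      linarith
    · apply hMg
      have h' : (M : ℝ) + ⌈|s|⌉ + 1 < (n : ℝ) := by exact_mod_cast h
      have := neg_abs_le s
      linarith
  rw [(hsum _).tsum_sub (hsum _)]
  refine (per_bound hev hanti h0 hMg _ _).trans ?_
  refine hφ.anti (by simp) ?_ ?_
  · simp only [mem_Ici]; positivity
  · positivity

lemma mem_fd_im {z : ℍ} (h : z ∈ 𝒟) : 1 / 2 ≤ z.im := by
  have h1 := ModularGroup.three_le_four_mul_im_sq_of_mem_fd h
  have := z.im_pos
  nlinarith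

lemma J_mem_fd {z : ℍ} (h : z ∈ 𝒟) : J • z ∈ 𝒟 := by
  rw [ModularGroup.fd] at h ⊢
  simp only [mem_ofPred_eq] at h ⊢
  rw [coe_J_smul, J_re, abs_neg, Complex.normSq_neg, Complex.normSq_conj]
  exact h

lemma im_smul_le {γ : SL(2, ℤ)} (hc : γ 1 0 ≠ 0) (w : ℍ) : (γ • w).im * w.im ≤ 1 := by
  have hw := w.im_pos
  rw [ModularGroup.im_smul_eq_div_normSq]
  have h1 : (1 : ℝ) ≤ (γ 1 0 : ℝ) ^ 2 := by
    have : 1 ≤ (γ 1 0) ^ 2 := by
      have := Int.one_le_abs hc
      nlinarith [sq_abs (γ 1 0)]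
    exact_mod_cast this
  have h2 : w.im ^ 2 ≤ Complex.normSq (denom (γ : GL (Fin 2) ℝ) w) := by
    have h3 := UpperHalfPlane.c_mul_im_sq_le_normSq_denom (γ : GL (Fin 2) ℝ) w
    have h4 : ((γ : GL (Fin 2) ℝ) 1 0 : ℝ) = (γ 1 0 : ℝ) := rfl
    rw [h4] at h3
    nlinarith [sq_nonneg w.im]
  have h5 : 0 < w.im ^ 2 := by positivity
  rw [div_mul_eq_mul_div, div_le_one (by linarith)]
  nlinarith

/-- **the kernel is bounded** -/
theorem K_bound (hφ : Prof φ R) (hR : 0 ≤ R) : ∃ C : ℝ, ∀ z ∈ 𝒟, ∀ w ∈ 𝒟, |K φ z w| ≤ C := by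
  classical
  set K1 : Set ℍ := ModularGroup.truncatedFundamentalDomain (2 * (R + 2)) with hK1
  have hK1c : IsCompact K1 := ModularGroup.isCompact_truncatedFundamentalDomain _
  have hfin := finite_close hK1c hK1c R
  set S : Finset SL(2, ℤ) := hfin.toFinset with hS
  refine ⟨2 * φ 0 + S.card * φ 0, fun z hz w hw => ?_⟩
  have h00 : 0 ≤ φ 0 := hφ.nonneg 0
  have hle0 : ∀ u v : ℍ, φ (D u v) ≤ φ 0 := fun u v =>
    hφ.anti (by simp) (D_nonneg u v) (D_nonneg u v)
  set F : SL(2, ℤ) → ℝ := fun γ => φ (D z (γ • w)) - φ (D z (γ • J • w)) with hF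
  have hFb : ∀ γ, |F γ| ≤ φ 0 := by
    intro γ
    have h1 := hle0 z (γ • w)
    have h2 := hle0 z (γ • J • w)
    have h3 := hφ.nonneg (D z (γ • w))
    have h4 := hφ.nonneg (D z (γ • J • w))
    rw [abs_le]
    constructor <;> simp only [hF] <;> linarith
  have hFfin : (support F).Finite := finSupp hφ.supp z w
  have hKF : K φ z w = ∑' γ, F γ := by
    unfold K
    rw [tsum_eq_finsum hFfin]
  set F0 : SL(2, ℤ) → ℝ := fun γ => if γ 1 0 = 0 then F γ else 0 with hF0
  set F1 : SL(2, ℤ) → ℝ := fun γ => if γ 1 0 = 0 then 0 else F γ with hF1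
  have hs0 : Summable F0 := summable_of_hasFiniteSupport (hFfin.subset (by
    intro γ hγ; simp only [hF0, mem_support, ne_eq, ite_eq_right_iff, Classical.not_imp] at hγ; exact hγ.2))
  have hs1 : Summable F1 := summable_of_hasFiniteSupport (hFfin.subset (by
    intro γ hγ; simp only [hF1, mem_support, ne_eq, ite_eq_left_iff, Classical.not_imp] at hγ; exact hγ.2))
  have hsplit : ∑' γ, F γ = ∑' γ, F0 γ + ∑' γ, F1 γ := by
    rw [← hs0.tsum_add hs1]
    refine tsum_congr fun γ => ?_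
    simp only [hF0, hF1]
    split_ifs <;> simp
  -- the part with `c ≠ 0`
  have hb1 : |∑' γ, F1 γ| ≤ S.card * φ 0 := by
    have hsub : ∀ γ ∉ S, F1 γ = 0 := by
      intro γ hγ
      simp only [hF1]
      split_ifs with hc
      · rfl
      · rw [hS, Set.Finite.mem_toFinset, mem_ofPred_eq] at hγ
        push Not at hγ
        have key : ∀ v ∈ 𝒟, φ (D z (γ • v)) = 0 := by
          intro v hv
          by_contra hne
          have hD : D z (γ • v) ≤ R := by
            by_contra hlt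
            push Not at hlt
            exact hne (hφ.supp _ hlt)
          have h1 := im_ratio_le z (γ • v)
          have h2 := im_smul_le hc v
          have hzp := z.im_pos
          have hvp := v.im_pos
          have hgp := (γ • v).im_pos
          have hz2 := mem_fd_im hz
          have hv2 := mem_fd_im hv
          rw [div_le_iff₀ hgp] at h1
          have h3 : z.im * v.im ≤ R + 2 := by
            calc z.im * v.im ≤ ((D z (γ • v) + 2) * (γ • v).im) * v.im := by gcongr
              _ = (D z (γ • v) + 2) * ((γ • v).im * v.im) := by ring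
              _ ≤ (D z (γ • v) + 2) * 1 := by
                  have := D_nonneg z (γ • v)
                  gcongr
              _ ≤ R + 2 := by linarith
          have hz3 : z ∈ K1 := ⟨hz, by nlinarith⟩
          have hv3 : v ∈ K1 := ⟨hv, by nlinarith⟩
          exact absurd hD (not_le.2 (hγ z hz3 v hv3))
        simp only [hF]
        rw [key w hw, key (J • w) (J_mem_fd hw), sub_zero]
    rw [tsum_eq_sum hsub]
    refine (Finset.abs_sum_le_sum_abs _ _).trans ?_
    refine (Finset.sum_le_card_nsmul _ _ (φ 0) ?_).trans ?_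
    · intro γ _
      simp only [hF1]
      split_ifs
      · simpa using h00
      · exact hFb γ
    · rw [nsmul_eq_mul]
  -- the part with `c = 0`
  have hb0 : |∑' γ, F0 γ| ≤ 2 * φ 0 := by
    have hsupp : support F0 ⊆ range par := by
      intro γ hγ
      simp only [hF0, mem_support, ne_eq, ite_eq_right_iff, Classical.not_imp] at hγ
      obtain ⟨p, hp⟩ := par_surj γ hγ.1
      exact ⟨p, hp⟩
    rw [← par_inj.tsum_eq hsupp]
    have h1 : ∀ p : ℤˣ × ℤ, F0 (par p) = φ (D z ((p.2 : ℝ) +ᵥ w)) - φ (D z ((p.2 : ℝ) +ᵥ J • w)) := by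
      intro p
      have : par p 1 0 = 0 := by simp [par]
      simp only [hF0, this, if_true, hF, par_smul]
    have hs2 : Summable fun p : ℤˣ × ℤ => F0 (par p) := by
      refine summable_of_hasFiniteSupport ?_
      have := hFfin.preimage (par_inj.injOn (s := par ⁻¹' (support F)))
      refine this.subset ?_
      intro p hp
      simp only [mem_support, hF0] at hp
      simp only [mem_preimage, mem_support]
      intro h0
      apply hp
      rw [h0]; simp
    rw [hs2.tsum_prod, tsum_fintype]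
    simp only [h1]
    rw [Finset.sum_const, nsmul_eq_mul]
    have hcard : (Finset.univ : Finset ℤˣ).card = 2 := by decide
    rw [hcard, abs_mul]
    have h2 := c0_bound hφ z w
    simpa using h2
  rw [hKF, hsplit]
  exact (abs_add_le _ _).trans (add_le_add hb0 hb1)

end

end Pool.Agent.X291.MF
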