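import Mathlib

/-!
# Proportionality of bounded solutions of a second order linear ODE
-/

set_option autoImplicit false

open Set Filter Topology
open scoped NNReal

namespace Pool.Agent.X291.MF

noncomputable section

theorem ode_unique {q : ℝ → ℂ} (hq : ContinuousOn q (Ioi 0)) {c c' w w' : ℝ → ℂ}
    (hc : ∀ y, 0 < y → HasDerivAt c (c' y) y) (hc' : ∀ y, 0 < y → HasDerivAt c' (q y * c y) y)
    (hw : ∀ y, 0 < y → HasDerivAt w (w' y) y) (hw' : ∀ y, 0 < y → HasDerivAt w' (q y * w y) y)
    {y0 : ℝ} (hy0 : 0 < y0) (h1 : c y0 = w y0) (h2 : c' y0 = w' y0) : ∀ y, 0 < y → c y = w y := by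
  intro y hy
  set a := min y y0 / 2 with ha
  set b := max y y0 + 1 with hb
  have ha0 : 0 < a := by rw [ha]; have := lt_min hy hy0; positivity
  have hsub : Icc a b ⊆ Ioi 0 := fun t ht => lt_of_lt_of_le ha0 ht.1
  obtain ⟨M, hM⟩ := isCompact_Icc.exists_bound_of_continuousOn (hq.mono hsub)
  set K : ℝ≥0 := ⟨max 1 |M|, by positivity⟩ with hK
  have hmem : ∀ t, t ∈ Ioo a b → 0 < t := fun t ht => hsub (Ioo_subset_Icc_self ht)
  have key := ODE_solution_unique_of_mem_Ioo (a := a) (b := b) (K := K) (t₀ := y0)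
    (v := fun t (p : ℂ × ℂ) => (p.2, q t * p.1)) (s := fun _ => univ)
    (f := fun t => (c t, c' t)) (g := fun t => (w t, w' t)) ?_ ?_ ?_ ?_ ?_
  · have hy' : y ∈ Ioo a b := by
      constructor
      · have := min_le_left y y0
        have h3 : 0 < min y y0 := lt_min hy hy0
        rw [ha]; linarith
      · have := le_max_left y y0
        rw [hb]; linarith
    exact congrArg Prod.fst (key hy')
  · intro t ht
    refine LipschitzWith.lipschitzOnWith ?_
    refine LipschitzWith.of_dist_le_mul ?_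
    rintro ⟨p1, p2⟩ ⟨r1, r2⟩
    rw [Prod.dist_eq, Prod.dist_eq]
    simp only
    have hqt : ‖q t‖ ≤ max 1 |M| := (hM t (Ioo_subset_Icc_self ht)).trans ((le_abs_self M).trans (le_max_right _ _))
    have hm0 : 0 ≤ max (dist p1 r1) (dist p2 r2) := le_max_of_le_left dist_nonneg
    refine max_le ?_ ?_
    · calc dist p2 r2 ≤ 1 * max (dist p1 r1) (dist p2 r2) := by rw [one_mul]; exact le_max_right _ _
        _ ≤ max 1 |M| * max (dist p1 r1) (dist p2 r2) := by gcongr; exact le_max_left _ _
    · rw [dist_eq_norm, ← mul_sub, norm_mul, ← dist_eq_norm]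
      calc ‖q t‖ * dist p1 r1 ≤ max 1 |M| * max (dist p1 r1) (dist p2 r2) := by
            gcongr
            exact le_max_left _ _
        _ = _ := rfl
  · constructor
    · have := min_le_right y y0
      have h3 : 0 < min y y0 := lt_min hy hy0
      rw [ha]; linarith
    · have := le_max_right y y0
      rw [hb]; linarith
  · intro t ht
    exact ⟨(hc t (hmem t ht)).prodMk (hc' t (hmem t ht)), mem_univ _⟩
  · intro t ht
    exact ⟨(hw t (hmem t ht)).prodMk (hw' t (hmem t ht)), mem_univ _⟩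
  · simp only [h1, h2]

theorem ode_prop {q : ℝ → ℂ} (hq : ContinuousOn q (Ioi 0)) {c c' w w' : ℝ → ℂ}
    (hc : ∀ y, 0 < y → HasDerivAt c (c' y) y) (hc' : ∀ y, 0 < y → HasDerivAt c' (q y * c y) y)
    (hw : ∀ y, 0 < y → HasDerivAt w (w' y) y) (hw' : ∀ y, 0 < y → HasDerivAt w' (q y * w y) y)
    {M Q : ℝ} (hM : ∀ y, 1 ≤ y → ‖c y‖ ≤ M) (hQ : ∀ y, 1 ≤ y → ‖q y‖ ≤ Q)
    (hlim : Tendsto w atTop (𝓝 0)) (hlim' : Tendsto w' atTop (𝓝 0)) (hne : ∃ y, 0 < y ∧ w y ≠ 0) :
    ∃ A : ℂ, ∀ y, 0 < y → c y = A * w y := by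
  have hM0 : 0 ≤ M := (norm_nonneg _).trans (hM 1 le_rfl)
  have hQ0 : 0 ≤ Q := (norm_nonneg _).trans (hQ 1 le_rfl)
  -- bound of the derivative
  have hb : ∀ y, 1 ≤ y → ‖c' y‖ ≤ 2 * M + Q * M := by
    intro y hy
    have hpos : ∀ t ∈ Icc y (y + 1), 0 < t := fun t ht => by linarith [ht.1]
    have h1 : ∀ t ∈ Icc y (y + 1), ‖c' t - c' y‖ ≤ Q * M := by
      intro t ht
      have := (convex_Icc y (y + 1)).norm_image_sub_le_of_norm_hasDerivWithin_le (f := c')
        (f' := fun t => q t * c t) (C := Q * M)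
        (fun s hs => (hc' s (hpos s hs)).hasDerivWithinAt) (fun s hs => by
          rw [norm_mul]
          exact mul_le_mul (hQ s (hy.trans hs.1)) (hM s (hy.trans hs.1)) (norm_nonneg _) hQ0)
        (left_mem_Icc.2 (by linarith)) ht
      refine this.trans ?_
      have h2 : ‖t - y‖ ≤ 1 := by
        rw [Real.norm_eq_abs, abs_le]; constructor <;> linarith [ht.1, ht.2]
      calc Q * M * ‖t - y‖ ≤ Q * M * 1 := by gcongr
        _ = Q * M := mul_one _
    have h2 := (convex_Icc y (y + 1)).norm_image_sub_le_of_norm_hasDerivWithin_le (f := fun t => c t - (t : ℂ) * c' y)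
        (f' := fun t => c' t - 1 * c' y) (C := Q * M)
        (fun s hs => ((hc s (hpos s hs)).sub ((Complex.ofRealCLM.hasDerivAt (x := s)).mul_const (c' y))).hasDerivWithinAt)
        (fun s hs => by rw [one_mul]; exact h1 s hs)
        (left_mem_Icc.2 (by linarith)) (right_mem_Icc.2 (by linarith))
    have h3 : ‖(y + 1) - y‖ = 1 := by simp
    rw [h3, mul_one] at h2
    have h4 : c' y = (c (y + 1) - c y) - ((c (y + 1) - ((y + 1 : ℝ) : ℂ) * c' y) - (c y - (y : ℂ) * c' y)) := by
      push_cast; ring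
    rw [h4]
    refine (norm_sub_le _ _).trans (add_le_add ?_ h2)
    refine (norm_sub_le _ _).trans ?_
    linarith [hM (y + 1) (by linarith), hM y hy]
  -- the Wronskian
  have hWd : ∀ y, 0 < y → HasDerivAt (fun y => c y * w' y - c' y * w y) 0 y := by
    intro y hy
    have := ((hc y hy).mul (hw' y hy)).sub ((hc' y hy).mul (hw y hy))
    refine this.congr_deriv ?_
    ring
  have hWc : ∀ y z, 0 < y → 0 < z → c y * w' y - c' y * w y = c z * w' z - c' z * w z := by
    intro y z hy hz
    have := (convex_Ioi (0 : ℝ)).norm_image_sub_le_of_norm_hasDerivWithin_le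
      (f := fun y => c y * w' y - c' y * w y) (f' := fun _ => 0) (C := 0)
      (fun s hs => (hWd s hs).hasDerivWithinAt) (fun s _ => by simp) (show z ∈ Ioi 0 from hz) (show y ∈ Ioi 0 from hy)
    rw [zero_mul, norm_le_zero_iff, sub_eq_zero] at this
    exact this
  have hlimW : Tendsto (fun y => c y * w' y - c' y * w y) atTop (𝓝 0) := by
    have h1 : Tendsto (fun y => c y * w' y) atTop (𝓝 0) := by
      rw [tendsto_zero_iff_norm_tendsto_zero]
      have h2 : Tendsto (fun y => M * ‖w' y‖) atTop (𝓝 0) := by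
        simpa using (tendsto_zero_iff_norm_tendsto_zero.1 hlim').const_mul M
      refine squeeze_zero' (Eventually.of_forall fun y => norm_nonneg _) ?_ h2
      filter_upwards [eventually_ge_atTop 1] with y hy
      rw [norm_mul]
      exact mul_le_mul_of_nonneg_right (hM y hy) (norm_nonneg _)
    have h1' : Tendsto (fun y => c' y * w y) atTop (𝓝 0) := by
      rw [tendsto_zero_iff_norm_tendsto_zero]
      have h2 : Tendsto (fun y => (2 * M + Q * M) * ‖w y‖) atTop (𝓝 0) := by
        simpa using (tendsto_zero_iff_norm_tendsto_zero.1 hlim).const_mul (2 * M + Q * M)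
      refine squeeze_zero' (Eventually.of_forall fun y => norm_nonneg _) ?_ h2
      filter_upwards [eventually_ge_atTop 1] with y hy
      rw [norm_mul]
      exact mul_le_mul_of_nonneg_right (hb y hy) (norm_nonneg _)
    simpa using h1.sub h1'
  have hW0 : ∀ y, 0 < y → c y * w' y - c' y * w y = 0 := by
    intro y hy
    have h1 : Tendsto (fun z => c z * w' z - c' z * w z) atTop (𝓝 (c y * w' y - c' y * w y)) := by
      refine tendsto_const_nhds.congr' ?_
      filter_upwards [eventually_gt_atTop 0] with z hz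
      exact hWc y z hy hz
    exact tendsto_nhds_unique h1 hlimW
  obtain ⟨y0, hy0, hwy0⟩ := hne
  refine ⟨c y0 / w y0, ?_⟩
  refine ode_unique hq hc hc' (fun y hy => (hw y hy).const_mul _) (w' := fun y => c y0 / w y0 * w' y) ?_ hy0 ?_ ?_
  · intro y hy
    exact ((hw' y hy).const_mul _).congr_deriv (by ring)
  · field_simp
  · have := hW0 y0 hy0
    rw [div_mul_eq_mul_div, eq_div_iff hwy0]
    linear_combination -this

end

end Pool.Agent.X291.MF
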