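import Pool.Agent.X291.MF.Wh

/-!
# The Mellin transform of the Whittaker function
-/

set_option autoImplicit false

open Set Filter Topology MeasureTheory

namespace Pool.Agent.X291.MF

noncomputable section

lemma exp_conv {b : ℝ} (hb : 0 < b) {s : ℂ} (hs : 0 < s.re) :
    MellinConvergent (fun u : ℝ => ((Real.exp (-(b * u)) : ℝ) : ℂ)) s := by
  have h1 : IntegrableOn (fun u : ℝ => u ^ (s.re - 1) * Real.exp (-b * u ^ (1 : ℝ))) (Ioi 0) :=
    integrableOn_rpow_mul_exp_neg_mul_rpow (by linarith) one_pos hb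
  refine Integrable.mono' h1 ?_ ?_
  · refine ContinuousOn.aestronglyMeasurable ?_ measurableSet_Ioi
    exact (cont_cpow (s - 1)).smul (by fun_prop)
  · filter_upwards [ae_restrict_mem measurableSet_Ioi] with u hu
    have hu' : 0 < u := hu
    rw [norm_smul, Complex.norm_cpow_eq_rpow_re_of_pos hu', Complex.norm_real, Real.norm_of_nonneg (Real.exp_pos _).le,
      Real.rpow_one, Complex.sub_re, Complex.one_re, neg_mul]

lemma exp_mellin {b : ℝ} (hb : 0 < b) {s : ℂ} (hs : 0 < s.re) :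
    mellin (fun u : ℝ => ((Real.exp (-(b * u)) : ℝ) : ℂ)) s = (1 / b : ℂ) ^ s * Complex.Gamma s := by
  rw [mellin, ← Complex.integral_cpow_mul_exp_neg_mul_Ioi hs hb]
  refine setIntegral_congr_fun measurableSet_Ioi fun u _ => ?_
  simp only [smul_eq_mul]
  push_cast
  rfl

/-- the Gaussian -/
lemma gauss_mellin {t : ℝ} (ht : 0 < t) {a : ℂ} (ha : 0 < a.re) :
    MellinConvergent (fun y : ℝ => ((Real.exp (-(y ^ 2 / (4 * t))) : ℝ) : ℂ)) a ∧
    mellin (fun y : ℝ => ((Real.exp (-(y ^ 2 / (4 * t))) : ℝ) : ℂ)) a =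
      (1 / 2) * ((4 * t : ℝ) : ℂ) ^ (a / 2) * Complex.Gamma (a / 2) := by
  have hb : 0 < 1 / (4 * t) := by positivity
  have ha2 : 0 < (a / ((2 : ℝ) : ℂ)).re := by
    rw [Complex.div_ofReal_re]; positivity
  have e1 : (fun y : ℝ => ((Real.exp (-(y ^ 2 / (4 * t))) : ℝ) : ℂ)) =
      fun y : ℝ => (fun u : ℝ => ((Real.exp (-(1 / (4 * t) * u)) : ℝ) : ℂ)) (y ^ (2 : ℝ)) := by
    funext y
    simp only
    rw [Real.rpow_two]
    congr 3
    ring
  constructor
  · rw [e1]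
    exact (MellinConvergent.comp_rpow (by norm_num)).2 (exp_conv hb ha2)
  · rw [e1, mellin_comp_rpow (fun u : ℝ => ((Real.exp (-(1 / (4 * t) * u)) : ℝ) : ℂ)) a 2, exp_mellin hb ha2]
    have h2 : (1 / ((1 / (4 * t) : ℝ) : ℂ)) = ((4 * t : ℝ) : ℂ) := by push_cast; field_simp
    rw [h2, Complex.real_smul]
    push_cast
    rw [abs_of_pos (by norm_num : (0 : ℝ) < 2)]
    push_cast
    ring

lemma gauss_real {t : ℝ} (ht : 0 < t) {σ : ℝ} (hσ : 0 < σ) :
    ∫ y in Ioi (0 : ℝ), y ^ (σ - 1) * Real.exp (-(y ^ 2 / (4 * t))) =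
      (1 / 2) * (4 * t) ^ (σ / 2) * Real.Gamma (σ / 2) := by
  have h1 := (gauss_mellin ht (a := (σ : ℂ)) (by simpa using hσ)).2
  have h2 : ((∫ y in Ioi (0 : ℝ), y ^ (σ - 1) * Real.exp (-(y ^ 2 / (4 * t))) : ℝ) : ℂ) =
      (((1 / 2) * (4 * t) ^ (σ / 2) * Real.Gamma (σ / 2) : ℝ) : ℂ) := by
    rw [← integral_complex_ofReal]
    rw [mellin] at h1
    push_cast
    rw [Complex.ofReal_cpow (by positivity), ← Complex.Gamma_ofReal]
    push_cast at h1 ⊢
    rw [← h1]
    refine setIntegral_congr_fun measurableSet_Ioi fun y hy => ?_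
    have hy' : 0 < y := hy
    simp only [smul_eq_mul]
    rw [Complex.ofReal_cpow hy'.le]
    push_cast
    rfl
  exact_mod_cast h2

/-- the integrand on the quadrant -/
def HH (a ν : ℂ) (y t : ℝ) : ℂ := (y : ℂ) ^ (a - 1) * ((t : ℂ) ^ (-ν - 1) * (EE t y : ℂ))

lemma HH_meas (a ν : ℂ) : AEStronglyMeasurable (Function.uncurry (HH a ν))
    ((volume.restrict (Ioi (0 : ℝ))).prod (volume.restrict (Ioi (0 : ℝ)))) := by
  rw [Measure.prod_restrict]
  refine ContinuousOn.aestronglyMeasurable ?_ (measurableSet_Ioi.prod measurableSet_Ioi)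
  unfold HH
  refine ContinuousOn.mul ?_ (ContinuousOn.mul ?_ ?_)
  · exact (cont_cpow (a - 1)).comp continuousOn_fst (fun p hp => hp.1)
  · exact (cont_cpow (-ν - 1)).comp continuousOn_snd (fun p hp => hp.2)
  · refine Complex.continuous_ofReal.comp_continuousOn ?_
    unfold EE
    refine ContinuousOn.rexp ?_
    refine ContinuousOn.sub (by fun_prop) (ContinuousOn.div (by fun_prop) (by fun_prop) ?_)
    rintro ⟨y, t⟩ ⟨_, ht⟩
    have : (t : ℝ) ≠ 0 := ne_of_gt ht
    simp only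
    positivity

lemma EE_split {t : ℝ} (y : ℝ) : EE t y = Real.exp (-t) * Real.exp (-(y ^ 2 / (4 * t))) := by
  rw [EE, ← Real.exp_add, sub_eq_add_neg]

lemma HH_norm {a ν : ℂ} {y t : ℝ} (hy : 0 < y) (ht : 0 < t) :
    ‖HH a ν y t‖ = t ^ (-ν - 1).re * Real.exp (-t) * (y ^ (a.re - 1) * Real.exp (-(y ^ 2 / (4 * t)))) := by
  unfold HH
  rw [norm_mul, norm_integrand _ ht, Complex.norm_cpow_eq_rpow_re_of_pos hy, EE_split, Complex.sub_re, Complex.one_re]
  ring

lemma HH_int {a ν : ℂ} (ha : 0 < a.re) (hb : 0 < (a / 2 - ν).re) :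
    Integrable (Function.uncurry (HH a ν)) ((volume.restrict (Ioi (0 : ℝ))).prod (volume.restrict (Ioi (0 : ℝ)))) := by
  rw [integrable_prod_iff' (HH_meas a ν)]
  constructor
  · filter_upwards [ae_restrict_mem measurableSet_Ioi] with t ht
    have ht' : 0 < t := ht
    have h1 := ((gauss_mellin ht' ha).1).const_mul ((t : ℂ) ^ (-ν - 1) * (Real.exp (-t) : ℂ))
    refine h1.congr (Eventually.of_forall fun y => ?_)
    simp only [Function.uncurry, HH, smul_eq_mul]
    rw [EE_split]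
    push_cast
    ring
  · have e1 : ∀ t ∈ Ioi (0 : ℝ), ∫ y in Ioi (0 : ℝ), ‖Function.uncurry (HH a ν) (y, t)‖ =
        ((1 / 2) * (4 : ℝ) ^ (a.re / 2) * Real.Gamma (a.re / 2)) * (Real.exp (-t) * t ^ ((a / 2 - ν).re - 1)) := by
      intro t ht
      have ht' : 0 < t := ht
      have h1 : ∫ y in Ioi (0 : ℝ), ‖Function.uncurry (HH a ν) (y, t)‖ =
          ∫ y in Ioi (0 : ℝ), t ^ (-ν - 1).re * Real.exp (-t) * (y ^ (a.re - 1) * Real.exp (-(y ^ 2 / (4 * t)))) :=
        setIntegral_congr_fun measurableSet_Ioi fun y hy => HH_norm hy ht'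
      rw [h1, integral_const_mul, gauss_real ht' ha, Real.mul_rpow (by norm_num) ht'.le]
      have h2 : (a / 2 - ν).re - 1 = (-ν - 1).re + a.re / 2 := by
        rw [Complex.sub_re, Complex.sub_re, Complex.neg_re, Complex.one_re]
        have : (a / 2).re = a.re / 2 := by
          rw [show (2 : ℂ) = ((2 : ℝ) : ℂ) by norm_num, Complex.div_ofReal_re]
        rw [this]; ring
      rw [h2, Real.rpow_add ht']
      ring
    refine (IntegrableOn.congr_fun (g := fun t => ∫ y in Ioi (0 : ℝ), ‖Function.uncurry (HH a ν) (y, t)‖)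
      ((Real.GammaIntegral_convergent hb).const_mul _) (fun t ht => (e1 t ht).symm) measurableSet_Ioi)

/-- **the Mellin transform of the Whittaker function** -/
theorem WW_mellin {ν s : ℂ} (h1 : 0 < (s + 1 / 2 + ν).re) (h2 : 0 < (s + 1 / 2 - ν).re) :
    MellinConvergent (WW ν) s ∧ mellin (WW ν) s =
      (2 : ℂ) ^ (s + ν - 1 / 2) * Complex.Gamma ((s + 1 / 2 + ν) / 2) * Complex.Gamma ((s + 1 / 2 - ν) / 2) := by
  set a : ℂ := s + 1 / 2 + ν with ha
  have e2 : a / 2 - ν = (s + 1 / 2 - ν) / 2 := by rw [ha]; ring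
  have hb : 0 < (a / 2 - ν).re := by
    rw [e2, show (2 : ℂ) = ((2 : ℝ) : ℂ) by norm_num, Complex.div_ofReal_re]; positivity
  have hint := HH_int (ν := ν) h1 hb
  have e3 : ∀ y ∈ Ioi (0 : ℝ), (y : ℂ) ^ (s - 1) • WW ν y = ∫ t in Ioi (0 : ℝ), HH a ν y t := by
    intro y hy
    have hyc : (y : ℂ) ≠ 0 := by exact_mod_cast (ne_of_gt hy)
    unfold HH WW
    rw [integral_const_mul, smul_eq_mul, ← mul_assoc, ← Complex.cpow_add _ _ hyc]
    congr 2
    rw [ha]; ring
  constructor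
  · have h3 := hint.integral_prod_left
    refine (IntegrableOn.congr_fun (f := fun y => ∫ t in Ioi (0 : ℝ), HH a ν y t) h3
      (fun y hy => (e3 y hy).symm) measurableSet_Ioi)
  · rw [mellin, setIntegral_congr_fun measurableSet_Ioi e3, integral_integral_swap hint]
    have e4 : ∀ t ∈ Ioi (0 : ℝ), ∫ y in Ioi (0 : ℝ), HH a ν y t =
        ((1 / 2) * (4 : ℂ) ^ (a / 2) * Complex.Gamma (a / 2)) * ((Real.exp (-t) : ℂ) * (t : ℂ) ^ ((a / 2 - ν) - 1)) := by
      intro t ht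
      have ht' : 0 < t := ht
      have htc : (t : ℂ) ≠ 0 := by exact_mod_cast ht'.ne'
      have h4 := (gauss_mellin ht' h1).2
      rw [mellin] at h4
      have h5 : ∫ y in Ioi (0 : ℝ), HH a ν y t = ((t : ℂ) ^ (-ν - 1) * (Real.exp (-t) : ℂ)) *
          ∫ y in Ioi (0 : ℝ), (y : ℂ) ^ (a - 1) • ((Real.exp (-(y ^ 2 / (4 * t))) : ℝ) : ℂ) := by
        rw [← integral_const_mul]
        refine setIntegral_congr_fun measurableSet_Ioi fun y _ => ?_
        simp only [HH, smul_eq_mul]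
        rw [EE_split]
        push_cast
        ring
      rw [h5, h4]
      have h6 : ((4 * t : ℝ) : ℂ) ^ (a / 2) = (4 : ℂ) ^ (a / 2) * (t : ℂ) ^ (a / 2) := by
        have := Complex.mul_cpow_ofReal_nonneg (show (0 : ℝ) ≤ 4 by norm_num) ht'.le (a / 2)
        have h4c : ((4 : ℝ) : ℂ) = 4 := by norm_num
        rw [Complex.ofReal_mul, this, h4c]
      rw [h6, show (a / 2 - ν) - 1 = (-ν - 1) + a / 2 by ring, Complex.cpow_add _ _ htc]
      ring
    rw [setIntegral_congr_fun measurableSet_Ioi e4, integral_const_mul]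
    have h5 : ∫ t in Ioi (0 : ℝ), (Real.exp (-t) : ℂ) * (t : ℂ) ^ ((a / 2 - ν) - 1) = Complex.Gamma (a / 2 - ν) := by
      rw [Complex.Gamma_eq_integral hb, Complex.GammaIntegral]
    rw [h5, e2]
    have h6 : (4 : ℂ) ^ (a / 2) = (2 : ℂ) ^ a := by
      have h8 := Complex.mul_cpow_ofReal_nonneg (show (0 : ℝ) ≤ 2 by norm_num) (show (0 : ℝ) ≤ 2 by norm_num) (a / 2)
      have h4c : ((2 : ℝ) : ℂ) = 2 := by norm_num
      rw [h4c, ← Complex.cpow_add _ _ (by norm_num), show a / 2 + a / 2 = a by ring,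
        show (2 : ℂ) * 2 = 4 by norm_num] at h8
      exact h8
    rw [h6]
    have h7 : (2 : ℂ) ^ (s + ν - 1 / 2) = (1 / 2) * (2 : ℂ) ^ a := by
      rw [show s + ν - 1 / 2 = a - 1 by rw [ha]; ring, Complex.cpow_sub _ _ (by norm_num), Complex.cpow_one]
      ring
    rw [h7]

end

end Pool.Agent.X291.MF
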