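import Pool.Agent.X291.MF.Fou
import Pool.Agent.X291.MF.Ode
import Pool.Agent.X291.MF.WMel

/-!
# Fourier expansion of Maass forms
-/

set_option autoImplicit false

open UpperHalfPlane MeasureTheory Set Filter Topology Function
open scoped MatrixGroups Modular ENNReal Pointwise ContDiff

namespace Pool.Agent.X291.MF

noncomputable section

variable {f : ℍ → ℂ} {lam : ℂ} {a : ℕ → ℂ} {ν : ℂ}

lemma exists_nu (lam : ℂ) : ∃ ν : ℂ, 1 / 4 - ν ^ 2 = lam := by
  obtain ⟨ν, hν⟩ := IsAlgClosed.exists_pow_nat_eq (1 / 4 - lam) (n := 2) (by norm_num)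
  exact ⟨ν, by rw [hν]; ring⟩

lemma WW_ne_zero (ν : ℂ) : ∃ y : ℝ, 0 < y ∧ WW ν y ≠ 0 := by
  by_contra hcon
  push Not at hcon
  set s : ℂ := ((‖ν‖ + 1 : ℝ) : ℂ) with hs
  have hre : s.re = ‖ν‖ + 1 := by rw [hs, Complex.ofReal_re]
  have h0 := Complex.abs_re_le_norm ν
  have h0' := abs_le.1 h0
  have h1 : 0 < (s + 1 / 2 + ν).re := by
    have : (s + 1 / 2 + ν).re = s.re + 1 / 2 + ν.re := by simp
    rw [this, hre]; linarith [h0'.1]
  have h2 : 0 < (s + 1 / 2 - ν).re := by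
    have : (s + 1 / 2 - ν).re = s.re + 1 / 2 - ν.re := by simp
    rw [this, hre]; linarith [h0'.2]
  have h3 := (WW_mellin h1 h2).2
  have h4 : mellin (WW ν) s = 0 := by
    rw [mellin, ← integral_zero ℝ ℂ (μ := volume.restrict (Ioi 0))]
    refine setIntegral_congr_fun measurableSet_Ioi fun y hy => ?_
    rw [hcon y hy, smul_zero]
  rw [h4] at h3
  have h5 : ∀ z : ℂ, 0 < z.re → Complex.Gamma (z / 2) ≠ 0 := by
    intro z hz
    refine Complex.Gamma_ne_zero_of_re_pos ?_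
    rw [show (2 : ℂ) = ((2 : ℝ) : ℂ) by norm_num, Complex.div_ofReal_re]; positivity
  have h6 : (2 : ℂ) ^ (s + ν - 1 / 2) ≠ 0 := by
    rw [Complex.cpow_def_of_ne_zero (by norm_num)]; exact Complex.exp_ne_zero _
  exact (mul_ne_zero (mul_ne_zero h6 (h5 _ h1)) (h5 _ h2)) h3.symm

lemma cf_prop (hf : IsHeckeMaassForm f lam a) (hν : 1 / 4 - ν ^ 2 = lam) {n : ℤ} (hn : n ≠ 0) :
    ∃ A : ℂ, ∀ y : ℝ, 0 < y → cf f n y = A * WW ν (2 * Real.pi * |(n : ℝ)| * y) := by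
  obtain ⟨C, hC0, hC⟩ := cf_bdd hf
  set κ : ℝ := 2 * Real.pi * |(n : ℝ)| with hκ
  have hκ0 : 0 < κ := by
    have : (n : ℝ) ≠ 0 := by exact_mod_cast hn
    have := Real.pi_pos
    positivity
  have hκ2 : (κ : ℂ) ^ 2 = (2 * Real.pi * n) ^ 2 := by
    have : κ ^ 2 = (2 * Real.pi * n) ^ 2 := by
      rw [hκ, mul_pow, sq_abs, ← mul_pow]
    exact_mod_cast this
  obtain ⟨C1, _, hC1⟩ := WW_decay ν
  obtain ⟨C2, _, hC2⟩ := WW'_decay ν
  have hκc : (κ : ℂ) ≠ 0 := by exact_mod_cast hκ0.ne'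
  have hscale : ∀ {g g' : ℝ → ℂ} {y : ℝ}, HasDerivAt g (g' (κ * y)) (κ * y) →
      HasDerivAt (fun y : ℝ => g (κ * y)) ((κ : ℂ) * g' (κ * y)) y := by
    intro g g' y h
    have h1 : HasDerivAt (fun y : ℝ => κ * y) κ y := by simpa using (hasDerivAt_id y).const_mul κ
    have := HasDerivAt.scomp y h h1
    refine this.congr_deriv ?_
    rw [Complex.real_smul]
  refine ode_prop (q := fun y => (2 * Real.pi * n) ^ 2 - lam / y ^ 2) (c := cf f n) (c' := cf' f n)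
    (w := fun y => WW ν (κ * y)) (w' := fun y => κ * WW' ν (κ * y)) ?_ (fun y hy => cf_d1 hf n hy)
    (fun y hy => cf_d2 hf n hy) (fun y hy => hscale (dWW ν (by positivity))) ?_
    (M := C) (Q := ‖((2 * Real.pi * n) ^ 2 : ℂ)‖ + ‖lam‖) (fun y _ => hC n y) ?_ ?_ ?_ ?_
  · intro y hy
    have hy' : (y : ℂ) ≠ 0 := by exact_mod_cast (ne_of_gt hy)
    refine ContinuousAt.continuousWithinAt ?_
    exact continuousAt_const.sub (continuousAt_const.div (by fun_prop) (by positivity))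
  · intro y hy
    have hyc : (y : ℂ) ≠ 0 := by exact_mod_cast hy.ne'
    have h1 := (hscale (g := WW' ν) (g' := fun z => (1 - (1 / 4 - ν ^ 2) / z ^ 2) * WW ν z)
      (dWW' ν (show 0 < κ * y by positivity))).const_mul (κ : ℂ)
    refine h1.congr_deriv ?_
    rw [hν, ← hκ2]
    push_cast
    field_simp
  · intro y hy
    refine (norm_sub_le _ _).trans ?_
    refine add_le_add le_rfl ?_
    rw [norm_div, norm_pow, Complex.norm_real, Real.norm_of_nonneg (by linarith)]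
    refine div_le_self (norm_nonneg _) ?_
    exact one_le_pow₀ hy
  · exact (decay_tendsto hC1).comp (tendsto_id.const_mul_atTop hκ0)
  · have := ((decay_tendsto hC2).comp (tendsto_id.const_mul_atTop hκ0)).const_mul (κ : ℂ)
    simpa using this
  · obtain ⟨y, hy, hyW⟩ := WW_ne_zero ν
    refine ⟨y / κ, by positivity, ?_⟩
    rw [mul_div_cancel₀ _ hκ0.ne']
    exact hyW

lemma cf_zero (hf : IsHeckeMaassForm f lam a) {y : ℝ} (hy : 0 < y) : cf f 0 y = 0 := by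
  unfold cf hint
  rw [← hf.cuspidal y hy]
  refine intervalIntegral.integral_congr fun x _ => ?_
  simp [FF, ee]

/-- the Fourier coefficients: `c_n(y) = A_n W(2π|n|y)` -/
structure FCoef (f : ℍ → ℂ) (ν : ℂ) (A : ℤ → ℂ) : Prop where
  zero : A 0 = 0
  eq : ∀ (n : ℤ) (y : ℝ), 0 < y → cf f n y = A n * WW ν (2 * Real.pi * |(n : ℝ)| * y)

lemma exists_FCoef (hf : IsHeckeMaassForm f lam a) (hν : 1 / 4 - ν ^ 2 = lam) : ∃ A : ℤ → ℂ, FCoef f ν A := by
  have h : ∀ n : ℤ, ∃ A : ℂ, (n = 0 → A = 0) ∧ ∀ y : ℝ, 0 < y → cf f n y = A * WW ν (2 * Real.pi * |(n : ℝ)| * y) := by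
    intro n
    by_cases hn : n = 0
    · refine ⟨0, fun _ => rfl, fun y hy => ?_⟩
      rw [hn, cf_zero hf hy, zero_mul]
    · obtain ⟨A, hA⟩ := cf_prop hf hν hn
      exact ⟨A, fun h => absurd h hn, hA⟩
  choose A hA using h
  exact ⟨A, (hA 0).1 rfl, fun n => (hA n).2⟩

lemma FCoef.bdd (hf : IsHeckeMaassForm f lam a) {A : ℤ → ℂ} (hA : FCoef f ν A) : ∃ C : ℝ, 0 ≤ C ∧ ∀ n, ‖A n‖ ≤ C := by
  obtain ⟨C, hC0, hC⟩ := cf_bdd hf
  obtain ⟨y, hy, hyW⟩ := WW_ne_zero ν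
  have hW : 0 < ‖WW ν y‖ := norm_pos_iff.2 hyW
  refine ⟨C / ‖WW ν y‖, by positivity, fun n => ?_⟩
  by_cases hn : n = 0
  · rw [hn, hA.zero, norm_zero]; positivity
  · have hκ0 : 0 < 2 * Real.pi * |(n : ℝ)| := by
      have : (n : ℝ) ≠ 0 := by exact_mod_cast hn
      have := Real.pi_pos
      positivity
    have h1 := hA.eq n (y / (2 * Real.pi * |(n : ℝ)|)) (by positivity)
    rw [mul_div_cancel₀ _ hκ0.ne'] at h1
    rw [le_div_iff₀ hW, ← norm_mul, ← h1]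
    exact hC _ _

lemma WW_surj_unique {A B : ℂ} {κ : ℝ} (hκ : 0 < κ) (h : ∀ y : ℝ, 0 < y → A * WW ν (κ * y) = B * WW ν (κ * y)) :
    A = B := by
  obtain ⟨y, hy, hyW⟩ := WW_ne_zero ν
  have := h (y / κ) (by positivity)
  rw [mul_div_cancel₀ _ hκ.ne'] at this
  exact mul_right_cancel₀ hyW this

lemma ee_neg (n : ℤ) (x : ℝ) : ee (-n) x = ee n (-x) := by
  unfold ee; congr 1; push_cast; ring

lemma ee_sub_one (n : ℤ) (x : ℝ) : ee n (1 - x) = ee n (-x) := by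
  unfold ee
  rw [Complex.exp_eq_exp_iff_exists_int]
  exact ⟨-n, by push_cast; ring⟩

lemma cf_odd (hodd : IsOddForm f) (hinv : ∀ (γ : SL(2, ℤ)) z, f (γ • z) = f z) (n : ℤ) {y : ℝ} (hy : 0 < y) :
    cf f (-n) y = - cf f n y := by
  unfold cf hint
  have h2 := intervalIntegral.integral_comp_sub_left
      (fun x : ℝ => FF f (x + y * Complex.I) * ee (-n) x) (1 : ℝ) (a := 0) (b := 1)
  simp only [sub_self, sub_zero] at h2
  rw [← h2, ← intervalIntegral.integral_neg]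
  refine intervalIntegral.integral_congr fun x _ => ?_
  rw [ee_sub_one, ee_neg, neg_neg, ← neg_mul]
  congr 1
  have h3 := FF_per hinv (-x + y * Complex.I) (by
    have := xy_mem (x := -x) hy
    push_cast at this
    exact this)
  unfold FF at h3 ⊢
  rw [← hodd x y hy, ← h3]
  congr 2
  push_cast
  ring

lemma FCoef.odd (hf : IsHeckeMaassForm f lam a) (hodd : IsOddForm f) {A : ℤ → ℂ} (hA : FCoef f ν A) (n : ℤ) :
    A (-n) = - A n := by
  by_cases hn : n = 0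
  · rw [hn, neg_zero, hA.zero, neg_zero]
  · have hκ0 : 0 < 2 * Real.pi * |(n : ℝ)| := by
      have : (n : ℝ) ≠ 0 := by exact_mod_cast hn
      have := Real.pi_pos
      positivity
    refine WW_surj_unique (ν := ν) hκ0 fun y hy => ?_
    have h1 := cf_odd hodd hf.invariant n hy
    rw [hA.eq _ _ hy, hA.eq _ _ hy] at h1
    have h2 : |((-n : ℤ) : ℝ)| = |(n : ℝ)| := by push_cast; exact abs_neg _
    rw [h2] at h1
    rw [h1]; ring

end

end Pool.Agent.X291.MF
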