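import Mathlib

/-!
# Hilbert–Schmidt type operators are compact
-/

set_option autoImplicit false

open MeasureTheory Set Filter Topology Function
open scoped ENNReal

namespace Pool.Agent.X291.MF

noncomputable section

variable {X : Type*} [MeasurableSpace X] {μ : Measure X} {H : Type*} [NormedAddCommGroup H]
  [NormedSpace ℂ H]

/-- evaluation -/
def evB (H : Type*) [NormedAddCommGroup H] [NormedSpace ℂ H] : H →L[ℂ] (H →L[ℂ] ℂ) →L[ℂ] ℂ :=
  (ContinuousLinearMap.id ℂ (H →L[ℂ] ℂ)).flip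

/-- the operator attached to a square integrable family of functionals -/
def opL (μ : Measure X) (H : Type*) [NormedAddCommGroup H] [NormedSpace ℂ H] :
    Lp (H →L[ℂ] ℂ) 2 μ →L[ℂ] (H →L[ℂ] Lp ℂ 2 μ) :=
  (ContinuousLinearMap.compLpL₂ 2 μ (evB H)).flip

lemma opL_coe (h : Lp (H →L[ℂ] ℂ) 2 μ) (ψ : H) : opL μ H h ψ =ᵐ[μ] fun x => h x ψ := by
  have := (evB H ψ).coeFn_compLp' h
  exact this

lemma opL_compact (h : Lp (H →L[ℂ] ℂ) 2 μ) : IsCompactOperator (opL μ H h) := by
  refine Lp.induction (by norm_num) (fun h => IsCompactOperator (opL μ H h)) ?_ ?_ ?_ h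
  · intro c s hs hμs
    rw [Lp.simpleFunc.coe_indicatorConst]
    have h1 : opL μ H (indicatorConstLp 2 hs hμs.ne c) = c.smulRight (indicatorConstLp 2 hs hμs.ne (1 : ℂ)) := by
      refine ContinuousLinearMap.ext fun ψ => Lp.ext ?_
      rw [ContinuousLinearMap.smulRight_apply]
      filter_upwards [opL_coe (indicatorConstLp 2 hs hμs.ne c) ψ,
        indicatorConstLp_coeFn (p := 2) (hs := hs) (hμs := hμs.ne) (c := c) (μ := μ),
        indicatorConstLp_coeFn (p := 2) (hs := hs) (hμs := hμs.ne) (c := (1 : ℂ)) (μ := μ),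
        Lp.coeFn_smul (c ψ) (indicatorConstLp 2 hs hμs.ne (1 : ℂ))] with x h1 h2 h3 h4
      rw [h1, h2, h4, Pi.smul_apply, h3]
      by_cases hx : x ∈ s
      · simp [hx]
      · simp [hx]
    rw [h1]
    have h2 : IsCompactOperator c := isCompactOperator_of_locallyCompactSpace_dom _
    exact h2.clm_comp (ContinuousLinearMap.toSpanSingleton ℂ (indicatorConstLp 2 hs hμs.ne (1 : ℂ)))
  · intro f g hf hg _ h1 h2
    rw [map_add]
    exact h1.add h2
  · exact isClosed_setOfPred_isCompactOperator.preimage (opL μ H).continuous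

section kernel

variable {X : Type*} [MeasurableSpace X] [TopologicalSpace X] [BorelSpace X] [SecondCountableTopology X]
  {ν : Measure X} {A : Set X} [IsFiniteMeasure (ν.restrict A)] {k : X → X → ℝ} {C : ℝ}

/-- the standing assumptions on a kernel -/
structure GoodKer (A : Set X) (k : X → X → ℝ) (C : ℝ) : Prop where
  meas : MeasurableSet A
  cont : Continuous fun p : X × X => k p.1 p.2
  symm : ∀ x y, k x y = k y x
  bdd : ∀ x ∈ A, ∀ y ∈ A, |k x y| ≤ C
  nonneg : 0 ≤ C

omit [IsFiniteMeasure (ν.restrict A)] [BorelSpace X] [SecondCountableTopology X] in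
lemma GoodKer.ae_mem (hk : GoodKer A k C) : ∀ᵐ x ∂(ν.restrict A), x ∈ A := ae_restrict_mem hk.meas

omit [MeasurableSpace X] [BorelSpace X] [SecondCountableTopology X] in
lemma GoodKer.cont_row [MeasurableSpace X] (hk : GoodKer A k C) (x : X) : Continuous fun y => (k x y : ℂ) :=
  Complex.continuous_ofReal.comp (hk.cont.comp (continuous_const.prodMk continuous_id))

lemma GoodKer.memLp (hk : GoodKer A k C) {x : X} (hx : x ∈ A) :
    MemLp (fun y => (k x y : ℂ)) 2 (ν.restrict A) := by
  refine MemLp.of_bound (hk.cont_row x).aestronglyMeasurable C ?_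
  filter_upwards [hk.ae_mem (ν := ν)] with y hy
  rw [Complex.norm_real]
  exact hk.bdd x hx y hy

open Classical in
/-- rows -/
def rowL (ν : Measure X) (A : Set X) (k : X → X → ℝ) (x : X) : Lp ℂ 2 (ν.restrict A) :=
  if h : MemLp (fun y => (k x y : ℂ)) 2 (ν.restrict A) then h.toLp else 0

lemma rowL_coe (hk : GoodKer A k C) {x : X} (hx : x ∈ A) :
    rowL ν A k x =ᵐ[ν.restrict A] fun y => (k x y : ℂ) := by
  rw [rowL, dif_pos (hk.memLp hx)]
  exact (hk.memLp hx).coeFn_toLp

lemma rowL_inner (hk : GoodKer A k C) {x : X} (hx : x ∈ A) (ψ : Lp ℂ 2 (ν.restrict A)) :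
    inner ℂ (rowL ν A k x) ψ = ∫ y in A, (k x y : ℂ) * ψ y ∂ν := by
  rw [L2.inner_def]
  refine integral_congr_ae ?_
  filter_upwards [rowL_coe (ν := ν) hk hx] with y hy
  rw [hy]
  simp [mul_comm]

lemma rowL_norm (hk : GoodKer A k C) {x : X} (hx : x ∈ A) :
    ‖rowL ν A k x‖ ≤ (measureUnivNNReal (ν.restrict A) : ℝ) ^ ((2 : ℝ≥0∞).toReal⁻¹) * C := by
  refine Lp.norm_le_of_ae_bound hk.nonneg ?_
  filter_upwards [rowL_coe (ν := ν) hk hx, hk.ae_mem (ν := ν)] with y hy hyA
  rw [hy, Complex.norm_real]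
  exact hk.bdd x hx y hyA

lemma rowL_norm_sub (hk : GoodKer A k C) {x x' : X} (hx : x ∈ A) (hx' : x' ∈ A) :
    ‖rowL ν A k x' - rowL ν A k x‖ ^ 2 = ∫ y in A, (k x' y - k x y) ^ 2 ∂ν := by
  have h1 : ((‖rowL ν A k x' - rowL ν A k x‖ ^ 2 : ℝ) : ℂ) = ((∫ y in A, (k x' y - k x y) ^ 2 ∂ν : ℝ) : ℂ) := by
    have h0 : ((‖rowL ν A k x' - rowL ν A k x‖ ^ 2 : ℝ) : ℂ)
        = inner ℂ (rowL ν A k x' - rowL ν A k x) (rowL ν A k x' - rowL ν A k x) := by
      rw [inner_self_eq_norm_sq_to_K]; push_cast; rfl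
    rw [h0, L2.inner_def, ← integral_complex_ofReal]
    refine integral_congr_ae ?_
    filter_upwards [rowL_coe (ν := ν) hk hx, rowL_coe (ν := ν) hk hx', Lp.coeFn_sub (rowL ν A k x') (rowL ν A k x)]
      with y h1 h2 h3
    rw [h3, Pi.sub_apply, h1, h2, ← Complex.ofReal_sub, RCLike.inner_apply, Complex.conj_ofReal, sq,
      Complex.ofReal_mul]
  exact_mod_cast h1

lemma rowL_continuousOn (hk : GoodKer A k C) : ContinuousOn (rowL ν A k) A := by
  intro x hx
  rw [ContinuousWithinAt, tendsto_iff_norm_sub_tendsto_zero]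
  have h1 : Tendsto (fun x' => ∫ y in A, (k x' y - k x y) ^ 2 ∂ν) (𝓝[A] x) (𝓝 (∫ y in A, (k x y - k x y) ^ 2 ∂ν)) := by
    refine tendsto_integral_filter_of_dominated_convergence (fun _ => (2 * C) ^ 2) ?_ ?_ (integrable_const _) ?_
    · refine Eventually.of_forall fun x' => ?_
      refine Continuous.aestronglyMeasurable ?_
      exact ((hk.cont.comp (continuous_const.prodMk continuous_id)).sub
        (hk.cont.comp (continuous_const.prodMk continuous_id))).pow 2
    · filter_upwards [self_mem_nhdsWithin] with x' hx'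
      filter_upwards [hk.ae_mem (ν := ν)] with y hy
      rw [norm_pow, Real.norm_eq_abs]
      have h1 := hk.bdd x hx y hy
      have h2 := hk.bdd x' hx' y hy
      have h3 := abs_sub (k x' y) (k x y)
      have h4 := abs_nonneg (k x' y - k x y)
      gcongr
      linarith
    · refine Eventually.of_forall fun y => ?_
      refine Tendsto.mono_left ?_ nhdsWithin_le_nhds
      have hc : Continuous fun x' => (k x' y - k x y) ^ 2 :=
        ((hk.cont.comp (continuous_id.prodMk continuous_const)).sub continuous_const).pow 2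
      exact hc.tendsto x
  have h2 : Tendsto (fun x' => Real.sqrt (‖rowL ν A k x' - rowL ν A k x‖ ^ 2)) (𝓝[A] x) (𝓝 (Real.sqrt 0)) := by
    refine (Real.continuous_sqrt.tendsto 0).comp ?_
    have h3 : (∫ y in A, (k x y - k x y) ^ 2 ∂ν) = 0 := by simp
    rw [h3] at h1
    refine h1.congr' ?_
    filter_upwards [self_mem_nhdsWithin] with x' hx'
    rw [rowL_norm_sub hk hx hx']
  rw [Real.sqrt_zero] at h2
  refine h2.congr fun x' => ?_
  rw [Real.sqrt_sq (norm_nonneg _)]

/-- **the compact symmetric operator of a kernel** -/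
theorem exists_op (ν : Measure X) [IsFiniteMeasure (ν.restrict A)] (hk : GoodKer A k C) :
    ∃ T : Lp ℂ 2 (ν.restrict A) →L[ℂ] Lp ℂ 2 (ν.restrict A),
      IsCompactOperator T ∧ T.IsSymmetric ∧
      ∀ ψ, ∀ᵐ x ∂(ν.restrict A), T ψ x = ∫ y in A, (k x y : ℂ) * ψ y ∂ν := by
  have hc : ContinuousOn (fun x => innerSL ℂ (rowL ν A k x)) A :=
    (innerSL ℂ).continuous.comp_continuousOn (rowL_continuousOn hk)
  have hmem : MemLp (fun x => innerSL ℂ (rowL ν A k x)) 2 (ν.restrict A) := by
    refine MemLp.of_bound (hc.aestronglyMeasurable hk.meas)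
      ((measureUnivNNReal (ν.restrict A) : ℝ) ^ ((2 : ℝ≥0∞).toReal⁻¹) * C) ?_
    filter_upwards [hk.ae_mem (ν := ν)] with x hx
    rw [innerSL_apply_norm]
    exact rowL_norm hk hx
  have hval : ∀ ψ, ∀ᵐ x ∂(ν.restrict A),
      (opL (ν.restrict A) _ (hmem.toLp _) ψ : X → ℂ) x = ∫ y in A, (k x y : ℂ) * ψ y ∂ν := by
    intro ψ
    filter_upwards [opL_coe (hmem.toLp _) ψ, hmem.coeFn_toLp, hk.ae_mem (ν := ν)] with x h1 h2 h3
    rw [h1, h2, innerSL_apply_apply, rowL_inner hk h3]
  refine ⟨opL (ν.restrict A) _ (hmem.toLp _), opL_compact _, ?_, hval⟩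
  intro ψ φ
  rw [L2.inner_def, L2.inner_def]
  have hψ : Integrable (fun x => ψ x) (ν.restrict A) := (Lp.memLp ψ).integrable (by norm_num)
  have hφ : Integrable (fun x => φ x) (ν.restrict A) := (Lp.memLp φ).integrable (by norm_num)
  have hint : Integrable (fun p : X × X => (k p.1 p.2 : ℂ) * (φ p.1 * (starRingEnd ℂ) (ψ p.2)))
      ((ν.restrict A).prod (ν.restrict A)) := by
    refine Integrable.bdd_mul (c := C) ?_ ?_ ?_
    · refine hφ.mul_prod (g := fun y => (starRingEnd ℂ) (ψ y)) ?_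
      exact (Complex.conjLIE.integrable_comp_iff (φ := fun x => ψ x)).2 hψ
    · exact (Complex.continuous_ofReal.comp hk.cont).aestronglyMeasurable
    · have h1 : ∀ᵐ p ∂((ν.restrict A).prod (ν.restrict A)), p.1 ∈ A ∧ p.2 ∈ A := by
        have := (Measure.quasiMeasurePreserving_fst (μ := ν.restrict A) (ν := ν.restrict A)).ae (hk.ae_mem (ν := ν))
        have h2 := (Measure.quasiMeasurePreserving_snd (μ := ν.restrict A) (ν := ν.restrict A)).ae (hk.ae_mem (ν := ν))
        filter_upwards [this, h2] with p a b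
        exact ⟨a, b⟩
      filter_upwards [h1] with p hp
      rw [Complex.norm_real]
      exact hk.bdd _ hp.1 _ hp.2
  calc ∫ x in A, inner ℂ ((opL (ν.restrict A) _ (hmem.toLp _) ψ : X → ℂ) x) (φ x) ∂ν
      = ∫ x in A, ∫ y in A, (k x y : ℂ) * (φ x * (starRingEnd ℂ) (ψ y)) ∂ν ∂ν := by
        refine integral_congr_ae ?_
        filter_upwards [hval ψ] with x hx
        rw [hx, RCLike.inner_apply, ← integral_conj, ← integral_const_mul]
        refine integral_congr_ae (Eventually.of_forall fun y => ?_)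
        simp only [map_mul, Complex.conj_ofReal]
        ring
    _ = ∫ y in A, ∫ x in A, (k x y : ℂ) * (φ x * (starRingEnd ℂ) (ψ y)) ∂ν ∂ν := integral_integral_swap hint
    _ = ∫ y in A, inner ℂ (ψ y) ((opL (ν.restrict A) _ (hmem.toLp _) φ : X → ℂ) y) ∂ν := by
        refine integral_congr_ae ?_
        filter_upwards [hval φ] with y hy
        rw [hy, RCLike.inner_apply, ← integral_mul_const]
        refine integral_congr_ae (Eventually.of_forall fun x => ?_)
        simp only
        rw [hk.symm y x]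
        ring

end kernel

end

end Pool.Agent.X291.MF
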