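import Mathlib

/-!
# Odd Hecke–Maass cusp forms of level one: definitions
-/

set_option autoImplicit false

open UpperHalfPlane MeasureTheory
open scoped MatrixGroups ContDiff

namespace Pool.Agent.X291.MF

noncomputable section

/-- The Hecke operator `T_p f(z) = p^(-1/2) (f(pz) + ∑_{b mod p} f((z+b)/p))`.
`ofComplex` is Mathlib's inverse of the inclusion of the upper half plane in `ℂ`. -/
def heckeT (p : ℕ) (f : ℍ → ℂ) (z : ℍ) : ℂ :=
  (Real.sqrt p : ℂ)⁻¹ * (f (ofComplex (p * z)) + ∑ b ∈ Finset.range p, f (ofComplex ((z + b) / p)))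

/-- The hyperbolic Laplacian `-y² (∂²/∂x² + ∂²/∂y²)` on functions on the upper half plane. -/
def hypLaplacian (f : ℍ → ℂ) (z : ℍ) : ℂ :=
  -(z.im : ℂ) ^ 2 *
    (deriv (fun t : ℝ => deriv (fun s : ℝ => f (ofComplex (s + z.im * Complex.I))) t) z.re +
     deriv (fun t : ℝ => deriv (fun s : ℝ => f (ofComplex (z.re + s * Complex.I))) t) z.im)

/-- `f` is a Hecke–Maass cusp form for `SL₂(ℤ)` with Laplace eigenvalue `lam` and Hecke eigenvalues
`a p` (`p` prime): a nonzero smooth bounded function on the upper half plane, invariant under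
`SL₂(ℤ)`, with vanishing constant terms, an eigenfunction of the hyperbolic Laplacian and of all
Hecke operators. -/
structure IsHeckeMaassForm (f : ℍ → ℂ) (lam : ℂ) (a : ℕ → ℂ) : Prop where
  ne_zero : f ≠ 0
  smooth : ContDiffOn ℝ ∞ (fun z : ℂ => f (ofComplex z)) {z : ℂ | 0 < z.im}
  invariant : ∀ (γ : SL(2, ℤ)) (z : ℍ), f (γ • z) = f z
  bounded : ∃ C : ℝ, ∀ z, ‖f z‖ ≤ C
  cuspidal : ∀ y : ℝ, 0 < y → ∫ x in (0 : ℝ)..1, f (ofComplex (x + y * Complex.I)) = 0
  eigen : ∀ z, hypLaplacian f z = lam * f z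
  hecke : ∀ p : ℕ, p.Prime → ∀ z, heckeT p f z = a p * f z

/-- `f` is odd: `f(-x + iy) = -f(x + iy)` -/
def IsOddForm (f : ℍ → ℂ) : Prop :=
  ∀ x y : ℝ, 0 < y → f (ofComplex (-x + y * Complex.I)) = -f (ofComplex (x + y * Complex.I))

end

end Pool.Agent.X291.MF
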