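import Pool.Agent.X291.MF.Vol
import Pool.Agent.X291.MF.Cpt

/-!
# Existence of a nonzero eigenspace, and its finite dimensionality
-/

set_option autoImplicit false

open UpperHalfPlane MeasureTheory Set Filter Topology Function
open scoped MatrixGroups Modular ENNReal Pointwise

namespace Pool.Agent.X291.MF

noncomputable section

/-- the profile -/
def prof (t : ℝ) : ℝ := expNegInvGlue (1 - 32 * t)

lemma prof_Prof : Prof prof (1 / 32) := by
  refine ⟨fun t => expNegInvGlue.nonneg _, ?_, ?_⟩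
  · intro a _ b _ hab
    exact expNegInvGlue.monotone (by linarith)
  · intro t ht
    exact expNegInvGlue.zero_of_nonpos (by linarith)

lemma prof_contDiff : ContDiff ℝ (⊤ : ℕ∞) prof := by
  unfold prof
  exact expNegInvGlue.contDiff.comp (by fun_prop)

lemma prof_cont : Continuous prof := prof_contDiff.continuous

lemma prof_pos : 0 < prof 0 := expNegInvGlue.pos_of_pos (by norm_num)

lemma prof_zero {t : ℝ} (ht : 1 / 32 ≤ t) : prof t = 0 := expNegInvGlue.zero_of_nonpos (by linarith)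

/-- the Banach space of bounded continuous odd invariant functions which are eigenfunctions -/
structure IsV (φ : ℝ → ℝ) (m : ℂ) (f : ℍ → ℂ) : Prop where
  cont : Continuous f
  bdd : ∃ C, ∀ z, ‖f z‖ ≤ C
  inv : ∀ (γ : SL(2, ℤ)) z, f (γ • z) = f z
  odd : ∀ z, f (J • z) = - f z
  eig : ∀ z, ∫ w, (φ (D z w) : ℂ) * f w = m * f z

variable {φ : ℝ → ℝ} {R : ℝ}

/-- compactly supported kernels -/
structure CKer (φ : ℝ → ℝ) (R : ℝ) : Prop where
  cont : Continuous φ
  supp : ∀ t, R < t → φ t = 0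

lemma CKer.row_cont (h : CKer φ R) (z : ℍ) : Continuous fun w => φ (D z w) :=
  h.cont.comp (continuous_D.comp (continuous_const.prodMk continuous_id))

lemma CKer.row_supp (h : CKer φ R) (z : ℍ) : HasCompactSupport fun w => φ (D z w) := by
  refine HasCompactSupport.intro (isCompact_closedBall z (Real.sqrt R)) fun w hw => ?_
  apply h.supp
  by_contra hcon
  push Not at hcon
  apply hw
  rw [Metric.mem_closedBall, dist_comm]
  exact dist_le_of_D_le hcon

lemma CKer.int (h : CKer φ R) (z : ℍ) {f : ℍ → ℂ} (hf : Continuous f) :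
    Integrable fun w => (φ (D z w) : ℂ) * f w := by
  refine Continuous.integrable_of_hasCompactSupport ?_ ?_
  · exact (Complex.continuous_ofReal.comp (h.row_cont z)).mul hf
  · refine HasCompactSupport.mul_right ?_
    exact (h.row_supp z).comp_left (g := fun x : ℝ => (x : ℂ)) (by simp)

lemma K_eq_tsum (h : CKer φ R) (z w : ℍ) :
    (K φ z w : ℂ) = ∑' γ : SL(2, ℤ), ((φ (D z (γ • w)) : ℂ) - φ (D z (γ • J • w))) := by
  unfold K
  have h1 : ∑' γ : SL(2, ℤ), (φ (D z (γ • w)) - φ (D z (γ • J • w))) = ∑ᶠ γ : SL(2, ℤ), (φ (D z (γ • w)) - φ (D z (γ • J • w))) :=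
    tsum_eq_finsum (finSupp h.supp z w)
  rw [← h1, Complex.ofReal_tsum]
  simp

lemma finSuppC (h : CKer φ R) (z w : ℍ) :
    Summable (fun γ : SL(2, ℤ) => (φ (D z (γ • w)) : ℂ)) := by
  refine summable_of_hasFiniteSupport ((finSupp1 h.supp z w).subset ?_)
  intro γ hγ
  simp only [mem_support, ne_eq, Complex.ofReal_eq_zero] at hγ
  exact hγ

/-- unfolding against an odd invariant function -/
lemma unfold_odd (h : CKer φ R) {f : ℍ → ℂ} (hc : Continuous f) (hinv : ∀ (γ : SL(2, ℤ)) z, f (γ • z) = f z)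
    (hodd : ∀ z, f (J • z) = - f z) (z : ℍ) :
    ∫ w in 𝒟, (K φ z w : ℂ) * f w = 4 * ∫ w, (φ (D z w) : ℂ) * f w := by
  have hi1 := h.int z hc
  have hmp := measurePreserving_smul J (volume : Measure ℍ)
  have hi2 : Integrable fun w => (φ (D z (J • w)) : ℂ) * f (J • w) := hmp.integrable_comp_of_integrable hi1
  have hi3 : Integrable fun w => (φ (D z (J • w)) : ℂ) * f w := by
    refine hi2.neg.congr (Eventually.of_forall fun w => ?_)
    simp [hodd]
  have e1 : ∫ w, (φ (D z (J • w)) : ℂ) * f w = - ∫ w, (φ (D z w) : ℂ) * f w := by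
    have h1 := hmp.integral_comp (Homeomorph.smul J).measurableEmbedding (fun w => (φ (D z w) : ℂ) * f w)
    rw [← h1, ← integral_neg]
    refine integral_congr_ae (Eventually.of_forall fun w => ?_)
    simp [hodd]
  have hG : Integrable fun w => ((φ (D z w) : ℂ) - φ (D z (J • w))) * f w := by
    refine (hi1.sub hi3).congr (Eventually.of_forall fun w => ?_)
    simp only [Pi.sub_apply]; ring
  have hGm : Measurable fun w => ((φ (D z w) : ℂ) - φ (D z (J • w))) * f w := by
    refine Continuous.measurable ?_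
    refine ((Complex.continuous_ofReal.comp (h.row_cont z)).sub
      (Complex.continuous_ofReal.comp ((h.row_cont z).comp (continuous_const_smul J)))).mul hc
  have h2 := unfold_int hG hGm
  have h3 : ∫ w, ((φ (D z w) : ℂ) - φ (D z (J • w))) * f w = 2 * ∫ w, (φ (D z w) : ℂ) * f w := by
    simp only [sub_mul]
    rw [integral_sub hi1 hi3, e1]
    ring
  rw [h3, ← mul_assoc, show (2 : ℂ) * 2 = 4 by norm_num] at h2
  rw [← h2]
  refine setIntegral_congr_fun measurable_fd fun w _ => ?_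
  rw [K_eq_tsum h]
  simp only [hinv]
  rw [tsum_mul_right]
  congr 1
  rw [(finSuppC h z w).tsum_sub (finSuppC h z (J • w))]
  have h4 : Summable fun γ : SL(2, ℤ) => (φ (D z (J • γ • w)) : ℂ) := by
    have := (finSuppC h z (J • w))
    refine (Equiv.summable_iff cjEquiv).2 this |>.congr fun γ => ?_
    simp only [comp_apply]
    rw [cj_smul]; rfl
  rw [(finSuppC h z w).tsum_sub h4]
  congr 1
  rw [← cjEquiv.tsum_eq]
  refine tsum_congr fun γ => ?_
  rw [cj_smul]; rfl

lemma unfold_V (h : CKer φ R) {f : ℍ → ℂ} {m : ℂ} (hf : IsV φ m f) (z : ℍ) :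
    ∫ w in 𝒟, (K φ z w : ℂ) * f w = 4 * m * f z := by
  rw [unfold_odd h hf.cont hf.inv hf.odd, hf.eig]
  ring

lemma prof_CKer : CKer prof (1 / 32) := ⟨prof_cont, fun _ ht => prof_zero ht.le⟩

lemma K_bound' : ∃ C, 0 ≤ C ∧ ∀ z, ∀ w ∈ 𝒟, |K prof z w| ≤ C := by
  obtain ⟨C, hC⟩ := K_bound prof_Prof (by norm_num)
  refine ⟨|C|, abs_nonneg C, fun z w hw => ?_⟩
  obtain ⟨γ, hγ⟩ := ModularGroup.exists_smul_mem_fd z
  rw [← K_smul_left γ]
  exact (hC _ hγ w hw).trans (le_abs_self C)

lemma continuous_K' : Continuous fun p : ℍ × ℍ => K prof p.1 p.2 :=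
  continuous_K prof_cont (fun _ ht => prof_zero ht.le)

/-- the test point -/
def z0 : ℍ := ⟨1 / 4 + 2 * Complex.I, by norm_num⟩

lemma z0_re : z0.re = 1 / 4 := by
  rw [← UpperHalfPlane.coe_re]; simp [z0]

lemma z0_im : z0.im = 2 := by
  rw [← UpperHalfPlane.coe_im]; simp [z0]

lemma z0_mem : z0 ∈ 𝒟ᵒ := by
  refine ⟨?_, ?_⟩
  · rw [Complex.normSq_apply, UpperHalfPlane.coe_re, UpperHalfPlane.coe_im, z0_re, z0_im]; norm_num
  · rw [z0_re]; rw [abs_of_pos] <;> norm_num

lemma prof_J_z0 (γ : SL(2, ℤ)) : prof (D z0 (γ • J • z0)) = 0 := by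
  apply prof_zero
  by_cases hc : γ 1 0 = 0
  · obtain ⟨⟨u, n⟩, rfl⟩ := par_surj γ hc
    rw [par_smul, D_vadd, J_re, J_im, z0_re, z0_im]
    have h1 : (1 : ℝ) / 4 ≤ ((n : ℝ) - 1 / 2) ^ 2 := by
      rcases le_or_gt n 0 with h | h
      · have : (n : ℝ) ≤ 0 := by exact_mod_cast h
        nlinarith
      · have : (1 : ℝ) ≤ n := by exact_mod_cast h
        nlinarith
    simp only
    rw [div_le_div_iff₀ (by norm_num) (by norm_num)]
    nlinarith
  · have h1 := im_smul_le hc (J • z0)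
    have h2 := im_ratio_le z0 (γ • J • z0)
    rw [J_im, z0_im] at h1
    rw [z0_im] at h2
    have h3 := (γ • J • z0).im_pos
    rw [div_le_iff₀ h3] at h2
    have h4 := D_nonneg z0 (γ • J • z0)
    nlinarith

lemma K_pos : 0 < K prof z0 z0 := by
  have h0 := finSupp prof_CKer.supp z0 z0
  have h1 : K prof z0 z0 = ∑' γ : SL(2, ℤ), (prof (D z0 (γ • z0)) - prof (D z0 (γ • J • z0))) := by
    unfold K
    exact (tsum_eq_finsum h0).symm
  have h2 : Summable fun γ : SL(2, ℤ) => (prof (D z0 (γ • z0)) - prof (D z0 (γ • J • z0))) :=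
    summable_of_hasFiniteSupport h0
  rw [h1]
  refine h2.tsum_pos (fun γ => ?_) 1 ?_
  · rw [prof_J_z0, sub_zero]; exact prof_Prof.nonneg _
  · rw [prof_J_z0, sub_zero, one_smul, D_self]; exact prof_pos

lemma goodKer : ∃ C, GoodKer (𝒟 : Set ℍ) (K prof) C := by
  obtain ⟨C, hC0, hC⟩ := K_bound'
  exact ⟨C, measurable_fd, continuous_K', fun z w => K_comm z w prof_CKer.supp, fun z _ w hw => hC z w hw, hC0⟩

lemma op_ne_zero (T : Lp ℂ 2 ((volume : Measure ℍ).restrict 𝒟) →L[ℂ] Lp ℂ 2 ((volume : Measure ℍ).restrict 𝒟))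
    (hT : ∀ ψ, ∀ᵐ x ∂((volume : Measure ℍ).restrict 𝒟), T ψ x = ∫ y in 𝒟, (K prof x y : ℂ) * ψ y) : T ≠ 0 := by
  rintro rfl
  have h1 : {p : ℍ × ℍ | 0 < K prof p.1 p.2} ∈ 𝓝 (z0, z0) :=
    (isOpen_lt continuous_const continuous_K').mem_nhds K_pos
  obtain ⟨U1, hU1, hz1, U2, hU2, hz2, hsub⟩ : ∃ U1 : Set ℍ, IsOpen U1 ∧ z0 ∈ U1 ∧ ∃ U2 : Set ℍ, IsOpen U2 ∧ z0 ∈ U2 ∧
      U1 ×ˢ U2 ⊆ {p : ℍ × ℍ | 0 < K prof p.1 p.2} := by
    obtain ⟨U1, U2, a, b, c, d, e⟩ := mem_nhds_prod_iff'.1 h1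
    exact ⟨U1, a, b, U2, c, d, e⟩
  set U : Set ℍ := U1 ∩ U2 ∩ 𝒟ᵒ with hU
  have hUo : IsOpen U := (hU1.inter hU2).inter ModularGroup.isOpen_fdo
  have hUz : z0 ∈ U := ⟨⟨hz1, hz2⟩, z0_mem⟩
  have hUD : U ⊆ 𝒟 := fun z hz => ModularGroup.fdo_subset_fd hz.2
  have hUm := hUo.measurableSet
  have hvol : 0 < volume U := vol_open_pos hUo ⟨z0, hUz⟩
  obtain ⟨C, hC⟩ := goodKer
  have h2 := hT (indicatorConstLp 2 hUm (measure_ne_top _ _) (1 : ℂ))
  have h3 := Lp.coeFn_zero ℂ 2 ((volume : Measure ℍ).restrict 𝒟)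
  have h4 : ∀ᵐ x ∂((volume : Measure ℍ).restrict 𝒟), x ∉ U := by
    filter_upwards [h2, h3] with x hx hx0 hxU
    rw [zero_apply, hx0, Pi.zero_apply] at hx
    have h5 : ∫ y in 𝒟, (K prof x y : ℂ) * (indicatorConstLp 2 hUm (measure_ne_top _ _) (1 : ℂ) :
        Lp ℂ 2 ((volume : Measure ℍ).restrict 𝒟)) y = ((∫ y in U, K prof x y : ℝ) : ℂ) := by
      have h6 : ((∫ y in U, K prof x y : ℝ) : ℂ) = ∫ y in 𝒟, U.indicator (fun y => (K prof x y : ℂ)) y := by
        rw [setIntegral_indicator hUm, inter_eq_right.2 hUD, ← integral_complex_ofReal]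
      rw [h6]
      refine integral_congr_ae ?_
      filter_upwards [indicatorConstLp_coeFn (p := 2) (hs := hUm) (hμs := measure_ne_top _ _) (c := (1 : ℂ))
        (μ := (volume : Measure ℍ).restrict 𝒟)] with y hy
      rw [hy]
      by_cases hyU : y ∈ U
      · simp [hyU]
      · simp [hyU]
    rw [h5] at hx
    have h6 : ∫ y in U, K prof x y = 0 := by
      have := hx.symm
      exact_mod_cast this
    have hpos : ∀ y ∈ U, 0 < K prof x y := by
      intro y hy
      have hxy : (x, y) ∈ {p : ℍ × ℍ | 0 < K prof p.1 p.2} := hsub (Set.mk_mem_prod hxU.1.1 hy.1.2)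
      exact hxy
    have h7 : 0 < ∫ y in U, K prof x y := by
      rw [setIntegral_pos_iff_support_of_nonneg_ae]
      · have : Function.support (fun y => K prof x y) ∩ U = U := by
          apply inter_eq_right.2
          intro y hy
          exact (hpos y hy).ne'
        rw [this]; exact hvol
      · filter_upwards [ae_restrict_mem hUm] with y hy
        exact (hpos y hy).le
      · refine Measure.integrableOn_of_bounded (M := C) ?_ ?_ ?_
        · exact ((measure_mono hUD).trans_lt vol_fd_lt_top).ne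
        · exact (continuous_K'.comp (continuous_const.prodMk continuous_id)).aestronglyMeasurable
        · filter_upwards [ae_restrict_mem hUm] with y hy
          exact hC.bdd x (hUD hxU) y (hUD hy)
    exact absurd h6 h7.ne'
  have h5 := measure_eq_zero_iff_ae_notMem.2 h4
  rw [Measure.restrict_apply hUm, inter_eq_left.2 hUD] at h5
  exact absurd h5 hvol.ne'

/-- the eigenfunction attached to an `L²` eigenvector -/
lemma exists_V_of {m : ℂ} (hm : m ≠ 0) (ψ : Lp ℂ 2 ((volume : Measure ℍ).restrict 𝒟)) (hψ : ψ ≠ 0)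
    (he : ∀ᵐ x ∂((volume : Measure ℍ).restrict 𝒟), m * ψ x = ∫ y in 𝒟, (K prof x y : ℂ) * ψ y) :
    ∃ f : ℍ → ℂ, f ≠ 0 ∧ IsV prof (m / 4) f := by
  obtain ⟨C, hC0, hC⟩ := K_bound'
  have hi : Integrable (fun y => ψ y) ((volume : Measure ℍ).restrict 𝒟) :=
    (Lp.memLp ψ).integrable (by norm_num)
  set f : ℍ → ℂ := fun z => m⁻¹ * ∫ y in 𝒟, (K prof z y : ℂ) * ψ y with hf
  have hbd : ∀ z, ∀ᵐ y ∂((volume : Measure ℍ).restrict 𝒟), ‖(K prof z y : ℂ) * ψ y‖ ≤ C * ‖ψ y‖ := by
    intro z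
    filter_upwards [ae_restrict_mem measurable_fd] with y hy
    rw [norm_mul, Complex.norm_real]
    exact mul_le_mul_of_nonneg_right (hC z y hy) (norm_nonneg _)
  have hcont : Continuous f := by
    refine continuous_const.mul ?_
    refine continuous_of_dominated (bound := fun y => C * ‖ψ y‖) ?_ hbd (hi.norm.const_mul C) ?_
    · intro z
      refine AEStronglyMeasurable.mul ?_ hi.1
      exact (Complex.continuous_ofReal.comp (continuous_K'.comp
        (continuous_const.prodMk continuous_id))).aestronglyMeasurable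
    · refine Eventually.of_forall fun y => ?_
      exact (Complex.continuous_ofReal.comp (continuous_K'.comp
        (continuous_id.prodMk continuous_const))).mul continuous_const
  have hbdd : ∀ z, ‖f z‖ ≤ ‖m⁻¹‖ * ∫ y in 𝒟, C * ‖ψ y‖ := by
    intro z
    rw [hf, norm_mul]
    refine mul_le_mul_of_nonneg_left ?_ (norm_nonneg _)
    exact norm_integral_le_of_norm_le (hi.norm.const_mul C) (hbd z)
  have hinv : ∀ (γ : SL(2, ℤ)) z, f (γ • z) = f z := by
    intro γ z
    simp only [hf]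
    congr 1
    refine integral_congr_ae (Eventually.of_forall fun y => ?_)
    simp only [K_smul_left]
  have hodd : ∀ z, f (J • z) = - f z := by
    intro z
    simp only [hf, K_J_left]
    rw [← mul_neg, ← integral_neg]
    congr 1
    refine integral_congr_ae (Eventually.of_forall fun y => ?_)
    simp
  have hfψ : ∀ᵐ x ∂((volume : Measure ℍ).restrict 𝒟), f x = ψ x := by
    filter_upwards [he] with x hx
    simp only [hf]
    rw [← hx, inv_mul_cancel_left₀ hm]
  refine ⟨f, ?_, hcont, ⟨_, hbdd⟩, hinv, hodd, fun z => ?_⟩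
  · intro h0
    apply hψ
    apply Lp.ext
    filter_upwards [hfψ, Lp.coeFn_zero ℂ 2 ((volume : Measure ℍ).restrict 𝒟)] with x h1 h2
    rw [← h1, h2, h0]
  · have h1 := unfold_odd prof_CKer hcont hinv hodd z
    have h2 : ∫ w in 𝒟, (K prof z w : ℂ) * f w = m * f z := by
      rw [show m * f z = ∫ y in 𝒟, (K prof z y : ℂ) * ψ y by
        simp only [hf]; rw [mul_inv_cancel_left₀ hm]]
      refine integral_congr_ae ?_
      filter_upwards [hfψ] with x hx
      rw [hx]
    rw [h2] at h1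
    rw [div_mul_eq_mul_div, h1]
    ring

/-- **existence of a nonzero eigenspace** -/
theorem exists_V : ∃ m : ℂ, m ≠ 0 ∧ ∃ f : ℍ → ℂ, f ≠ 0 ∧ IsV prof m f := by
  obtain ⟨C, hC⟩ := goodKer
  obtain ⟨T, hT1, hT2, hT3⟩ := exists_op (volume : Measure ℍ) hC
  have h0 := op_ne_zero T hT3
  have h1 := (not_congr (ContinuousLinearMap.eq_zero_of_forall_hasEigenvalue_eq_zero hT1 hT2)).2 h0
  push Not at h1
  obtain ⟨m, hm, hm0⟩ := h1
  obtain ⟨ψ, hψ⟩ := hm.exists_hasEigenvector
  obtain ⟨f, hf0, hf⟩ := exists_V_of hm0 ψ hψ.2 (by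
    have h2 : T ψ = m • ψ := hψ.apply_eq_smul
    filter_upwards [hT3 ψ, Lp.coeFn_smul m ψ] with x h3 h4
    rw [← h3, h2, h4]
    rfl)
  exact ⟨m / 4, div_ne_zero hm0 (by norm_num), f, hf0, hf⟩

/-- the eigenspace -/
def Vsub (m : ℂ) : Submodule ℂ (ℍ → ℂ) where
  carrier := {f | IsV prof m f}
  add_mem' := by
    rintro f g hf hg
    obtain ⟨C1, h1⟩ := hf.bdd
    obtain ⟨C2, h2⟩ := hg.bdd
    refine ⟨hf.cont.add hg.cont, ⟨C1 + C2, fun z => (norm_add_le _ _).trans (add_le_add (h1 z) (h2 z))⟩,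
      fun γ z => by simp only [Pi.add_apply]; rw [hf.inv, hg.inv], fun z => by simp only [Pi.add_apply]; rw [hf.odd, hg.odd]; ring, fun z => ?_⟩
    simp only [Pi.add_apply, mul_add]
    rw [integral_add (prof_CKer.int z hf.cont) (prof_CKer.int z hg.cont), hf.eig, hg.eig]
  zero_mem' := ⟨continuous_const, ⟨0, fun z => by simp⟩, fun _ _ => rfl, fun _ => by simp, fun _ => by simp⟩
  smul_mem' := by
    rintro c f hf
    obtain ⟨C1, h1⟩ := hf.bdd
    refine ⟨hf.cont.const_smul c, ⟨‖c‖ * C1, fun z => ?_⟩,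
      fun γ z => by simp only [Pi.smul_apply]; rw [hf.inv], fun z => by simp only [Pi.smul_apply]; rw [hf.odd]; simp, fun z => ?_⟩
    · simp only [Pi.smul_apply, smul_eq_mul, norm_mul]
      exact mul_le_mul_of_nonneg_left (h1 z) (norm_nonneg _)
    · simp only [Pi.smul_apply, smul_eq_mul]
      rw [show m * (c * f z) = c * (m * f z) by ring, ← hf.eig, ← integral_const_mul]
      refine integral_congr_ae (Eventually.of_forall fun y => ?_)
      simp only
      ring

lemma mem_Vsub {m : ℂ} {f : ℍ → ℂ} : f ∈ Vsub m ↔ IsV prof m f := Iff.rfl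

lemma IsV.memLp {m : ℂ} {f : ℍ → ℂ} (hf : IsV prof m f) : MemLp f 2 ((volume : Measure ℍ).restrict 𝒟) := by
  obtain ⟨C, hC⟩ := hf.bdd
  exact MemLp.of_bound hf.cont.aestronglyMeasurable C (Eventually.of_forall hC)

/-- **finite dimensionality** -/
theorem Vsub_finite {m : ℂ} (hm : m ≠ 0) : FiniteDimensional ℂ (Vsub m) := by
  obtain ⟨C, hC⟩ := goodKer
  obtain ⟨T, hT1, hT2, hT3⟩ := exists_op (volume : Measure ℍ) hC
  have hfin := ContinuousLinearMap.finite_dimensional_eigenspace hT1 (4 * m) (mul_ne_zero (by norm_num) hm)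
  let L : Vsub m →ₗ[ℂ] Module.End.eigenspace T.toLinearMap (4 * m) :=
    { toFun := fun f => ⟨(f.2 : IsV prof m f.1).memLp.toLp _, by
        rw [Module.End.mem_eigenspace_iff]
        have hf : IsV prof m f.1 := f.2
        apply Lp.ext
        filter_upwards [hT3 (hf.memLp.toLp _), hf.memLp.coeFn_toLp,
          Lp.coeFn_smul (4 * m) (hf.memLp.toLp _)] with x h1 h2 h3
        rw [h3, Pi.smul_apply, h2]
        refine h1.trans ?_
        rw [smul_eq_mul, ← unfold_V prof_CKer hf]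
        refine integral_congr_ae ?_
        filter_upwards [hf.memLp.coeFn_toLp] with y hy
        rw [hy]⟩
      map_add' := fun f g => by
        apply Subtype.ext
        exact MemLp.toLp_add (show IsV prof m f.1 from f.2).memLp (show IsV prof m g.1 from g.2).memLp
      map_smul' := fun c f => by
        apply Subtype.ext
        exact MemLp.toLp_const_smul c (show IsV prof m f.1 from f.2).memLp }
  refine FiniteDimensional.of_injective L ?_
  rw [← LinearMap.ker_eq_bot, LinearMap.ker_eq_bot']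
  intro f h0
  have hf : IsV prof m f.1 := f.2
  have h1 : hf.memLp.toLp _ = 0 := congrArg Subtype.val h0
  have h2 : ∀ᵐ x ∂((volume : Measure ℍ).restrict 𝒟), f.1 x = 0 := by
    filter_upwards [hf.memLp.coeFn_toLp, Lp.coeFn_zero ℂ 2 ((volume : Measure ℍ).restrict 𝒟)] with x h3 h4
    rw [← h3, h1, h4]
    rfl
  apply Subtype.ext
  funext z
  have h3 := unfold_V prof_CKer hf z
  have h4 : ∫ w in 𝒟, (K prof z w : ℂ) * f.1 w = 0 := by
    rw [← integral_zero ℍ ℂ]
    refine integral_congr_ae ?_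
    filter_upwards [h2] with x hx
    rw [hx, mul_zero]
  rw [h4] at h3
  have h5 := h3.symm
  simpa [hm] using h5

end

end Pool.Agent.X291.MF
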