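import Pool.Agent.X291.MF.HCoef

/-!
# Pointwise Fourier expansion
-/

set_option autoImplicit false

open UpperHalfPlane MeasureTheory Set Filter Topology Function
open scoped MatrixGroups Modular ENNReal Pointwise ContDiff

namespace Pool.Agent.X291.MF

noncomputable section

variable {f : ℍ → ℂ} {lam : ℂ} {a : ℕ → ℂ} {ν : ℂ}

lemma fourier_sum {g : ℝ → ℂ} (hg : Continuous g) (hp : Function.Periodic g 1)
    (hs : Summable fun n : ℤ => ∫ x in (0 : ℝ)..1, g x * ee n x) (x : ℝ) :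
    HasSum (fun n : ℤ => (∫ x in (0 : ℝ)..1, g x * ee n x) * ee (-n) x) (g x) := by
  have : Fact ((0 : ℝ) < 1) := ⟨one_pos⟩
  let F : C(AddCircle (1 : ℝ), ℂ) := ⟨hp.lift, by
    exact continuous_coinduced_dom.2 hg⟩
  have hc : ∀ n : ℤ, fourierCoeff F n = ∫ x in (0 : ℝ)..1, g x * ee n x := by
    intro n
    rw [fourierCoeff_eq_intervalIntegral (F : AddCircle (1 : ℝ) → ℂ) n 0, zero_add]
    simp only [div_one, one_smul]
    refine intervalIntegral.integral_congr fun x _ => ?_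
    rw [fourier_coe_apply, smul_eq_mul, mul_comm]
    congr 1
    unfold ee
    congr 1
    push_cast
    ring
  have hs' : Summable (fourierCoeff F) := by
    refine hs.congr fun n => ?_
    rw [hc]
  have h1 := has_pointwise_sum_fourier_series_of_summable hs' (x : AddCircle (1 : ℝ))
  have h2 : F (x : AddCircle (1 : ℝ)) = g x := rfl
  rw [h2] at h1
  refine h1.congr_fun fun n => ?_
  rw [hc, fourier_coe_apply, smul_eq_mul]
  congr 1
  unfold ee
  congr 1
  push_cast
  ring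

lemma summable_nat (ν : ℂ) (k : ℕ) {y : ℝ} (hy : 0 < y) :
    Summable fun n : ℕ => (n : ℝ) ^ k * ‖WW ν (2 * Real.pi * n * y)‖ := by
  obtain ⟨C, hC0, hC⟩ := WW_decay ν
  have hπ := Real.pi_pos
  have hr : ‖Real.exp (-(2 * Real.pi * y / 4))‖ < 1 := by
    rw [Real.norm_of_nonneg (Real.exp_pos _).le, Real.exp_lt_one_iff]
    have : 0 < 2 * Real.pi * y / 4 := by positivity
    linarith
  have h1 := (summable_pow_mul_geometric_of_norm_lt_one k hr).mul_left C
  refine Summable.of_norm_bounded_eventually_nat h1 ?_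
  filter_upwards [eventually_ge_atTop ⌈1 / (2 * Real.pi * y)⌉₊] with n hn
  have h2 : 1 ≤ 2 * Real.pi * n * y := by
    have h3 : 1 / (2 * Real.pi * y) ≤ n := Nat.ceil_le.1 hn
    rw [div_le_iff₀ (by positivity)] at h3
    linarith
  have h3 := hC _ h2
  rw [norm_mul, norm_pow, norm_norm, Real.norm_of_nonneg n.cast_nonneg]
  calc (n : ℝ) ^ k * ‖WW ν (2 * Real.pi * n * y)‖ ≤ (n : ℝ) ^ k * (C * Real.exp (-(2 * Real.pi * n * y / 4))) := by gcongr
    _ = C * ((n : ℝ) ^ k * Real.exp (-(2 * Real.pi * y / 4)) ^ n) := by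
        rw [← Real.exp_nat_mul]
        have : (n : ℝ) * -(2 * Real.pi * y / 4) = -(2 * Real.pi * n * y / 4) := by ring
        rw [this]; ring

lemma summable_int (ν : ℂ) (k : ℕ) {y : ℝ} (hy : 0 < y) {A : ℤ → ℂ} {C : ℝ} (hA : ∀ n, ‖A n‖ ≤ C) :
    Summable fun n : ℤ => (n : ℂ) ^ k * (A n * WW ν (2 * Real.pi * |(n : ℝ)| * y)) := by
  have h1 := (summable_nat ν k hy).mul_left C
  have hC0 : 0 ≤ C := (norm_nonneg _).trans (hA 0)
  rw [summable_int_iff_summable_nat_and_neg]
  constructor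
  · refine Summable.of_norm_bounded h1 fun n => ?_
    rw [norm_mul, norm_mul, norm_pow]
    simp only [Int.cast_natCast, Complex.norm_natCast, Nat.abs_cast]
    calc (n : ℝ) ^ k * (‖A n‖ * ‖WW ν (2 * Real.pi * n * y)‖) ≤ (n : ℝ) ^ k * (C * ‖WW ν (2 * Real.pi * n * y)‖) := by
          gcongr; exact hA _
      _ = _ := by ring
  · refine Summable.of_norm_bounded h1 fun n => ?_
    rw [norm_mul, norm_mul, norm_pow]
    simp only [Int.cast_neg, Int.cast_natCast, norm_neg, Complex.norm_natCast, abs_neg, Nat.abs_cast]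
    calc (n : ℝ) ^ k * (‖A (-n)‖ * ‖WW ν (2 * Real.pi * n * y)‖) ≤ (n : ℝ) ^ k * (C * ‖WW ν (2 * Real.pi * n * y)‖) := by
          gcongr; exact hA _
      _ = _ := by ring

lemma line_per {G : ℂ → ℂ} (hp : Per G) {y : ℝ} (hy : 0 < y) : Function.Periodic (fun x : ℝ => G (x + y * Complex.I)) 1 := by
  intro x
  simp only
  rw [← hp _ (xy_mem (x := x) hy)]
  congr 1
  push_cast; ring

/-- the Fourier expansion of the form -/
lemma FCoef.sum (hf : IsHeckeMaassForm f lam a) {A : ℤ → ℂ} (hA : FCoef f ν A) (x : ℝ) {y : ℝ} (hy : 0 < y) :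
    HasSum (fun n : ℤ => A n * WW ν (2 * Real.pi * |(n : ℝ)| * y) * ee (-n) x) (FF f (x + y * Complex.I)) := by
  have hs : ContDiffOn ℝ ∞ (FF f) UU := hf.smooth
  obtain ⟨C, _, hC⟩ := hA.bdd hf
  have h0 : ∀ n : ℤ, ∫ x in (0 : ℝ)..1, FF f (x + y * Complex.I) * ee n x = A n * WW ν (2 * Real.pi * |(n : ℝ)| * y) :=
    fun n => hA.eq n y hy
  have h1 : Summable fun n : ℤ => ∫ x in (0 : ℝ)..1, FF f (x + y * Complex.I) * ee n x := by
    refine (summable_int ν 0 hy hC).congr fun n => ?_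
    rw [h0, pow_zero, one_mul]
  have h2 := fourier_sum (cont_line_x hs hy) (line_per (FF_per hf.invariant) hy) h1 x
  refine h2.congr_fun fun n => ?_
  rw [h0]

/-- the Fourier expansion of the derivative -/
lemma FCoef.sum_x (hf : IsHeckeMaassForm f lam a) {A : ℤ → ℂ} (hA : FCoef f ν A) (x : ℝ) {y : ℝ} (hy : 0 < y) :
    HasSum (fun n : ℤ => 2 * Real.pi * Complex.I * n * (A n * WW ν (2 * Real.pi * |(n : ℝ)| * y)) * ee (-n) x)
      (Gx (FF f) (x + y * Complex.I)) := by
  have hs : ContDiffOn ℝ ∞ (FF f) UU := hf.smooth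
  have hp := FF_per hf.invariant
  obtain ⟨C, _, hC⟩ := hA.bdd hf
  have h0 : ∀ n : ℤ, ∫ x in (0 : ℝ)..1, Gx (FF f) (x + y * Complex.I) * ee n x =
      2 * Real.pi * Complex.I * n * (A n * WW ν (2 * Real.pi * |(n : ℝ)| * y)) := by
    intro n
    have := hint_Gx hs hp n hy
    rw [← hA.eq n y hy]
    exact this
  have h1 : Summable fun n : ℤ => ∫ x in (0 : ℝ)..1, Gx (FF f) (x + y * Complex.I) * ee n x := by
    refine ((summable_int ν 1 hy hC).mul_left (2 * Real.pi * Complex.I : ℂ)).congr fun n => ?_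
    rw [h0, pow_one]; ring
  have h2 := fourier_sum (cont_line_x (smooth_Gx hs) hy) (line_per (hp.x hs) hy) h1 x
  refine h2.congr_fun fun n => ?_
  rw [h0]

end

end Pool.Agent.X291.MF
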