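import Pool.Agent.X291.MF.Maass

/-!
# Fourier coefficients of Maass forms: the differential equation
-/

set_option autoImplicit false

open UpperHalfPlane MeasureTheory Set Filter Topology Function
open scoped MatrixGroups Modular ENNReal Pointwise ContDiff

namespace Pool.Agent.X291.MF

noncomputable section

/-- the open upper half plane in `ℂ` -/
abbrev UU : Set ℂ := {z : ℂ | 0 < z.im}

lemma isOpen_UU : IsOpen UU := isOpen_lt continuous_const Complex.continuous_im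

/-- partial derivatives -/
def Gx (G : ℂ → ℂ) (z : ℂ) : ℂ := fderiv ℝ G z 1
def Gy (G : ℂ → ℂ) (z : ℂ) : ℂ := fderiv ℝ G z Complex.I

lemma smooth_Gx {G : ℂ → ℂ} (hG : ContDiffOn ℝ ∞ G UU) : ContDiffOn ℝ ∞ (Gx G) UU :=
  (hG.fderiv_of_isOpen isOpen_UU (by simp)).clm_apply contDiffOn_const

lemma smooth_Gy {G : ℂ → ℂ} (hG : ContDiffOn ℝ ∞ G UU) : ContDiffOn ℝ ∞ (Gy G) UU :=
  (hG.fderiv_of_isOpen isOpen_UU (by simp)).clm_apply contDiffOn_const

lemma xy_mem {x y : ℝ} (hy : 0 < y) : ((x : ℂ) + y * Complex.I) ∈ UU := by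
  show 0 < ((x : ℂ) + y * Complex.I).im
  simpa using hy

lemma hasFDeriv {G : ℂ → ℂ} (hG : ContDiffOn ℝ ∞ G UU) {z : ℂ} (hz : z ∈ UU) :
    HasFDerivAt G (fderiv ℝ G z) z :=
  ((hG.contDiffAt (isOpen_UU.mem_nhds hz)).differentiableAt (by simp)).hasFDerivAt

lemma hasDeriv_Gx {G : ℂ → ℂ} (hG : ContDiffOn ℝ ∞ G UU) (x : ℝ) {y : ℝ} (hy : 0 < y) :
    HasDerivAt (fun s : ℝ => G (s + y * Complex.I)) (Gx G (x + y * Complex.I)) x := by
  have h1 : HasDerivAt (fun s : ℝ => ((s : ℂ) + y * Complex.I)) 1 x := by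
    simpa using (Complex.ofRealCLM.hasDerivAt (x := x)).add_const (y * Complex.I : ℂ)
  exact (hasFDeriv hG (xy_mem hy)).comp_hasDerivAt x h1

lemma hasDeriv_Gy {G : ℂ → ℂ} (hG : ContDiffOn ℝ ∞ G UU) (x : ℝ) {y : ℝ} (hy : 0 < y) :
    HasDerivAt (fun s : ℝ => G (x + s * Complex.I)) (Gy G (x + y * Complex.I)) y := by
  have h1 : HasDerivAt (fun s : ℝ => ((x : ℂ) + s * Complex.I)) Complex.I y := by
    simpa using ((Complex.ofRealCLM.hasDerivAt (x := y)).mul_const Complex.I).const_add (x : ℂ)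
  exact (hasFDeriv hG (xy_mem hy)).comp_hasDerivAt y h1

lemma cont_line_x {G : ℂ → ℂ} (hG : ContDiffOn ℝ ∞ G UU) {y : ℝ} (hy : 0 < y) :
    Continuous fun x : ℝ => G (x + y * Complex.I) :=
  continuous_iff_continuousAt.2 fun x => (hasDeriv_Gx hG x hy).continuousAt

/-- horizontal integrals -/
def hint (G : ℂ → ℂ) (e : ℝ → ℂ) (y : ℝ) : ℂ := ∫ x in (0 : ℝ)..1, G (x + y * Complex.I) * e x

lemma hasDeriv_hint {G : ℂ → ℂ} (hG : ContDiffOn ℝ ∞ G UU) {e : ℝ → ℂ} (he : Continuous e) {y : ℝ} (hy : 0 < y) :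
    HasDerivAt (hint G e) (hint (Gy G) e y) y := by
  have hGy := smooth_Gy hG
  have hS : IsCompact (Metric.closedBall y (y / 2)) := isCompact_closedBall _ _
  have hcont : ContinuousOn (fun p : ℝ × ℝ => Gy G (p.1 + p.2 * Complex.I) * e p.1)
      (Icc (0 : ℝ) 1 ×ˢ Metric.closedBall y (y / 2)) := by
    refine ContinuousOn.mul ?_ (by fun_prop)
    refine hGy.continuousOn.comp (f := fun p : ℝ × ℝ => ((p.1 : ℂ) + p.2 * Complex.I)) (by fun_prop) ?_
    rintro ⟨x, t⟩ ⟨_, ht⟩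
    exact xy_mem (ball_pos hy t ht)
  obtain ⟨C, hC⟩ := (isCompact_Icc.prod hS).exists_bound_of_continuousOn hcont
  have hpos := ball_pos hy
  refine (intervalIntegral.hasDerivAt_integral_of_dominated_loc_of_deriv_le (𝕜 := ℝ)
    (F := fun s x => G (x + s * Complex.I) * e x) (F' := fun s x => Gy G (x + s * Complex.I) * e x)
    (s := Metric.closedBall y (y / 2)) (bound := fun _ => C)
    (Metric.closedBall_mem_nhds y (by positivity)) ?_ ?_ ?_ ?_ ?_ ?_).2
  · filter_upwards [Ioi_mem_nhds hy] with s hs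
    exact ((cont_line_x hG hs).mul he).aestronglyMeasurable
  · exact ((cont_line_x hG hy).mul he).intervalIntegrable _ _
  · exact ((cont_line_x hGy hy).mul he).aestronglyMeasurable
  · refine Eventually.of_forall fun x hx s hs => ?_
    rw [uIoc_of_le zero_le_one] at hx
    exact hC (x, s) ⟨⟨hx.1.le, hx.2⟩, hs⟩
  · exact intervalIntegrable_const
  · refine Eventually.of_forall fun x _ s hs => ?_
    exact (hasDeriv_Gy hG x (hpos s hs)).mul_const _

/-- periodic functions -/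
def Per (G : ℂ → ℂ) : Prop := ∀ z ∈ UU, G (z + 1) = G z

lemma Per.x {G : ℂ → ℂ} (hG : ContDiffOn ℝ ∞ G UU) (hp : Per G) : Per (Gx G) := by
  intro z hz
  have hz' : 0 < z.im := hz
  have e1 : z = (z.re : ℂ) + z.im * Complex.I := (Complex.re_add_im z).symm
  have h1 := hasDeriv_Gx hG (z.re + 1) hz'
  have h2 := hasDeriv_Gx hG z.re hz'
  have h3 : HasDerivAt (fun s : ℝ => G (((s + 1 : ℝ) : ℂ) + z.im * Complex.I))
      (Gx G ((z.re + 1 : ℝ) + z.im * Complex.I)) z.re := by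
    have := HasDerivAt.comp_add_const (x := z.re) (a := 1)
      (f := fun s : ℝ => G ((s : ℂ) + z.im * Complex.I)) h1
    exact this
  have h4 : (fun s : ℝ => G (((s + 1 : ℝ) : ℂ) + z.im * Complex.I)) = fun s : ℝ => G ((s : ℂ) + z.im * Complex.I) := by
    funext s
    rw [← hp _ (xy_mem (x := s) hz')]
    congr 1
    push_cast; ring
  rw [h4] at h3
  have h5 := h3.unique h2
  rw [← e1] at h5
  rw [← h5]
  congr 1
  push_cast
  linear_combination e1

/-- exponentials -/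
def ee (n : ℤ) (x : ℝ) : ℂ := Complex.exp (-(2 * Real.pi * Complex.I * n * x))

lemma cont_ee (n : ℤ) : Continuous (ee n) := by unfold ee; fun_prop

lemma deriv_ee (n : ℤ) (x : ℝ) : HasDerivAt (ee n) (-(2 * Real.pi * Complex.I * n) * ee n x) x := by
  unfold ee
  have h1 : HasDerivAt (fun x : ℝ => -(2 * Real.pi * Complex.I * n * (x : ℂ))) (-(2 * Real.pi * Complex.I * n)) x := by
    exact (((Complex.ofRealCLM.hasDerivAt (x := x)).const_mul (2 * Real.pi * Complex.I * n : ℂ)).fun_neg).congr_deriv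
      (by simp)
  exact h1.cexp.congr_deriv (by ring)

lemma ee_zero (n : ℤ) : ee n 0 = 1 := by simp [ee]

lemma ee_one (n : ℤ) : ee n 1 = 1 := by
  rw [ee, Complex.exp_eq_one_iff]
  exact ⟨-n, by push_cast; ring⟩

lemma norm_ee (n : ℤ) (x : ℝ) : ‖ee n x‖ = 1 := by
  have : ee n x = Complex.exp (((-(2 * Real.pi * n * x) : ℝ) : ℂ) * Complex.I) := by
    unfold ee; congr 1; push_cast; ring
  rw [this, Complex.norm_exp_ofReal_mul_I]

lemma hint_Gx {G : ℂ → ℂ} (hG : ContDiffOn ℝ ∞ G UU) (hp : Per G) (n : ℤ) {y : ℝ} (hy : 0 < y) :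
    hint (Gx G) (ee n) y = 2 * Real.pi * Complex.I * n * hint G (ee n) y := by
  have h1 := intervalIntegral.integral_mul_deriv_eq_deriv_mul (a := 0) (b := 1)
    (u := fun x : ℝ => G (x + y * Complex.I)) (v := ee n)
    (u' := fun x : ℝ => Gx G (x + y * Complex.I)) (v' := fun x : ℝ => -(2 * Real.pi * Complex.I * n) * ee n x)
    (fun x _ => hasDeriv_Gx hG x hy) (fun x _ => deriv_ee n x)
    ((cont_line_x (smooth_Gx hG) hy).intervalIntegrable _ _)
    ((continuous_const.mul (cont_ee n)).intervalIntegrable _ _)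
  have h2 : G (((1 : ℝ) : ℂ) + y * Complex.I) = G (((0 : ℝ) : ℂ) + y * Complex.I) := by
    rw [← hp _ (xy_mem (x := 0) hy)]
    congr 1
    push_cast; ring
  simp only [h2, ee_one, ee_zero, sub_self, zero_sub] at h1
  have h3 : ∫ x in (0 : ℝ)..1, G (x + y * Complex.I) * (-(2 * Real.pi * Complex.I * n) * ee n x) =
      -(2 * Real.pi * Complex.I * n) * hint G (ee n) y := by
    unfold hint
    rw [← intervalIntegral.integral_const_mul]
    refine intervalIntegral.integral_congr fun x _ => ?_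
    ring
  rw [h3] at h1
  unfold hint at h1 ⊢
  linear_combination h1

variable {f : ℍ → ℂ} {lam : ℂ} {a : ℕ → ℂ}

/-- the function on `ℂ` -/
def FF (f : ℍ → ℂ) (z : ℂ) : ℂ := f (ofComplex z)

lemma FF_per (hinv : ∀ (γ : SL(2, ℤ)) z, f (γ • z) = f z) : Per (FF f) := by
  intro z hz
  have := inv_add hinv 1 hz
  simpa [FF] using this

lemma FF_pde (hf : IsHeckeMaassForm f lam a) (x : ℝ) {y : ℝ} (hy : 0 < y) :
    Gy (Gy (FF f)) (x + y * Complex.I) = - Gx (Gx (FF f)) (x + y * Complex.I) - lam / y ^ 2 * FF f (x + y * Complex.I) := by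
  have hs : ContDiffOn ℝ ∞ (FF f) UU := hf.smooth
  have h1 := hf.eigen (pt x y)
  rw [hypLaplacian, pt_re hy, pt_im hy] at h1
  have h2 : (fun t : ℝ => deriv (fun s : ℝ => f (ofComplex (s + y * Complex.I))) t) =
      fun t : ℝ => Gx (FF f) (t + y * Complex.I) := by
    funext t
    exact (hasDeriv_Gx hs t hy).deriv
  have h3 : (fun t : ℝ => deriv (fun s : ℝ => f (ofComplex (x + s * Complex.I))) t) =ᶠ[𝓝 y]
      fun t : ℝ => Gy (FF f) (x + t * Complex.I) := by
    filter_upwards [Ioi_mem_nhds hy] with t ht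
    exact (hasDeriv_Gy hs x ht).deriv
  rw [h2, h3.deriv_eq, (hasDeriv_Gx (smooth_Gx hs) x hy).deriv, (hasDeriv_Gy (smooth_Gy hs) x hy).deriv, pt_add] at h1
  have hyc : (y : ℂ) ≠ 0 := by exact_mod_cast hy.ne'
  have h4 : FF f (x + y * Complex.I) = f (ofComplex (x + y * Complex.I)) := rfl
  rw [h4]
  field_simp
  linear_combination -h1

/-- Fourier coefficients -/
def cf (f : ℍ → ℂ) (n : ℤ) (y : ℝ) : ℂ := hint (FF f) (ee n) y
def cf' (f : ℍ → ℂ) (n : ℤ) (y : ℝ) : ℂ := hint (Gy (FF f)) (ee n) y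

lemma cf_d1 (hf : IsHeckeMaassForm f lam a) (n : ℤ) {y : ℝ} (hy : 0 < y) :
    HasDerivAt (cf f n) (cf' f n y) y := hasDeriv_hint hf.smooth (cont_ee n) hy

lemma cf_d2 (hf : IsHeckeMaassForm f lam a) (n : ℤ) {y : ℝ} (hy : 0 < y) :
    HasDerivAt (cf' f n) (((2 * Real.pi * n) ^ 2 - lam / y ^ 2) * cf f n y) y := by
  have hs : ContDiffOn ℝ ∞ (FF f) UU := hf.smooth
  have hp := FF_per hf.invariant
  have h1 := hasDeriv_hint (smooth_Gy hs) (cont_ee n) hy
  refine h1.congr_deriv ?_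
  have h2 : hint (Gy (Gy (FF f))) (ee n) y = - hint (Gx (Gx (FF f))) (ee n) y - lam / y ^ 2 * hint (FF f) (ee n) y := by
    unfold hint
    rw [← intervalIntegral.integral_const_mul, ← intervalIntegral.integral_neg, ← intervalIntegral.integral_sub]
    · refine intervalIntegral.integral_congr fun x _ => ?_
      rw [FF_pde hf x hy]
      ring
    · exact (((cont_line_x (smooth_Gx (smooth_Gx hs)) hy).mul (cont_ee n)).neg).intervalIntegrable _ _
    · exact (continuous_const.mul ((cont_line_x hs hy).mul (cont_ee n))).intervalIntegrable _ _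
  rw [h2, hint_Gx (smooth_Gx hs) (hp.x hs) n hy, hint_Gx hs hp n hy]
  unfold cf
  linear_combination (-4 * (Real.pi : ℂ) ^ 2 * n ^ 2 * hint (FF f) (ee n) y) * Complex.I_sq

lemma cf_bdd (hf : IsHeckeMaassForm f lam a) : ∃ C, 0 ≤ C ∧ ∀ (n : ℤ) (y : ℝ), ‖cf f n y‖ ≤ C := by
  obtain ⟨C, hC⟩ := hf.bounded
  refine ⟨C, (norm_nonneg _).trans (hC (ofComplex 0)), fun n y => ?_⟩
  unfold cf hint
  have := intervalIntegral.norm_integral_le_of_norm_le_const (a := 0) (b := 1) (C := C)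
    (f := fun x : ℝ => FF f (x + y * Complex.I) * ee n x) (fun x _ => by
      rw [norm_mul, norm_ee, mul_one]; exact hC _)
  simpa using this

end

end Pool.Agent.X291.MF
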