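import Pool.Agent.X291.MF.Eig

/-!
# Invariant integral operators commute (Gelfand's trick)
-/

set_option autoImplicit false

open UpperHalfPlane MeasureTheory Set Filter Topology Function
open scoped MatrixGroups Modular ENNReal Pointwise

namespace Pool.Agent.X291.MF

noncomputable section

/-- an isometry exchanging two points -/
lemma exists_swap (z w : ℍ) : ∃ g : GL (Fin 2) ℝ, g • z = w ∧ g • w = z := by
  have hz := z.im_pos
  have hw := w.im_pos
  set a := z.re * w.im + w.re * z.im with ha
  set b := -(z.im * w.im * (z.im + w.im)) - z.re * z.re * w.im - w.re * w.re * z.im with hb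
  set c := z.im + w.im with hc
  have hdet : (!![a, b; c, -a]).det = z.im * w.im * ((z.im + w.im) ^ 2 + (z.re - w.re) ^ 2) := by
    rw [Matrix.det_fin_two_of, ha, hb, hc]; ring
  have hpos : 0 < (!![a, b; c, -a]).det := by
    rw [hdet]; positivity
  refine ⟨Matrix.GeneralLinearGroup.mkOfDetNeZero !![a, b; c, -a] hpos.ne', ?_, ?_⟩
  · apply UpperHalfPlane.ext
    rw [coe_smul_of_det_pos (by simpa [Matrix.GeneralLinearGroup.mkOfDetNeZero] using hpos)]
    rw [div_eq_iff (denom_ne_zero _ _)]
    simp only [num, denom, Matrix.GeneralLinearGroup.mkOfDetNeZero]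
    apply Complex.ext
    · simp [ha, hb, hc]; ring
    · simp [ha, hb, hc]; ring
  · apply UpperHalfPlane.ext
    rw [coe_smul_of_det_pos (by simpa [Matrix.GeneralLinearGroup.mkOfDetNeZero] using hpos)]
    rw [div_eq_iff (denom_ne_zero _ _)]
    simp only [num, denom, Matrix.GeneralLinearGroup.mkOfDetNeZero]
    apply Complex.ext
    · simp [ha, hb, hc]; ring
    · simp [ha, hb, hc]; ring

/-- the invariant integral operator -/
def Tc (φ : ℝ → ℝ) (f : ℍ → ℂ) (z : ℍ) : ℂ := ∫ w, (φ (D z w) : ℂ) * f w

variable {φ ψ : ℝ → ℝ} {R R' : ℝ}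

lemma Tc_smul (g : GL (Fin 2) ℝ) (f : ℍ → ℂ) (z : ℍ) : Tc φ f (g • z) = Tc φ (fun w => f (g • w)) z := by
  unfold Tc
  have h1 := (measurePreserving_smul g (volume : Measure ℍ)).integral_comp
    (Homeomorph.smul g).measurableEmbedding (fun w => (φ (D (g • z) w) : ℂ) * f w)
  rw [← h1]
  simp only [D_smul]

lemma int_row_const (φ : ℝ → ℝ) (z w : ℍ) : ∫ u, |φ (D z u)| = ∫ u, |φ (D w u)| := by
  obtain ⟨g, h1, h2⟩ := exists_swap z w
  have h3 := (measurePreserving_smul g (volume : Measure ℍ)).integral_comp
    (Homeomorph.smul g).measurableEmbedding (fun u => |φ (D z u)|)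
  rw [← h3]
  refine integral_congr_ae (Eventually.of_forall fun u => ?_)
  simp only
  rw [← h2, D_smul]

lemma gelfand (φ ψ : ℝ → ℝ) (z w : ℍ) :
    ∫ u, ((φ (D z u) : ℂ) * ψ (D u w)) = ∫ u, ((ψ (D z u) : ℂ) * φ (D u w)) := by
  obtain ⟨g, h1, h2⟩ := exists_swap z w
  have h3 := (measurePreserving_smul g (volume : Measure ℍ)).integral_comp
    (Homeomorph.smul g).measurableEmbedding (fun u => ((φ (D z u) : ℂ) * ψ (D u w)))
  rw [← h3]
  refine integral_congr_ae (Eventually.of_forall fun u => ?_)
  simp only
  have e1' : D z (g • u) = D u w := by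
    calc D z (g • u) = D (g • w) (g • u) := by rw [h2]
      _ = D u w := by rw [D_smul, D_comm]
  have e2' : D (g • u) w = D z u := by
    calc D (g • u) w = D (g • u) (g • z) := by rw [h1]
      _ = D z u := by rw [D_smul, D_comm]
  rw [e1', e2']
  ring

lemma CKer.bdd (h : CKer φ R) : ∃ C, 0 ≤ C ∧ ∀ t, 0 ≤ t → |φ t| ≤ C := by
  obtain ⟨C, hC⟩ := (isCompact_Icc (a := (0 : ℝ)) (b := R)).exists_bound_of_continuousOn h.cont.continuousOn
  refine ⟨|C|, abs_nonneg C, fun t ht => ?_⟩
  by_cases h1 : t ≤ R
  · exact (hC t ⟨ht, h1⟩).trans (le_abs_self C)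
  · push Not at h1
    rw [h.supp t h1]; simp

lemma Tc_cont (h : CKer φ R) {f : ℍ → ℂ} (hf : Continuous f) : Continuous (Tc φ f) := by
  obtain ⟨C, hC0, hC⟩ := h.bdd
  rw [continuous_iff_continuousAt]
  intro z
  have hK : IsCompact (Metric.closedBall z (Real.sqrt R + 1)) := isCompact_closedBall _ _
  obtain ⟨B, hB⟩ := hK.exists_bound_of_continuousOn hf.continuousOn
  have hB0 : 0 ≤ B := (norm_nonneg _).trans (hB z (Metric.mem_closedBall_self (by positivity)))
  refine continuousAt_of_dominated (bound := (Metric.closedBall z (Real.sqrt R + 1)).indicator fun _ => C * B) ?_ ?_ ?_ ?_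
  · refine Eventually.of_forall fun z' => ?_
    exact ((Complex.continuous_ofReal.comp (h.row_cont z')).mul hf).aestronglyMeasurable
  · filter_upwards [Metric.closedBall_mem_nhds z one_pos] with z' hz'
    refine Eventually.of_forall fun w => ?_
    by_cases hw : w ∈ Metric.closedBall z (Real.sqrt R + 1)
    · rw [indicator_of_mem hw, norm_mul, Complex.norm_real]
      exact mul_le_mul (hC _ (D_nonneg _ _)) (hB w hw) (norm_nonneg _) hC0
    · rw [indicator_of_notMem hw]
      have : φ (D z' w) = 0 := by
        apply h.supp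
        by_contra hcon
        push Not at hcon
        apply hw
        have h1 := dist_le_of_D_le hcon
        rw [Metric.mem_closedBall] at hz' ⊢
        have h2 := dist_triangle w z' z
        rw [dist_comm w z'] at h2
        linarith
      rw [this]; simp
  · rw [integrable_indicator_iff hK.measurableSet]
    exact integrableOn_const hK.measure_lt_top.ne
  · refine Eventually.of_forall fun w => ?_
    refine Continuous.continuousAt ?_
    exact (Complex.continuous_ofReal.comp (h.cont.comp (continuous_D.comp
      (continuous_id.prodMk continuous_const)))).mul continuous_const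

/-- **invariant operators commute** -/
theorem Tc_comm (h : CKer φ R) (h' : CKer ψ R') {f : ℍ → ℂ} (hf : Continuous f) (z : ℍ) :
    Tc φ (Tc ψ f) z = Tc ψ (Tc φ f) z := by
  have key : ∀ (φ ψ : ℝ → ℝ) (R R' : ℝ), CKer φ R → CKer ψ R' → Tc φ (Tc ψ f) z =
      ∫ w, (∫ u, ((φ (D z u) : ℂ) * ψ (D u w))) * f w := by
    intro φ ψ R R' h h'
    have hcont : Continuous fun p : ℍ × ℍ => (φ (D z p.1) : ℂ) * ψ (D p.1 p.2) * f p.2 := by
      refine Continuous.mul (Continuous.mul ?_ ?_) (hf.comp continuous_snd)
      · exact Complex.continuous_ofReal.comp ((h.row_cont z).comp continuous_fst)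
      · exact Complex.continuous_ofReal.comp (h'.cont.comp continuous_D)
    have hsupp : HasCompactSupport fun p : ℍ × ℍ => (φ (D z p.1) : ℂ) * ψ (D p.1 p.2) * f p.2 := by
      refine HasCompactSupport.intro ((isCompact_closedBall z (Real.sqrt R)).prod
        (isCompact_closedBall z (Real.sqrt R + Real.sqrt R'))) ?_
      rintro ⟨u, w⟩ huw
      simp only
      by_contra hne
      have h1 : φ (D z u) ≠ 0 := by
        intro h0; apply hne; rw [h0]; simp
      have h2 : ψ (D u w) ≠ 0 := by
        intro h0; apply hne; rw [h0]; simp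
      have h3 : D z u ≤ R := by
        by_contra hcon; push Not at hcon; exact h1 (h.supp _ hcon)
      have h4 : D u w ≤ R' := by
        by_contra hcon; push Not at hcon; exact h2 (h'.supp _ hcon)
      have h5 := dist_le_of_D_le h3
      have h6 := dist_le_of_D_le h4
      apply huw
      refine ⟨?_, ?_⟩
      · rw [Metric.mem_closedBall, dist_comm]; exact h5
      · rw [Metric.mem_closedBall, dist_comm]
        exact (dist_triangle z u w).trans (add_le_add h5 h6)
    have hint := hcont.integrable_of_hasCompactSupport (μ := (volume : Measure ℍ).prod (volume : Measure ℍ)) hsupp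
    have h1 : Tc φ (Tc ψ f) z = ∫ u, ∫ w, (φ (D z u) : ℂ) * ψ (D u w) * f w := by
      unfold Tc
      refine integral_congr_ae (Eventually.of_forall fun u => ?_)
      simp only
      rw [← integral_const_mul]
      refine integral_congr_ae (Eventually.of_forall fun w => ?_)
      simp only
      ring
    rw [h1, integral_integral_swap hint]
    refine integral_congr_ae (Eventually.of_forall fun w => ?_)
    simp only
    rw [← integral_mul_const]
  rw [key φ ψ R R' h h', key ψ φ R' R h' h]
  refine integral_congr_ae (Eventually.of_forall fun w => ?_)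
  simp only
  rw [gelfand]

/-- an invariant operator preserves the eigenspace -/
theorem Tc_mem (h : CKer ψ R') {m : ℂ} {f : ℍ → ℂ} (hf : IsV prof m f) : IsV prof m (Tc ψ f) := by
  obtain ⟨C, hC⟩ := hf.bdd
  refine ⟨Tc_cont h hf.cont, ⟨C * ∫ u, |ψ (D z0 u)|, fun z => ?_⟩, fun γ z => ?_, fun z => ?_, fun z => ?_⟩
  · rw [← int_row_const ψ z z0, ← integral_const_mul]
    refine norm_integral_le_of_norm_le ?_ (Eventually.of_forall fun w => ?_)
    · refine Integrable.const_mul ?_ C
      refine (Continuous.integrable_of_hasCompactSupport (h.row_cont z) (h.row_supp z)).abs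
    · rw [norm_mul, Complex.norm_real, mul_comm, Real.norm_eq_abs]
      exact mul_le_mul_of_nonneg_right (hC w) (abs_nonneg _)
  · rw [ModularGroup.sl_moeb, Tc_smul]
    congr 1
    funext w
    rw [← ModularGroup.sl_moeb, hf.inv]
  · rw [Tc_smul]
    have : (fun w => f (J • w)) = fun w => - f w := by funext w; rw [hf.odd]
    rw [this]
    unfold Tc
    rw [← integral_neg]
    refine integral_congr_ae (Eventually.of_forall fun w => ?_)
    simp
  · have h1 := Tc_comm prof_CKer h hf.cont z
    have h2 : Tc prof f = fun z => m * f z := by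
      funext z; exact hf.eig z
    rw [h2] at h1
    refine h1.trans ?_
    unfold Tc
    rw [← integral_const_mul]
    refine integral_congr_ae (Eventually.of_forall fun w => ?_)
    simp only
    ring

end

end Pool.Agent.X291.MF
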