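import Mathlib

/-!
# Point-pair invariants on the upper half-plane

`D z w = |z - w|^2 / (Im z Im w)`, its invariance under `GL(2, ℝ)`, and basic estimates.
-/

set_option autoImplicit false

open UpperHalfPlane MeasureTheory Set Filter Topology
open scoped MatrixGroups

namespace Pool.Agent.X291.MF

noncomputable section

/-- `D z w = |z - w|² / (Im z Im w) = 2 cosh (dist z w) - 2` -/
def D (z w : ℍ) : ℝ := ‖(z : ℂ) - w‖ ^ 2 / (z.im * w.im)

lemma D_nonneg (z w : ℍ) : 0 ≤ D z w := by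
  unfold D
  have := z.im_pos
  have := w.im_pos
  positivity

lemma D_eq_cosh (z w : ℍ) : D z w = 2 * Real.cosh (dist z w) - 2 := by
  rw [UpperHalfPlane.cosh_dist, D, dist_eq_norm]
  have := z.im_pos
  have := w.im_pos
  field_simp
  ring

lemma D_comm (z w : ℍ) : D z w = D w z := by
  rw [D_eq_cosh, D_eq_cosh, dist_comm]

lemma D_smul (g : GL (Fin 2) ℝ) (z w : ℍ) : D (g • z) (g • w) = D z w := by
  have hz : denom g z ≠ 0 := denom_ne_zero g z
  have hw : denom g w ≠ 0 := denom_ne_zero g w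
  have hd : (g.det.val : ℝ) ≠ 0 := g.det.ne_zero
  have h1 : ‖((g • z : ℍ) : ℂ) - (g • w : ℍ)‖ = |g.det.val| * ‖(z : ℂ) - w‖ / (‖denom g z‖ * ‖denom g w‖) := by
    rw [UpperHalfPlane.coe_smul, UpperHalfPlane.coe_smul, ← map_sub, norm_σ, div_sub_div _ _ hz hw, norm_div, norm_mul]
    congr 1
    have h2 : num g z * denom g w - denom g z * num g w = (g.det.val : ℂ) * ((z : ℂ) - w) := by
      have h3 : g.det.val = g 0 0 * g 1 1 - g 0 1 * g 1 0 := by
        rw [Matrix.GeneralLinearGroup.val_det_apply, Matrix.det_fin_two]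
      rw [h3]
      simp only [num, denom]
      push_cast
      ring
    rw [h2, norm_mul, Complex.norm_real, Real.norm_eq_abs]
  unfold D
  rw [h1, im_smul_eq_div_normSq, im_smul_eq_div_normSq, Complex.normSq_eq_norm_sq, Complex.normSq_eq_norm_sq]
  have h4 : ‖denom g z‖ ≠ 0 := norm_ne_zero_iff.2 hz
  have h5 : ‖denom g w‖ ≠ 0 := norm_ne_zero_iff.2 hw
  have h6 : |g.det.val| ≠ 0 := abs_ne_zero.2 hd
  have := z.im_pos
  have := w.im_pos
  field_simp

lemma D_SL (g : SL(2, ℤ)) (z w : ℍ) : D (g • z) (g • w) = D z w := by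
  rw [ModularGroup.sl_moeb, ModularGroup.sl_moeb, D_smul]

lemma D_J (z w : ℍ) : D (J • z) (J • w) = D z w := D_smul J z w

lemma J_J (z : ℍ) : J • J • z = z := by
  rw [← mul_smul, ← sq, J_sq, one_smul]

@[fun_prop]
lemma continuous_D : Continuous (fun p : ℍ × ℍ => D p.1 p.2) := by
  unfold D
  refine Continuous.div (by fun_prop) (by fun_prop) fun p => ?_
  have := p.1.im_pos
  have := p.2.im_pos
  positivity

lemma D_self (z : ℍ) : D z z = 0 := by simp [D]

/-- comparison of imaginary parts -/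
lemma im_ratio_le (z w : ℍ) : z.im / w.im ≤ D z w + 2 := by
  have hz := z.im_pos
  have hw := w.im_pos
  have h1 : (z.im - w.im) ^ 2 ≤ ‖(z : ℂ) - w‖ ^ 2 := by
    have := Complex.abs_im_le_norm ((z : ℂ) - w)
    rw [Complex.sub_im] at this
    have h2 := abs_nonneg ((z : ℂ).im - (w : ℂ).im)
    calc (z.im - w.im) ^ 2 = |(z : ℂ).im - (w : ℂ).im| ^ 2 := by rw [sq_abs]; rfl
      _ ≤ _ := by gcongr
  have h3 : (z.im - w.im) ^ 2 / (z.im * w.im) ≤ D z w := by
    unfold D; gcongr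
  have h4 : (z.im - w.im) ^ 2 / (z.im * w.im) = z.im / w.im + w.im / z.im - 2 := by
    field_simp; ring
  have h5 : 0 < w.im / z.im := by positivity
  linarith

lemma im_ratio_le' (z w : ℍ) : w.im / z.im ≤ D z w + 2 := by
  rw [D_comm]; exact im_ratio_le w z

lemma one_add_sq_le_cosh {x : ℝ} (hx : 0 ≤ x) : 1 + x ^ 2 / 2 ≤ Real.cosh x := by
  have h1 : Real.cosh x = 1 + 2 * Real.sinh (x / 2) ^ 2 := by
    have h := Real.cosh_two_mul (x / 2)
    rw [Real.cosh_sq] at h
    rw [show 2 * (x / 2) = x by ring] at h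
    rw [h]; ring
  have h2 : x / 2 ≤ Real.sinh (x / 2) := Real.self_le_sinh_iff.2 (by positivity)
  have h3 : (x / 2) ^ 2 ≤ Real.sinh (x / 2) ^ 2 := by gcongr
  rw [h1]
  nlinarith

/-- a sublevel set of `D z` is contained in a closed ball -/
lemma dist_le_of_D_le {z w : ℍ} {r : ℝ} (h : D z w ≤ r) : dist z w ≤ Real.sqrt r := by
  have h0 : 0 ≤ r := (D_nonneg z w).trans h
  by_contra hlt
  push Not at hlt
  have h1 := D_eq_cosh z w
  have h2 : 1 + (dist z w) ^ 2 / 2 ≤ Real.cosh (dist z w) := one_add_sq_le_cosh dist_nonneg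
  have h3 : r < (dist z w) ^ 2 := by
    have := Real.sqrt_nonneg r
    calc r = Real.sqrt r ^ 2 := (Real.sq_sqrt h0).symm
      _ < _ := by gcongr
  linarith

end

end Pool.Agent.X291.MF
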