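import Pool.Agent.X291.MF.Coef

/-!
# Hecke relations for the Fourier coefficients
-/

set_option autoImplicit false

open UpperHalfPlane MeasureTheory Set Filter Topology Function
open scoped MatrixGroups Modular ENNReal Pointwise ContDiff

namespace Pool.Agent.X291.MF

noncomputable section

variable {f : ℍ → ℂ} {lam : ℂ} {a : ℕ → ℂ} {ν : ℂ}

lemma per_sum {G : ℝ → ℂ} (hG : Continuous G) (p : ℕ) :
    ∑ b ∈ Finset.range p, ∫ x in (0 : ℝ)..1, G (x + b) = ∫ x in (0 : ℝ)..p, G x := by
  have h1 := intervalIntegral.sum_integral_adjacent_intervals (f := G) (μ := volume) (a := fun k : ℕ => (k : ℝ))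
    (n := p) (fun k _ => hG.intervalIntegrable _ _)
  rw [Nat.cast_zero] at h1
  rw [← h1]
  refine Finset.sum_congr rfl fun b _ => ?_
  rw [intervalIntegral.integral_comp_add_right]
  congr 1
  · ring
  · push_cast; ring

lemma ee_add_nat (n : ℤ) (x : ℝ) (b : ℕ) : ee n (x + b) = ee n x := by
  unfold ee
  rw [Complex.exp_eq_exp_iff_exists_int]
  exact ⟨-(n * b), by push_cast; ring⟩

lemma ee_mul_nat (n : ℤ) (x : ℝ) (p : ℕ) : ee n (p * x) = ee (p * n) x := by
  unfold ee; congr 1; push_cast; ring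

lemma ee_add (n : ℤ) (x y : ℝ) : ee n (x + y) = ee n x * ee n y := by
  unfold ee; rw [← Complex.exp_add]; congr 1; push_cast; ring

lemma ee_nat (n : ℤ) (x : ℝ) (b : ℕ) : ee n (b * x) = ee n x ^ b := by
  unfold ee; rw [← Complex.exp_nat_mul]; congr 1; push_cast; ring

lemma geom_zero {p : ℕ} (hp : 0 < p) {n : ℤ} (hn : ¬ (p : ℤ) ∣ n) :
    ∑ b ∈ Finset.range p, ee n (b / p) = 0 := by
  have hp' : (p : ℝ) ≠ 0 := by exact_mod_cast hp.ne'
  have h1 : ∀ b : ℕ, ee n (b / p) = ee n (1 / p) ^ b := by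
    intro b
    rw [← ee_nat]; congr 1; field_simp
  simp only [h1]
  have h2 : ee n (1 / p) ≠ 1 := by
    unfold ee
    rw [Ne, Complex.exp_eq_one_iff]
    rintro ⟨k, hk⟩
    apply hn
    refine ⟨-k, ?_⟩
    have hpc : (p : ℂ) ≠ 0 := by exact_mod_cast hp.ne'
    have h3 : (2 * Real.pi * Complex.I : ℂ) ≠ 0 := by
      simp [Real.pi_ne_zero]
    have h4 : (2 * Real.pi * Complex.I : ℂ) * n = (2 * Real.pi * Complex.I : ℂ) * (p * -k) := by
      push_cast at hk
      field_simp at hk
      linear_combination (-(2 * Real.pi * Complex.I : ℂ)) * hk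
    have h5 := mul_left_cancel₀ h3 h4
    exact_mod_cast h5
  have h3 : ee n (1 / p) ^ p = 1 := by
    rw [← ee_nat]
    have : (p : ℝ) * (1 / p) = 1 := by field_simp
    rw [this, ee_one]
  have h4 := mul_geom_sum (ee n (1 / p)) p
  rw [h3, sub_self] at h4
  exact (mul_eq_zero.1 h4).resolve_left (sub_ne_zero.2 h2)

lemma hcA (hf : IsHeckeMaassForm f lam a) {p : ℕ} (hp : 0 < p) (n : ℤ) {y : ℝ} (hy : 0 < y) :
    ∑ b ∈ Finset.range p, ∫ x in (0 : ℝ)..1, FF f ((x + y * Complex.I + b) / p) * ee n x =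
      p * cf f (p * n) (y / p) := by
  have hs : ContDiffOn ℝ ∞ (FF f) UU := hf.smooth
  have hp' : (p : ℝ) ≠ 0 := by exact_mod_cast hp.ne'
  have hpc : (p : ℂ) ≠ 0 := by exact_mod_cast hp.ne'
  have hpp : (0 : ℝ) < p := by exact_mod_cast hp
  have hyp : 0 < y / p := by positivity
  have hG : Continuous fun x : ℝ => FF f ((x / p : ℝ) + (y / p : ℝ) * Complex.I) * ee n x := by
    refine Continuous.mul ?_ (cont_ee n)
    exact (cont_line_x hs hyp).comp (continuous_id.div_const _)
  have h1 := per_sum hG p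
  have h2 : ∀ b : ℕ, ∫ x in (0 : ℝ)..1, FF f ((x + y * Complex.I + b) / p) * ee n x =
      ∫ x in (0 : ℝ)..1, FF f (((x + b) / p : ℝ) + (y / p : ℝ) * Complex.I) * ee n (x + b) := by
    intro b
    refine intervalIntegral.integral_congr fun x _ => ?_
    rw [ee_add_nat]
    congr 2
    push_cast
    field_simp
    ring
  simp only [h2]
  rw [h1]
  have h3 := intervalIntegral.integral_comp_mul_left (fun x : ℝ => FF f ((x / p : ℝ) + (y / p : ℝ) * Complex.I) * ee n x)
    hp' (a := 0) (b := 1)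
  rw [mul_zero, mul_one] at h3
  unfold cf hint
  have h4 : ∫ x in (0 : ℝ)..1, FF f (x + (y / p : ℝ) * Complex.I) * ee (p * n) x =
      ∫ x in (0 : ℝ)..1, FF f (((p * x) / p : ℝ) + (y / p : ℝ) * Complex.I) * ee n (p * x) := by
    refine intervalIntegral.integral_congr fun x _ => ?_
    rw [ee_mul_nat, mul_div_cancel_left₀ _ hp']
  rw [h4, h3, Complex.real_smul]
  push_cast
  field_simp

lemma hcB (hf : IsHeckeMaassForm f lam a) {p : ℕ} (hp : 0 < p) (n : ℤ) {y : ℝ} (hy : 0 < y) :
    ∫ x in (0 : ℝ)..1, FF f (p * (x + y * Complex.I)) * ee n x =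
      if (p : ℤ) ∣ n then cf f (n / p) (p * y) else 0 := by
  have hs : ContDiffOn ℝ ∞ (FF f) UU := hf.smooth
  have hper := FF_per hf.invariant
  have hp' : (p : ℝ) ≠ 0 := by exact_mod_cast hp.ne'
  have hpc : (p : ℂ) ≠ 0 := by exact_mod_cast hp.ne'
  have hpp : (0 : ℝ) < p := by exact_mod_cast hp
  have hyp : 0 < p * y := by positivity
  have hG : Continuous fun x : ℝ => FF f (x + (p * y : ℝ) * Complex.I) * ee n (x / p) := by
    refine Continuous.mul (cont_line_x hs hyp) ((cont_ee n).comp (continuous_id.div_const _))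
  have h3 := intervalIntegral.integral_comp_mul_left (fun x : ℝ => FF f (x + (p * y : ℝ) * Complex.I) * ee n (x / p))
    hp' (a := 0) (b := 1)
  rw [mul_zero, mul_one] at h3
  have h4 : ∫ x in (0 : ℝ)..1, FF f (p * (x + y * Complex.I)) * ee n x =
      ∫ x in (0 : ℝ)..1, FF f ((p * x : ℝ) + (p * y : ℝ) * Complex.I) * ee n ((p * x) / p) := by
    refine intervalIntegral.integral_congr fun x _ => ?_
    rw [mul_div_cancel_left₀ _ hp']
    congr 2
    push_cast; ring
  rw [h4, h3, ← per_sum hG p]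
  have hperb : ∀ (b : ℕ) (x : ℝ), FF f (((x + b : ℝ) : ℂ) + (p * y : ℝ) * Complex.I) = FF f ((x : ℂ) + (p * y : ℝ) * Complex.I) := by
    intro b x
    have := inv_add hf.invariant b (xy_mem (x := x) hyp)
    unfold FF
    rw [← this]
    congr 2
    push_cast; ring
  have h5 : ∀ b : ℕ, ∫ x in (0 : ℝ)..1, FF f (((x + b : ℝ) : ℂ) + (p * y : ℝ) * Complex.I) * ee n ((x + b) / p) =
      ee n (b / p) * ∫ x in (0 : ℝ)..1, FF f ((x : ℂ) + (p * y : ℝ) * Complex.I) * ee n (x / p) := by
    intro b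
    rw [← intervalIntegral.integral_const_mul]
    refine intervalIntegral.integral_congr fun x _ => ?_
    rw [hperb, add_div, ee_add]
    ring
  simp only [h5]
  rw [← Finset.sum_mul]
  split_ifs with hdvd
  · obtain ⟨m, rfl⟩ := hdvd
    have h6 : ∀ b : ℕ, ee (p * m) (b / p) = 1 := by
      intro b
      rw [← ee_mul_nat, mul_div_cancel₀ _ hp']
      have := ee_add_nat m 0 b
      rw [zero_add, ee_zero] at this
      exact this
    simp only [h6, Finset.sum_const, Finset.card_range, nsmul_eq_mul, mul_one]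
    rw [Int.mul_ediv_cancel_left _ (by exact_mod_cast hp.ne')]
    unfold cf hint
    rw [Complex.real_smul]
    have h7 : ∫ x in (0 : ℝ)..1, FF f ((x : ℂ) + (p * y : ℝ) * Complex.I) * ee (p * m) (x / p) =
        ∫ x in (0 : ℝ)..1, FF f ((x : ℂ) + (p * y : ℝ) * Complex.I) * ee m x := by
      refine intervalIntegral.integral_congr fun x _ => ?_
      rw [← ee_mul_nat, mul_div_cancel₀ _ hp']
    rw [h7]
    push_cast
    field_simp
  · rw [geom_zero hp hdvd, zero_mul, smul_zero]

lemma hecke_cf (hf : IsHeckeMaassForm f lam a) {p : ℕ} (hp : p.Prime) (n : ℤ) {y : ℝ} (hy : 0 < y) :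
    a p * cf f n y = (Real.sqrt p : ℂ)⁻¹ * ((if (p : ℤ) ∣ n then cf f (n / p) (p * y) else 0) +
      p * cf f (p * n) (y / p)) := by
  have hs : ContDiffOn ℝ ∞ (FF f) UU := hf.smooth
  rw [← hcA hf hp.pos n hy, ← hcB hf hp.pos n hy]
  unfold cf hint
  have hp' : (p : ℝ) ≠ 0 := by exact_mod_cast hp.pos.ne'
  have hpc : (p : ℂ) ≠ 0 := by exact_mod_cast hp.pos.ne'
  have hpp : (0 : ℝ) < p := by exact_mod_cast hp.pos
  have hc1 : Continuous fun x : ℝ => FF f (p * (x + y * Complex.I)) * ee n x := by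
    have h1 : (fun x : ℝ => FF f (p * (x + y * Complex.I))) = fun x : ℝ => FF f ((p * x : ℝ) + (p * y : ℝ) * Complex.I) := by
      funext x; congr 1; push_cast; ring
    refine Continuous.mul ?_ (cont_ee n)
    rw [h1]
    exact (cont_line_x hs (show 0 < p * y by positivity)).comp (continuous_const.mul continuous_id)
  have hc2 : ∀ b : ℕ, Continuous fun x : ℝ => FF f ((x + y * Complex.I + b) / p) * ee n x := by
    intro b
    have h1 : (fun x : ℝ => FF f ((x + y * Complex.I + b) / p)) = fun x : ℝ => FF f (((x + b) / p : ℝ) + (y / p : ℝ) * Complex.I) := by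
      funext x; congr 1; push_cast; field_simp; ring
    refine Continuous.mul ?_ (cont_ee n)
    rw [h1]
    exact (cont_line_x hs (show 0 < y / p by positivity)).comp ((continuous_id.add continuous_const).div_const _)
  rw [← intervalIntegral.integral_const_mul, ← intervalIntegral.integral_finsetSum (fun b _ => (hc2 b).intervalIntegrable _ _),
    ← intervalIntegral.integral_add (hc1.intervalIntegrable _ _)
      ((continuous_finsetSum _ fun b _ => hc2 b).intervalIntegrable _ _), ← intervalIntegral.integral_const_mul]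
  refine intervalIntegral.integral_congr fun x _ => ?_
  have h1 := hf.hecke p hp (ofComplex (x + y * Complex.I))
  rw [heckeT, coe_ofComplex (xy_mem (x := x) hy)] at h1
  unfold FF
  rw [← mul_assoc, ← h1, ← Finset.sum_mul]
  ring

/-- the Hecke relation for the coefficients -/
lemma FCoef.hecke (hf : IsHeckeMaassForm f lam a) {A : ℤ → ℂ} (hA : FCoef f ν A) {p : ℕ} (hp : p.Prime)
    {n : ℤ} (hn : n ≠ 0) :
    a p * A n = (Real.sqrt p : ℂ)⁻¹ * ((if (p : ℤ) ∣ n then A (n / p) else 0) + p * A (p * n)) := by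
  have hpp : (0 : ℝ) < p := by exact_mod_cast hp.pos
  have hκ0 : 0 < 2 * Real.pi * |(n : ℝ)| := by
    have : (n : ℝ) ≠ 0 := by exact_mod_cast hn
    have := Real.pi_pos
    positivity
  refine WW_surj_unique (ν := ν) hκ0 fun y hy => ?_
  have h1 := hecke_cf hf hp n hy
  rw [hA.eq _ _ hy, hA.eq _ _ (show 0 < y / p by positivity)] at h1
  have e1 : 2 * Real.pi * |((p * n : ℤ) : ℝ)| * (y / p) = 2 * Real.pi * |(n : ℝ)| * y := by
    push_cast
    rw [abs_mul, abs_of_pos hpp]
    field_simp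
  rw [e1] at h1
  rw [mul_assoc, h1]
  split_ifs with hdvd
  · rw [hA.eq _ _ (show 0 < p * y by positivity)]
    obtain ⟨m, rfl⟩ := hdvd
    rw [Int.mul_ediv_cancel_left _ (by exact_mod_cast hp.pos.ne')]
    have e2 : 2 * Real.pi * |(m : ℝ)| * (p * y) = 2 * Real.pi * |((p * m : ℤ) : ℝ)| * y := by
      push_cast
      rw [abs_mul, abs_of_pos hpp]
      ring
    rw [e2]
    ring
  · ring

end

end Pool.Agent.X291.MF
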