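import Pool.Agent.X291.MF.Lap
import Pool.Agent.X291.MF.Defs

/-!
# Hecke operators on odd invariant functions
-/

set_option autoImplicit false

open UpperHalfPlane MeasureTheory Set Filter Topology Function
open scoped MatrixGroups Modular ENNReal Pointwise ContDiff

namespace Pool.Agent.X291.MF

noncomputable section

lemma coe_ofComplex {z : ℂ} (hz : 0 < z.im) : ((ofComplex z : ℍ) : ℂ) = z := by
  rw [ofComplex_apply_of_im_pos hz]

/-- an integral matrix of determinant one -/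
def mkSL (a b c d : ℤ) (h : a * d - b * c = 1) : SL(2, ℤ) :=
  ⟨!![a, b; c, d], by rw [Matrix.det_fin_two_of]; exact h⟩

lemma coe_mkSL (a b c d : ℤ) (h : a * d - b * c = 1) (z : ℍ) :
    ((mkSL a b c d h • z : ℍ) : ℂ) = (a * z + b) / (c * z + d) := by
  rw [UpperHalfPlane.coe_specialLinearGroup_apply]
  simp [mkSL]

lemma inv_apply {f : ℍ → ℂ} (hinv : ∀ (γ : SL(2, ℤ)) z, f (γ • z) = f z) {a b c d : ℤ}
    (hdet : a * d - b * c = 1) {z : ℂ} (hz : 0 < z.im) :
    f (ofComplex ((a * z + b) / (c * z + d))) = f (ofComplex z) := by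
  have h1 := hinv (mkSL a b c d hdet) (ofComplex z)
  rw [← h1]
  congr 1
  have h2 := coe_mkSL a b c d hdet (ofComplex z)
  rw [coe_ofComplex hz] at h2
  rw [← h2, ofComplex_apply]

lemma inv_add {f : ℍ → ℂ} (hinv : ∀ (γ : SL(2, ℤ)) z, f (γ • z) = f z) (n : ℤ) {z : ℂ} (hz : 0 < z.im) :
    f (ofComplex (z + n)) = f (ofComplex z) := by
  have := inv_apply hinv (a := 1) (b := n) (c := 0) (d := 1) (by ring) hz
  simpa using this

lemma inv_S {f : ℍ → ℂ} (hinv : ∀ (γ : SL(2, ℤ)) z, f (γ • z) = f z) {z : ℂ} (hz : 0 < z.im) :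
    f (ofComplex (-1 / z)) = f (ofComplex z) := by
  have := inv_apply hinv (a := 0) (b := -1) (c := 1) (d := 0) (by ring) hz
  simpa using this

lemma odd_apply {f : ℍ → ℂ} (hodd : ∀ z, f (J • z) = - f z) {z : ℂ} (hz : 0 < z.im) :
    f (ofComplex (-(starRingEnd ℂ) z)) = - f (ofComplex z) := by
  rw [← hodd]
  congr 1
  apply UpperHalfPlane.ext
  rw [coe_J_smul, coe_ofComplex hz, coe_ofComplex (by simpa using hz)]

lemma exists_zmod {p : ℕ} [NeZero p] (h : ℤ → ℂ) (hp : ∀ n, h (n + p) = h n) :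
    ∃ H : ZMod p → ℂ, (∀ n : ℤ, H n = h n) ∧ ∑ b ∈ Finset.range p, h b = ∑ β, H β := by
  have hper : Function.Periodic h (p : ℤ) := hp
  refine ⟨fun β => h (β.val : ℤ), fun n => ?_, ?_⟩
  · simp only
    rw [ZMod.val_intCast]
    have h1 := hper.int_mul (n / p) (n % p)
    rw [← h1]
    congr 1
    simp only [Int.cast_id]
    rw [mul_comm]; exact Int.emod_add_mul_ediv n p
  · obtain ⟨k, rfl⟩ : ∃ k, p = k + 1 := ⟨p - 1, by have := NeZero.ne p; omega⟩
    rw [Finset.sum_range]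
    rfl

/-- affine maps -/
def aff (a b : ℝ) (ha : a ≠ 0) : GL (Fin 2) ℝ :=
  Matrix.GeneralLinearGroup.mkOfDetNeZero !![a, b; 0, 1] (by simpa [Matrix.det_fin_two_of] using ha)

lemma coe_aff {a b : ℝ} (ha : 0 < a) (z : ℍ) : ((aff a b ha.ne' • z : ℍ) : ℂ) = a * z + b := by
  rw [coe_smul_of_det_pos]
  · simp [aff, num, denom, Matrix.GeneralLinearGroup.mkOfDetNeZero]
  · simpa [aff, Matrix.GeneralLinearGroup.mkOfDetNeZero] using ha

lemma aff_eq {a b : ℝ} (ha : 0 < a) (z : ℍ) : ofComplex (a * z + b) = aff a b ha.ne' • z := by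
  apply UpperHalfPlane.ext
  rw [coe_aff ha, coe_ofComplex]
  have : ((a : ℂ) * z + b).im = a * z.im := by simp
  rw [this]
  exact mul_pos ha z.im_pos

variable {f : ℍ → ℂ} {m : ℂ} {p : ℕ}

lemma hecke_aff (hp : 0 < p) (f : ℍ → ℂ) (z : ℍ) :
    heckeT p f z = (Real.sqrt p : ℂ)⁻¹ * (f (aff p 0 (by positivity) • z) +
      ∑ b ∈ Finset.range p, f (aff (1 / p) (b / p) (by positivity) • z)) := by
  have hp' : (0 : ℝ) < p := by exact_mod_cast hp
  have hpc : (p : ℂ) ≠ 0 := by exact_mod_cast hp.ne'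
  unfold heckeT
  congr 2
  · rw [← aff_eq hp']; congr 2; push_cast; ring
  · refine Finset.sum_congr rfl fun b _ => ?_
    rw [← aff_eq (show (0 : ℝ) < 1 / p by positivity)]; congr 2; push_cast; field_simp

lemma sum_shift_neg [NeZero p] {h : ℤ → ℂ} (hp : ∀ n, h (n + p) = h n) :
    ∑ b ∈ Finset.range p, h (-b) = ∑ b ∈ Finset.range p, h b := by
  obtain ⟨H, h1, h2⟩ := exists_zmod h hp
  obtain ⟨H', h1', h2'⟩ := exists_zmod (p := p) (fun n => h (-n)) (fun n => by
    have := hp (-(n + p))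
    rw [← this]; congr 1; ring)
  rw [h2, h2', ← Equiv.sum_comp (Equiv.neg (ZMod p)) H]
  refine Finset.sum_congr rfl fun β _ => ?_
  obtain ⟨n, rfl⟩ := ZMod.intCast_surjective β
  rw [h1', Equiv.neg_apply, ← Int.cast_neg, h1]

lemma sum_shift_one [NeZero p] {h : ℤ → ℂ} (hp : ∀ n, h (n + p) = h n) :
    ∑ b ∈ Finset.range p, h (b + 1) = ∑ b ∈ Finset.range p, h b := by
  obtain ⟨H, h1, h2⟩ := exists_zmod h hp
  obtain ⟨H', h1', h2'⟩ := exists_zmod (p := p) (fun n => h (n + 1)) (fun n => by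
    rw [← hp (n + 1)]; congr 1; ring)
  rw [h2, h2', ← Equiv.sum_comp (Equiv.addRight (1 : ZMod p)) H]
  refine Finset.sum_congr rfl fun β _ => ?_
  obtain ⟨n, rfl⟩ := ZMod.intCast_surjective β
  rw [h1', Equiv.coe_addRight]
  have := h1 (n + 1)
  push_cast at this
  exact this.symm

lemma sum_shift_mul [NeZero p] {h : ℤ → ℂ} (hp : ∀ n, h (n + p) = h n) {q : ℕ} (hq : Nat.Coprime q p) :
    ∑ b ∈ Finset.range p, h (q * b) = ∑ b ∈ Finset.range p, h b := by
  have hper : Function.Periodic h (p : ℤ) := hp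
  obtain ⟨H, h1, h2⟩ := exists_zmod h hp
  obtain ⟨H', h1', h2'⟩ := exists_zmod (p := p) (fun n => h (q * n)) (fun n => by
    have := hper.nat_mul q (q * n)
    rw [← this]; congr 1; push_cast; ring)
  rw [h2, h2']
  have hu : IsUnit (q : ZMod p) := (ZMod.isUnit_iff_coprime q p).2 hq
  obtain ⟨u, hu⟩ := hu
  have hsum : ∑ β, H (Units.mulLeft u β) = ∑ β, H β := Equiv.sum_comp (Units.mulLeft u) H
  rw [← hsum]
  refine Finset.sum_congr rfl fun β _ => ?_
  obtain ⟨n, rfl⟩ := ZMod.intCast_surjective β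
  rw [h1', Units.mulLeft_apply, hu, ← h1]
  push_cast
  rfl

lemma im_div_pos {z : ℂ} (hz : 0 < z.im) (b : ℤ) (hp : 0 < p) : 0 < ((z + b) / p).im := by
  have hp' : (0 : ℝ) < p := by exact_mod_cast hp
  have : ((z + b) / p).im = z.im / p := by
    rw [show ((p : ℕ) : ℂ) = ((p : ℝ) : ℂ) by push_cast; rfl, Complex.div_ofReal_im]; simp
  rw [this]; positivity

lemma im_mul_pos {z : ℂ} (hz : 0 < z.im) (hp : 0 < p) : 0 < ((p : ℂ) * z).im := by
  have hp' : (0 : ℝ) < p := by exact_mod_cast hp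
  have : ((p : ℂ) * z).im = p * z.im := by
    rw [show ((p : ℕ) : ℂ) = ((p : ℝ) : ℂ) by push_cast; rfl, Complex.re_ofReal_mul |> fun _ => Complex.im_ofReal_mul]
  rw [this]; positivity

lemma im_neg_inv {z : ℂ} (hz : 0 < z.im) : 0 < (-1 / z).im := by
  rw [neg_div, one_div, Complex.neg_im, Complex.inv_im]
  have hz0 : z ≠ 0 := by rintro rfl; simp at hz
  have := Complex.normSq_pos.2 hz0
  rw [neg_div, neg_neg]
  positivity

/-- the terms of the Hecke operator are periodic -/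
lemma term_per (hinv : ∀ (γ : SL(2, ℤ)) z, f (γ • z) = f z) (hp : 0 < p) {z : ℂ} (hz : 0 < z.im) (n : ℤ) :
    f (ofComplex ((z + ((n + p : ℤ) : ℂ)) / p)) = f (ofComplex ((z + (n : ℂ)) / p)) := by
  have h1 := inv_add hinv 1 (im_div_pos hz n hp)
  rw [← h1]
  congr 2
  have hpc : (p : ℂ) ≠ 0 := by exact_mod_cast hp.ne'
  push_cast
  field_simp
  ring

lemma hecke_sum_eq (f : ℍ → ℂ) (z : ℍ) : heckeT p f z = (Real.sqrt p : ℂ)⁻¹ * (f (ofComplex (p * z)) +
    ∑ b ∈ Finset.range p, (fun n : ℤ => f (ofComplex (((z : ℂ) + (n : ℂ)) / p))) b) := by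
  unfold heckeT
  simp

lemma hecke_T (hinv : ∀ (γ : SL(2, ℤ)) z, f (γ • z) = f z) (hp : 0 < p) (z : ℍ) :
    heckeT p f (ModularGroup.T • z) = heckeT p f z := by
  have : NeZero p := ⟨hp.ne'⟩
  have hcoe : ((ModularGroup.T • z : ℍ) : ℂ) = z + 1 := by
    rw [UpperHalfPlane.modular_T_smul, coe_vadd]; push_cast; ring
  rw [hecke_sum_eq, hecke_sum_eq, hcoe]
  congr 2
  · have h1 := inv_add hinv p (im_mul_pos z.im_pos hp (z := z))
    rw [← h1]
    congr 2
    push_cast
    ring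
  · rw [← sum_shift_one (h := fun n : ℤ => f (ofComplex (((z : ℂ) + (n : ℂ)) / p)))
      (fun n => term_per hinv hp z.im_pos n)]
    refine Finset.sum_congr rfl fun b _ => ?_
    simp only
    congr 3
    push_cast
    ring

lemma hecke_S (hinv : ∀ (γ : SL(2, ℤ)) z, f (γ • z) = f z) (hp : p.Prime) (z : ℍ) :
    heckeT p f (ModularGroup.S • z) = heckeT p f z := by
  have : NeZero p := ⟨hp.pos.ne'⟩
  have : Fact p.Prime := ⟨hp⟩
  have hz := z.im_pos
  have hz0 : (z : ℂ) ≠ 0 := z.ne_zero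
  have hpc : (p : ℂ) ≠ 0 := by exact_mod_cast hp.pos.ne'
  have hcoe : ((ModularGroup.S • z : ℍ) : ℂ) = -1 / z := by
    rw [UpperHalfPlane.modular_S_smul, UpperHalfPlane.coe_mk, inv_neg, neg_div, one_div]
  rw [hecke_sum_eq, hecke_sum_eq, hcoe]
  congr 1
  have hz' := im_neg_inv (z := (z : ℂ)) hz
  obtain ⟨H, h1, h2⟩ := exists_zmod (p := p) (fun n : ℤ => f (ofComplex (((z : ℂ) + (n : ℂ)) / p)))
    (fun n => term_per hinv hp.pos hz n)
  obtain ⟨H', h1', h2'⟩ := exists_zmod (p := p) (fun n : ℤ => f (ofComplex ((-1 / (z : ℂ) + (n : ℂ)) / p)))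
    (fun n => term_per hinv hp.pos hz' n)
  rw [h2, h2']
  -- values at zero
  have e0 : f (ofComplex (p * (-1 / (z : ℂ)))) = H 0 := by
    have := h1 0
    rw [Int.cast_zero] at this
    rw [this]
    have h3 := inv_S hinv (im_div_pos (p := p) hz 0 hp.pos)
    rw [← h3]
    congr 2
    simp only [Int.cast_zero, add_zero]
    field_simp
  have e0' : H' 0 = f (ofComplex (p * (z : ℂ))) := by
    have := h1' 0
    rw [Int.cast_zero] at this
    rw [this]
    have h3 := inv_S hinv (im_mul_pos (p := p) hz hp.pos)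
    rw [← h3]
    congr 2
    simp only [Int.cast_zero, add_zero]
    field_simp
  -- values elsewhere
  have e1 : ∀ β : ZMod p, β ≠ 0 → H' β = H (-β⁻¹) := by
    intro β hβ
    obtain ⟨b, rfl⟩ := ZMod.intCast_surjective β
    obtain ⟨b', hb'⟩ := ZMod.intCast_surjective (-((b : ZMod p))⁻¹)
    rw [← hb', h1, h1']
    have h3 : ((b * b' + 1 : ℤ) : ZMod p) = 0 := by
      push_cast
      rw [hb']
      field_simp
      ring
    rw [ZMod.intCast_zmod_eq_zero_iff_dvd] at h3
    obtain ⟨k, hk⟩ := h3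
    have h4 := inv_apply hinv (a := b) (b := -k) (c := p) (d := -b') (by linarith) (im_div_pos (p := p) hz b' hp.pos)
    rw [← h4]
    congr 2
    have hk' : (b : ℂ) * b' + 1 = p * k := by exact_mod_cast hk
    have h5 : (p : ℂ) * ((z + b') / p) + -b' = z := by field_simp; ring
    push_cast
    rw [h5]
    field_simp
    linear_combination (-1 : ℂ) * hk'
  rw [e0, ← Finset.add_sum_erase Finset.univ H' (Finset.mem_univ 0), ← Finset.add_sum_erase Finset.univ H (Finset.mem_univ 0), e0']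
  have e2 : ∑ β ∈ Finset.univ.erase 0, H' β = ∑ β ∈ Finset.univ.erase 0, H β := by
    refine Finset.sum_nbij' (fun β => -β⁻¹) (fun β => -β⁻¹) ?_ ?_ ?_ ?_ ?_
    · intro β hβ
      simp only [Finset.mem_erase, Finset.mem_univ, and_true] at hβ ⊢
      simpa using hβ
    · intro β hβ
      simp only [Finset.mem_erase, Finset.mem_univ, and_true] at hβ ⊢
      simpa using hβ
    · intro β _; simp
    · intro β _; simp
    · intro β hβ
      simp only [Finset.mem_erase, Finset.mem_univ, and_true] at hβ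
      exact e1 β hβ
  rw [e2]
  ring

lemma hecke_inv (hinv : ∀ (γ : SL(2, ℤ)) z, f (γ • z) = f z) (hp : p.Prime) (γ : SL(2, ℤ)) (z : ℍ) :
    heckeT p f (γ • z) = heckeT p f z := by
  let G : Subgroup SL(2, ℤ) :=
    { carrier := {γ | ∀ z, heckeT p f (γ • z) = heckeT p f z}
      mul_mem' := fun {a b} ha hb z => by rw [mul_smul, ha, hb]
      one_mem' := fun z => by rw [one_smul]
      inv_mem' := fun {a} ha z => by
        have := ha (a⁻¹ • z)
        rw [smul_inv_smul] at this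
        exact this.symm }
  have h1 : Subgroup.closure {ModularGroup.S, ModularGroup.T} ≤ G := by
    rw [Subgroup.closure_le]
    rintro γ (rfl | rfl)
    · exact fun z => hecke_S hinv hp z
    · exact fun z => hecke_T hinv hp.pos z
  have h2 : γ ∈ Subgroup.closure {ModularGroup.S, ModularGroup.T} := by
    simp [SpecialLinearGroup.SL2Z_generators]
  exact h1 h2 z

lemma hecke_odd (hinv : ∀ (γ : SL(2, ℤ)) z, f (γ • z) = f z) (hodd : ∀ z, f (J • z) = - f z) (hp : 0 < p)
    (z : ℍ) : heckeT p f (J • z) = - heckeT p f z := by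
  have : NeZero p := ⟨hp.ne'⟩
  rw [hecke_sum_eq, hecke_sum_eq, coe_J_smul, ← mul_neg, neg_add]
  congr 2
  · rw [← odd_apply hodd (im_mul_pos z.im_pos hp (z := z))]
    congr 2
    simp
  · rw [← sum_shift_neg (h := fun n : ℤ => f (ofComplex (((z : ℂ) + (n : ℂ)) / p)))
      (fun n => term_per hinv hp z.im_pos n), ← Finset.sum_neg_distrib]
    refine Finset.sum_congr rfl fun b _ => ?_
    simp only
    have := im_div_pos (z := (z : ℂ)) (p := p) z.im_pos (-(b : ℤ)) hp
    rw [← odd_apply hodd this]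
    congr 2
    simp only [map_div₀, map_add, Int.cast_neg, map_neg, map_intCast, map_natCast]
    push_cast
    ring

theorem hecke_mem (hp : p.Prime) (hf : IsV prof m f) : IsV prof m (heckeT p f) := by
  obtain ⟨C, hC⟩ := hf.bdd
  have hpos := hp.pos
  have hcb : ∀ (g : GL (Fin 2) ℝ), Continuous fun z : ℍ => f (g • z) := fun g =>
    hf.cont.comp (continuous_const_smul g)
  refine ⟨?_, ⟨‖(Real.sqrt p : ℂ)⁻¹‖ * (C + ∑ b ∈ Finset.range p, C), fun z => ?_⟩, hecke_inv hf.inv hp,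
    hecke_odd hf.inv hf.odd hpos, fun z => ?_⟩
  · have : heckeT p f = fun z => (Real.sqrt p : ℂ)⁻¹ * (f (aff p 0 (by positivity) • z) +
      ∑ b ∈ Finset.range p, f (aff (1 / p) (b / p) (by positivity) • z)) := by
      funext z; exact hecke_aff hpos f z
    rw [this]
    exact continuous_const.mul ((hcb _).add (continuous_finsetSum _ fun b _ => hcb _))
  · unfold heckeT
    rw [norm_mul]
    refine mul_le_mul_of_nonneg_left ?_ (norm_nonneg _)
    refine (norm_add_le _ _).trans (add_le_add (hC _) ?_)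
    exact (norm_sum_le _ _).trans (Finset.sum_le_sum fun b _ => hC _)
  · have h1 : ∀ g : GL (Fin 2) ℝ, ∫ w, (prof (D z w) : ℂ) * f (g • w) = m * f (g • z) := by
      intro g
      have h2 := Tc_smul (φ := prof) g f z
      unfold Tc at h2
      rw [← h2, hf.eig]
    have hi : ∀ g : GL (Fin 2) ℝ, Integrable fun w => (prof (D z w) : ℂ) * f (g • w) := fun g =>
      prof_CKer.int z (hcb g)
    simp only [hecke_aff hpos]
    have e1 : ∀ w, (prof (D z w) : ℂ) * ((Real.sqrt p : ℂ)⁻¹ * (f (aff p 0 (by positivity) • w) +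
      ∑ b ∈ Finset.range p, f (aff (1 / p) (b / p) (by positivity) • w))) =
      (Real.sqrt p : ℂ)⁻¹ * ((prof (D z w) : ℂ) * f (aff p 0 (by positivity) • w) +
        ∑ b ∈ Finset.range p, (prof (D z w) : ℂ) * f (aff (1 / p) (b / p) (by positivity) • w)) := by
      intro w
      rw [← Finset.mul_sum]; ring
    simp only [e1]
    rw [integral_const_mul, integral_add (hi _) (integrable_finsetSum _ fun b _ => hi _),
      integral_finsetSum _ (fun b _ => hi _), h1]
    simp only [h1]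
    rw [← Finset.mul_sum]
    ring

end

end Pool.Agent.X291.MF
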