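import Pool.Agent.X291.MF.Hecke

/-!
# Existence of a joint eigenfunction
-/

set_option autoImplicit false

open UpperHalfPlane MeasureTheory Set Filter Topology Function
open scoped MatrixGroups Modular ENNReal Pointwise ContDiff

namespace Pool.Agent.X291.MF

noncomputable section

variable {f : ℍ → ℂ} {m : ℂ} {p q : ℕ}

lemma sum_range_prod (g : ℕ → ℂ) (p q : ℕ) :
    ∑ a ∈ Finset.range p, ∑ b ∈ Finset.range q, g (a + p * b) = ∑ n ∈ Finset.range (p * q), g n := by
  have h1 : ∑ n ∈ Finset.range (q * p), g n = ∑ i : Fin (q * p), g i := Finset.sum_range _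
  rw [mul_comm p q, h1, ← Equiv.sum_comp finProdFinEquiv (fun i : Fin (q * p) => g i), Fintype.sum_prod_type,
    Finset.sum_comm, Finset.sum_range]
  refine Finset.sum_congr rfl fun b _ => ?_
  rw [Finset.sum_range]
  refine Finset.sum_congr rfl fun a _ => ?_
  rfl

lemma hecke_ofComplex (f : ℍ → ℂ) {w : ℂ} (hw : 0 < w.im) : heckeT p f (ofComplex w) =
    (Real.sqrt p : ℂ)⁻¹ * (f (ofComplex (p * w)) + ∑ b ∈ Finset.range p, f (ofComplex ((w + b) / p))) := by
  unfold heckeT
  rw [coe_ofComplex hw]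

lemma hecke_hecke (hinv : ∀ (γ : SL(2, ℤ)) z, f (γ • z) = f z) (hp : 0 < p) (hq : 0 < q)
    (hpq : Nat.Coprime p q) (z : ℍ) :
    heckeT p (heckeT q f) z = (Real.sqrt p : ℂ)⁻¹ * (Real.sqrt q : ℂ)⁻¹ *
      (f (ofComplex ((p * q : ℕ) * z)) + ∑ b ∈ Finset.range q, f (ofComplex ((p * z + b) / q)) +
       ∑ a ∈ Finset.range p, f (ofComplex ((q * z + a) / p)) +
       ∑ n ∈ Finset.range (p * q), f (ofComplex ((z + n) / (p * q : ℕ)))) := by
  have : NeZero p := ⟨hp.ne'⟩
  have hz := z.im_pos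
  have hpc : (p : ℂ) ≠ 0 := by exact_mod_cast hp.ne'
  have hqc : (q : ℂ) ≠ 0 := by exact_mod_cast hq.ne'
  rw [heckeT, hecke_ofComplex f (im_mul_pos hz hp)]
  have h1 : ∀ a : ℕ, heckeT q f (ofComplex (((z : ℂ) + a) / p)) = (Real.sqrt q : ℂ)⁻¹ *
      (f (ofComplex ((q * z + (q * a : ℤ)) / p)) + ∑ b ∈ Finset.range q,
        f (ofComplex ((z + (a + p * b : ℕ)) / (p * q : ℕ)))) := by
    intro a
    have h2 := im_div_pos (z := (z : ℂ)) (p := p) hz (a : ℤ) hp
    rw [Int.cast_natCast] at h2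
    rw [hecke_ofComplex f h2]
    congr 2
    · congr 2; push_cast; field_simp
    · refine Finset.sum_congr rfl fun b _ => ?_
      congr 2; push_cast; field_simp; ring
  simp only [h1]
  rw [← Finset.mul_sum, Finset.sum_add_distrib,
    sum_range_prod (fun n => f (ofComplex (((z : ℂ) + (n : ℕ)) / (p * q : ℕ)))) p q]
  have hz2 : 0 < ((q : ℂ) * (z : ℂ)).im := im_mul_pos hz hq
  have h3 := sum_shift_mul (p := p) (h := fun n : ℤ => f (ofComplex (((q : ℂ) * z + (n : ℂ)) / p)))
    (fun n => term_per hinv hp hz2 n) hpq.symm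
  simp only [Int.cast_natCast] at h3
  rw [h3]
  have h4 : f (ofComplex ((q : ℂ) * (p * z))) = f (ofComplex ((p * q : ℕ) * z)) := by
    congr 2; push_cast; ring
  rw [h4]
  ring

lemma hecke_comm (hinv : ∀ (γ : SL(2, ℤ)) z, f (γ • z) = f z) (hp : p.Prime) (hq : q.Prime) (z : ℍ) :
    heckeT p (heckeT q f) z = heckeT q (heckeT p f) z := by
  by_cases h : p = q
  · rw [h]
  · have h1 : Nat.Coprime p q := (Nat.coprime_primes hp hq).2 h
    rw [hecke_hecke hinv hp.pos hq.pos h1, hecke_hecke hinv hq.pos hp.pos h1.symm, mul_comm p q]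
    ring

/-- Hecke operators commute with invariant integral operators -/
lemma hecke_Tc {ψ : ℝ → ℝ} {R : ℝ} (h : CKer ψ R) (hf : Continuous f) (hp : 0 < p) (z : ℍ) :
    Tc ψ (heckeT p f) z = heckeT p (Tc ψ f) z := by
  have hcb : ∀ (g : GL (Fin 2) ℝ), Continuous fun z : ℍ => f (g • z) := fun g =>
    hf.comp (continuous_const_smul g)
  have h1 : ∀ g : GL (Fin 2) ℝ, ∫ w, (ψ (D z w) : ℂ) * f (g • w) = Tc ψ f (g • z) := by
    intro g
    rw [Tc_smul]; rfl
  have hi : ∀ g : GL (Fin 2) ℝ, Integrable fun w => (ψ (D z w) : ℂ) * f (g • w) := fun g =>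
    h.int z (hcb g)
  rw [hecke_aff hp, Tc]
  simp only [hecke_aff hp]
  have e1 : ∀ w, (ψ (D z w) : ℂ) * ((Real.sqrt p : ℂ)⁻¹ * (f (aff p 0 (by positivity) • w) +
    ∑ b ∈ Finset.range p, f (aff (1 / p) (b / p) (by positivity) • w))) =
    (Real.sqrt p : ℂ)⁻¹ * ((ψ (D z w) : ℂ) * f (aff p 0 (by positivity) • w) +
      ∑ b ∈ Finset.range p, (ψ (D z w) : ℂ) * f (aff (1 / p) (b / p) (by positivity) • w)) := by
    intro w
    rw [← Finset.mul_sum]; ring
  simp only [e1]
  rw [integral_const_mul, integral_add (hi _) (integrable_finsetSum _ fun b _ => hi _),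
    integral_finsetSum _ (fun b _ => hi _), h1]
  simp only [h1]

/-- a commuting family of endomorphisms has a joint eigenvector -/
theorem exists_joint {ι : Type*} : ∀ (n : ℕ) (E : Type) [AddCommGroup E] [Module ℂ E] [FiniteDimensional ℂ E]
    [Nontrivial E] (T : ι → Module.End ℂ E), (∀ i j, Commute (T i) (T j)) → Module.finrank ℂ E = n →
    ∃ v : E, v ≠ 0 ∧ ∀ i, ∃ c : ℂ, T i v = c • v := by
  intro n
  induction n using Nat.strong_induction_on with
  | _ n ih =>
    intro E _ _ _ _ T hT hn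
    by_cases h : ∀ i, ∃ c : ℂ, ∀ v, T i v = c • v
    · obtain ⟨v, hv⟩ := exists_ne (0 : E)
      refine ⟨v, hv, fun i => ?_⟩
      obtain ⟨c, hc⟩ := h i
      exact ⟨c, hc v⟩
    · push Not at h
      obtain ⟨i, hi⟩ := h
      obtain ⟨c, hc⟩ := Module.End.exists_eigenvalue (T i)
      set W := Module.End.eigenspace (T i) c with hW
      have hWne : W ≠ ⊥ := hc
      have hWt : W ≠ ⊤ := by
        intro htop
        obtain ⟨v, hv⟩ := hi c
        apply hv
        have : v ∈ W := by rw [htop]; trivial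
        exact Module.End.mem_eigenspace_iff.1 this
      have hinvW : ∀ j, ∀ v ∈ W, T j v ∈ W := by
        intro j v hv
        rw [hW, Module.End.mem_eigenspace_iff] at hv ⊢
        have h1 := LinearMap.congr_fun (hT i j).eq v
        simp only [Module.End.mul_apply] at h1
        rw [h1, hv, map_smul]
      have : Nontrivial W := Submodule.nontrivial_iff_ne_bot.2 hWne
      have hlt : Module.finrank ℂ W < n := by
        rw [← hn]
        exact Submodule.finrank_lt hWt
      obtain ⟨v, hv, hv2⟩ := ih _ hlt W (fun j => (T j).restrict (hinvW j)) (by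
        intro j k
        refine LinearMap.ext fun w => Subtype.ext ?_
        have h1 := LinearMap.congr_fun (hT j k).eq w.1
        simpa using h1) rfl
      refine ⟨v.1, fun h0 => hv (Subtype.ext h0), fun j => ?_⟩
      obtain ⟨d, hd⟩ := hv2 j
      exact ⟨d, congrArg Subtype.val hd⟩

lemma prof_deriv : ∃ φ1 φ2 : ℝ → ℝ, SKer prof φ1 φ2 (1 / 32) := by
  obtain ⟨h0, h1⟩ := contDiff_infty_iff_deriv.1 prof_contDiff
  obtain ⟨h2, h3⟩ := contDiff_infty_iff_deriv.1 h1
  exact ⟨deriv prof, deriv (deriv prof), fun t => (h0 t).hasDerivAt, fun t => (h2 t).hasDerivAt,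
    h3.continuous, fun t ht => prof_zero ht.le⟩

/-- **existence of a joint eigenfunction** -/
theorem exists_eigen : ∃ (m : ℂ) (φ1 φ2 : ℝ → ℝ) (f : ℍ → ℂ), m ≠ 0 ∧ SKer prof φ1 φ2 (1 / 32) ∧ f ≠ 0 ∧
    IsV prof m f ∧ (∃ κ : ℂ, ∀ z, Tc (lapP φ1 φ2) f z = κ * f z) ∧
    ∀ p : ℕ, p.Prime → ∃ c : ℂ, ∀ z, heckeT p f z = c * f z := by
  obtain ⟨m, hm, f0, hf0, hV0⟩ := exists_V
  obtain ⟨φ1, φ2, hS⟩ := prof_deriv
  have hfin := Vsub_finite hm
  have hnt : Nontrivial (Vsub m) := ⟨⟨⟨f0, hV0⟩, 0, fun h => hf0 (congrArg Subtype.val h)⟩⟩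
  let TL : Module.End ℂ (Vsub m) :=
    { toFun := fun f => ⟨Tc (lapP φ1 φ2) f.1, Tc_mem hS.lap f.2⟩
      map_add' := fun f g => by
        apply Subtype.ext
        funext z
        show Tc (lapP φ1 φ2) (f.1 + g.1) z = Tc (lapP φ1 φ2) f.1 z + Tc (lapP φ1 φ2) g.1 z
        have hf : IsV prof m f.1 := f.2
        have hg : IsV prof m g.1 := g.2
        unfold Tc
        rw [← integral_add (hS.lap.int z hf.cont) (hS.lap.int z hg.cont)]
        refine integral_congr_ae (Eventually.of_forall fun w => ?_)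
        simp only [Pi.add_apply]; ring
      map_smul' := fun c f => by
        apply Subtype.ext
        funext z
        show Tc (lapP φ1 φ2) (c • f.1) z = c * Tc (lapP φ1 φ2) f.1 z
        unfold Tc
        rw [← integral_const_mul]
        refine integral_congr_ae (Eventually.of_forall fun w => ?_)
        simp only [Pi.smul_apply, smul_eq_mul]; ring }
  let TH : Nat.Primes → Module.End ℂ (Vsub m) := fun p =>
    { toFun := fun f => ⟨heckeT p f.1, hecke_mem p.2 f.2⟩
      map_add' := fun f g => by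
        apply Subtype.ext
        funext z
        show heckeT p (f.1 + g.1) z = heckeT p f.1 z + heckeT p g.1 z
        unfold heckeT
        simp only [Pi.add_apply, Finset.sum_add_distrib]; ring
      map_smul' := fun c f => by
        apply Subtype.ext
        funext z
        show heckeT p (c • f.1) z = c * heckeT p f.1 z
        unfold heckeT
        simp only [Pi.smul_apply, smul_eq_mul, ← Finset.mul_sum]; ring }
  obtain ⟨v, hv, hv2⟩ := exists_joint (ι := Option Nat.Primes) _ (Vsub m)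
    (fun i => match i with | none => TL | some p => TH p) (by
      intro i j
      rcases i with _ | p <;> rcases j with _ | q
      · exact Commute.refl _
      · refine LinearMap.ext fun g => Subtype.ext (funext fun z => ?_)
        have hg : IsV prof m g.1 := g.2
        exact hecke_Tc hS.lap hg.cont q.2.pos z
      · refine LinearMap.ext fun g => Subtype.ext (funext fun z => ?_)
        have hg : IsV prof m g.1 := g.2
        exact (hecke_Tc hS.lap hg.cont p.2.pos z).symm
      · refine LinearMap.ext fun g => Subtype.ext (funext fun z => ?_)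
        have hg : IsV prof m g.1 := g.2
        exact hecke_comm hg.inv p.2 q.2 z) rfl
  refine ⟨m, φ1, φ2, v.1, hm, hS, fun h0 => hv (Subtype.ext h0), v.2, ?_, fun p hp => ?_⟩
  · obtain ⟨κ, hκ⟩ := hv2 none
    exact ⟨κ, fun z => congrFun (congrArg Subtype.val hκ) z⟩
  · obtain ⟨c, hc⟩ := hv2 (some ⟨p, hp⟩)
    exact ⟨c, fun z => congrFun (congrArg Subtype.val hc) z⟩

end

end Pool.Agent.X291.MF
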