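import Pool.Agent.X291.MF.Geo

/-!
# The kernel of a point-pair invariant on odd `SL₂(ℤ)`-invariant functions
-/

set_option autoImplicit false

open UpperHalfPlane MeasureTheory Set Filter Topology Function
open scoped MatrixGroups Modular

namespace Pool.Agent.X291.MF

noncomputable section

lemma cont_SL (γ : SL(2, ℤ)) : Continuous fun z : ℍ => γ • z :=
  continuous_const_smul (γ : GL (Fin 2) ℝ)

/-- finitely many `γ` move a compact set close to another one -/
lemma finite_close {L M : Set ℍ} (hL : IsCompact L) (hM : IsCompact M) (R : ℝ) :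
    Set.Finite {γ : SL(2, ℤ) | ∃ z ∈ L, ∃ w ∈ M, D z (γ • w) ≤ R} := by
  have hL' : IsCompact (Metric.cthickening (Real.sqrt R) L) := hL.cthickening
  have h1 : Set.Finite {γ : (Matrix.SpecialLinearGroup.mapGL ℝ : SL(2, ℤ) →* GL (Fin 2) ℝ).range |
      (((γ • ·) : ℍ → ℍ) '' M ∩ Metric.cthickening (Real.sqrt R) L).Nonempty} :=
    ProperlyDiscontinuousSMul.finite_disjoint_inter_image hM hL'
  have h2 := Set.Finite.preimage
    (f := fun γ : SL(2, ℤ) => (⟨Matrix.SpecialLinearGroup.mapGL ℝ γ, ⟨γ, rfl⟩⟩ :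
      (Matrix.SpecialLinearGroup.mapGL ℝ : SL(2, ℤ) →* GL (Fin 2) ℝ).range)) (s := _) ?_ h1
  · refine h2.subset ?_
    rintro γ ⟨z, hz, w, hw, hd⟩
    refine ⟨γ • w, ⟨w, hw, rfl⟩, ?_⟩
    refine Metric.mem_cthickening_of_dist_le _ z _ _ hz ?_
    rw [dist_comm]
    exact dist_le_of_D_le hd
  · intro a _ b _ hab
    have h3 := congrArg Subtype.val hab
    exact Matrix.SpecialLinearGroup.mapGL_injective h3

/-- the kernel sum -/
def K (φ : ℝ → ℝ) (z w : ℍ) : ℝ :=
  ∑ᶠ γ : SL(2, ℤ), (φ (D z (γ • w)) - φ (D z (γ • J • w)))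

variable {φ : ℝ → ℝ} {R : ℝ}

lemma J_maps_compact {M : Set ℍ} (hM : IsCompact M) : IsCompact ((fun w : ℍ => J • w) '' M) :=
  hM.image (continuous_const_smul J)

lemma locFin (hR : ∀ t, R < t → φ t = 0) :
    LocallyFinite fun γ : SL(2, ℤ) =>
      support fun p : ℍ × ℍ => (φ (D p.1 (γ • p.2)) - φ (D p.1 (γ • J • p.2))) := by
  intro p
  obtain ⟨L, hL, hLn⟩ := exists_compact_mem_nhds p.1
  obtain ⟨M, hM, hMn⟩ := exists_compact_mem_nhds p.2
  refine ⟨L ×ˢ M, prod_mem_nhds hLn hMn, ?_⟩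
  refine ((finite_close hL hM R).union (finite_close hL (J_maps_compact hM) R)).subset ?_
  rintro γ ⟨⟨z, w⟩, h1, hz, hw⟩
  simp only [mem_support] at h1
  by_contra hcon
  simp only [mem_union, mem_ofPred_eq, not_or, not_exists, not_and, not_le] at hcon
  apply h1
  rw [hR _ (hcon.1 z hz w hw), hR _ (hcon.2 z hz (J • w) ⟨w, hw, rfl⟩), sub_zero]

lemma continuous_K (hc : Continuous φ) (hR : ∀ t, R < t → φ t = 0) :
    Continuous fun p : ℍ × ℍ => K φ p.1 p.2 := by
  refine continuous_finsum (fun γ => ?_) (locFin hR)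
  have h1 : Continuous fun p : ℍ × ℍ => D p.1 (γ • p.2) :=
    continuous_D.comp (continuous_fst.prodMk ((cont_SL γ).comp continuous_snd))
  have h2 : Continuous fun p : ℍ × ℍ => D p.1 (γ • J • p.2) :=
    continuous_D.comp (continuous_fst.prodMk ((cont_SL γ).comp
      ((continuous_const_smul J).comp continuous_snd)))
  exact (hc.comp h1).sub (hc.comp h2)

lemma finSupp (hR : ∀ t, R < t → φ t = 0) (z w : ℍ) :
    (support fun γ : SL(2, ℤ) => (φ (D z (γ • w)) - φ (D z (γ • J • w)))).Finite := by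
  have := (locFin hR).point_finite (z, w)
  exact this

lemma finSupp1 (hR : ∀ t, R < t → φ t = 0) (z w : ℍ) :
    (support fun γ : SL(2, ℤ) => φ (D z (γ • w))).Finite := by
  refine (finite_close (L := {z}) (M := {w}) isCompact_singleton isCompact_singleton R).subset ?_
  intro γ hγ
  refine ⟨z, rfl, w, rfl, ?_⟩
  by_contra hcon
  push Not at hcon
  exact hγ (hR _ hcon)

/-- conjugation by `J` on `SL₂(ℤ)` -/
def cj (γ : SL(2, ℤ)) : SL(2, ℤ) := ⟨!![γ 0 0, -γ 0 1; -γ 1 0, γ 1 1], by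
  have := γ.det_coe
  rw [Matrix.det_fin_two] at this
  rw [Matrix.det_fin_two_of]
  linarith⟩

lemma cj_cj (γ : SL(2, ℤ)) : cj (cj γ) = γ := by
  ext i j
  fin_cases i <;> fin_cases j <;> simp [cj]

def cjEquiv : SL(2, ℤ) ≃ SL(2, ℤ) := ⟨cj, cj, cj_cj, cj_cj⟩

lemma cj_smul (γ : SL(2, ℤ)) (z : ℍ) : J • γ • z = cj γ • J • z := by
  apply UpperHalfPlane.ext
  rw [coe_J_smul, UpperHalfPlane.coe_specialLinearGroup_apply, UpperHalfPlane.coe_specialLinearGroup_apply,
    coe_J_smul]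
  simp only [cj, Matrix.SpecialLinearGroup.coe_mk, Matrix.of_apply, Matrix.cons_val', Matrix.cons_val_zero,
    Matrix.cons_val_one, Matrix.cons_val_fin_one, algebraMap_int_eq, eq_intCast, map_div₀, map_add, map_mul,
    Int.cast_neg, Complex.ofReal_neg, Complex.ofReal_intCast, map_intCast]
  rw [← neg_div]
  congr 1 <;> ring

lemma K_smul_left (γ : SL(2, ℤ)) (z w : ℍ) : K φ (γ • z) w = K φ z w := by
  unfold K
  rw [← finsum_comp_equiv (Equiv.mulLeft γ)]
  refine finsum_congr fun γ' => ?_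
  simp only [Equiv.coe_mulLeft, mul_smul]
  rw [D_SL, D_SL]

lemma K_J_left (z w : ℍ) : K φ (J • z) w = - K φ z w := by
  unfold K
  rw [← finsum_comp_equiv cjEquiv, ← finsum_neg_distrib]
  refine finsum_congr fun γ => ?_
  have h1 : (cjEquiv γ) • w = J • γ • J • w := by
    rw [cj_smul, J_J]; rfl
  have h2 : (cjEquiv γ) • J • w = J • γ • w := by
    rw [cj_smul]; rfl
  rw [h1, h2, D_J, D_J]
  ring

lemma K_comm (z w : ℍ) (hR : ∀ t, R < t → φ t = 0) : K φ z w = K φ w z := by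
  unfold K
  rw [finsum_sub_distrib (finSupp1 hR z w) (finSupp1 hR z (J • w)),
    finsum_sub_distrib (finSupp1 hR w z) (finSupp1 hR w (J • z))]
  congr 1
  · rw [← finsum_comp_equiv (Equiv.inv SL(2, ℤ))]
    refine finsum_congr fun γ => ?_
    rw [Equiv.inv_apply, ← D_SL γ, smul_inv_smul, D_comm]
  · rw [← finsum_comp_equiv ((Equiv.inv SL(2, ℤ)).trans cjEquiv)]
    refine finsum_congr fun γ => ?_
    have h1 : (((Equiv.inv SL(2, ℤ)).trans cjEquiv) γ) • J • w = J • γ⁻¹ • w := by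
      rw [cj_smul]; rfl
    rw [h1, ← D_J, J_J, ← D_SL γ, smul_inv_smul, D_comm]

end

end Pool.Agent.X291.MF
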