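import Pool.Agent.X291.MF.Smo

/-!
# The Laplacian of an invariant integral operator
-/

set_option autoImplicit false

open UpperHalfPlane MeasureTheory Set Filter Topology Function
open scoped MatrixGroups Modular ENNReal Pointwise ContDiff

namespace Pool.Agent.X291.MF

noncomputable section

variable {φ : ℝ → ℝ} {R : ℝ}

/-- the point `x + i y` -/
def pt (x y : ℝ) : ℍ := ofComplex (⟨x, y⟩ : ℂ)

lemma pt_eq {x y : ℝ} (hy : 0 < y) : pt x y = ⟨⟨x, y⟩, hy⟩ := ofComplex_apply_of_im_pos (z := ⟨x, y⟩) hy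

lemma pt_re {x y : ℝ} (hy : 0 < y) : (pt x y).re = x := by rw [pt_eq hy]; rfl

lemma pt_im {x y : ℝ} (hy : 0 < y) : (pt x y).im = y := by rw [pt_eq hy]; rfl

lemma coe_pt {x y : ℝ} (hy : 0 < y) : (pt x y : ℂ) = ⟨x, y⟩ := by rw [pt_eq hy]

lemma pt_self (z : ℍ) : pt z.re z.im = z := by
  apply UpperHalfPlane.ext
  rw [coe_pt z.im_pos]
  rfl

/-- `D` in coordinates -/
def DD (x y : ℝ) (w : ℍ) : ℝ := ((x - w.re) ^ 2 + w.im ^ 2) / (y * w.im) + y / w.im - 2

lemma D_pt {x y : ℝ} (hy : 0 < y) (w : ℍ) : D (pt x y) w = DD x y w := by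
  rw [D, DD, ← Complex.normSq_eq_norm_sq, Complex.normSq_apply, Complex.sub_re, Complex.sub_im,
    coe_pt hy, pt_im hy]
  simp only [UpperHalfPlane.coe_re, UpperHalfPlane.coe_im]
  have := w.im_pos
  field_simp
  ring

lemma hasDerivAt_int {k k' : ℝ → ℍ → ℝ} {t0 δ : ℝ} (hδ : 0 < δ) {L : Set ℍ} (hL : IsCompact L)
    (hk : ∀ t ∈ Metric.closedBall t0 δ, ∀ w, HasDerivAt (fun s => k s w) (k' t w) t)
    (hc : ∀ t ∈ Metric.closedBall t0 δ, Continuous (k t))
    (hc' : ContinuousOn (uncurry k') (Metric.closedBall t0 δ ×ˢ univ))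
    (hs : ∀ t ∈ Metric.closedBall t0 δ, ∀ w, w ∉ L → k t w = 0 ∧ k' t w = 0)
    {f : ℍ → ℂ} (hf : Continuous f) :
    Integrable (fun w => (k' t0 w : ℂ) * f w) ∧
    HasDerivAt (fun s => ∫ w, (k s w : ℂ) * f w) (∫ w, (k' t0 w : ℂ) * f w) t0 := by
  have hS : IsCompact (Metric.closedBall t0 δ) := isCompact_closedBall _ _
  have ht0 : t0 ∈ Metric.closedBall t0 δ := Metric.mem_closedBall_self hδ.le
  obtain ⟨M, hM⟩ := (hS.prod hL).exists_bound_of_continuousOn (hc'.mono (prod_mono_right (subset_univ _)))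
  obtain ⟨B, hB⟩ := hL.exists_bound_of_continuousOn hf.continuousOn
  have hck' : ∀ t ∈ Metric.closedBall t0 δ, Continuous (k' t) := by
    intro t ht
    rw [← continuousOn_univ]
    exact hc'.comp (f := fun w : ℍ => (t, w)) (by fun_prop) (fun w _ => ⟨ht, mem_univ _⟩)
  refine hasDerivAt_integral_of_dominated_loc_of_deriv_le (F := fun s w => (k s w : ℂ) * f w)
    (F' := fun s w => (k' s w : ℂ) * f w) (s := Metric.closedBall t0 δ)
    (bound := L.indicator fun _ => |M| * |B|) (Metric.closedBall_mem_nhds t0 hδ) ?_ ?_ ?_ ?_ ?_ ?_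
  · filter_upwards [Metric.closedBall_mem_nhds t0 hδ] with t ht
    exact ((Complex.continuous_ofReal.comp (hc t ht)).mul hf).aestronglyMeasurable
  · refine Continuous.integrable_of_hasCompactSupport ((Complex.continuous_ofReal.comp (hc t0 ht0)).mul hf) ?_
    refine HasCompactSupport.intro hL fun w hw => ?_
    rw [(hs t0 ht0 w hw).1]; simp
  · exact ((Complex.continuous_ofReal.comp (hck' t0 ht0)).mul hf).aestronglyMeasurable
  · refine Eventually.of_forall fun w t ht => ?_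
    by_cases hw : w ∈ L
    · rw [indicator_of_mem hw, norm_mul, Complex.norm_real]
      refine mul_le_mul ?_ ?_ (norm_nonneg _) (abs_nonneg _)
      · exact (hM (t, w) ⟨ht, hw⟩).trans (le_abs_self M)
      · exact (hB w hw).trans (le_abs_self B)
    · rw [(hs t ht w hw).2, indicator_of_notMem hw]; simp
  · rw [integrable_indicator_iff hL.measurableSet]
    exact integrableOn_const hL.measure_lt_top.ne
  · refine Eventually.of_forall fun w t ht => ?_
    exact ((hk t ht w).ofReal_comp).mul_const _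

lemma path_int {E E1 A A1 : ℝ → ℍ → ℝ} {t0 δ : ℝ} (hδ : 0 < δ) {L : Set ℍ} (hL : IsCompact L)
    (dE : ∀ t ∈ Metric.closedBall t0 δ, ∀ w, HasDerivAt (fun s => E s w) (E1 t w) t)
    (dA : ∀ t ∈ Metric.closedBall t0 δ, ∀ w, HasDerivAt (fun s => A s w) (A1 t w) t)
    (hE : ContinuousOn (uncurry E) (Metric.closedBall t0 δ ×ˢ univ))
    (hE1 : ContinuousOn (uncurry E1) (Metric.closedBall t0 δ ×ˢ univ))
    (hA : ContinuousOn (uncurry A) (Metric.closedBall t0 δ ×ˢ univ))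
    (hA1 : ContinuousOn (uncurry A1) (Metric.closedBall t0 δ ×ˢ univ))
    {Φ Φ' : ℝ → ℝ} (hΦ : ∀ r, HasDerivAt Φ (Φ' r) r) (hΦ' : Continuous Φ')
    (hsupp : ∀ r, R < r → Φ r = 0 ∧ Φ' r = 0)
    (hLE : ∀ t ∈ Metric.closedBall t0 δ, ∀ w, E t w ≤ R → w ∈ L)
    {f : ℍ → ℂ} (hf : Continuous f) :
    Integrable (fun w => ((A1 t0 w * Φ (E t0 w) + A t0 w * (Φ' (E t0 w) * E1 t0 w) : ℝ) : ℂ) * f w) ∧
    HasDerivAt (fun s => ∫ w, ((A s w * Φ (E s w) : ℝ) : ℂ) * f w)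
      (∫ w, ((A1 t0 w * Φ (E t0 w) + A t0 w * (Φ' (E t0 w) * E1 t0 w) : ℝ) : ℂ) * f w) t0 := by
  have hΦc : Continuous Φ := continuous_iff_continuousAt.2 fun r => (hΦ r).continuousAt
  refine hasDerivAt_int (k := fun t w => A t w * Φ (E t w))
    (k' := fun t w => A1 t w * Φ (E t w) + A t w * (Φ' (E t w) * E1 t w)) hδ hL ?_ ?_ ?_ ?_ hf
  · intro t ht w
    exact (dA t ht w).mul ((hΦ (E t w)).comp t (dE t ht w))
  · intro t ht
    have h1 : Continuous (A t) := by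
      rw [← continuousOn_univ]
      exact hA.comp (f := fun w : ℍ => (t, w)) (by fun_prop) (fun w _ => ⟨ht, mem_univ _⟩)
    have h2 : Continuous (E t) := by
      rw [← continuousOn_univ]
      exact hE.comp (f := fun w : ℍ => (t, w)) (by fun_prop) (fun w _ => ⟨ht, mem_univ _⟩)
    exact h1.mul (hΦc.comp h2)
  · exact (hA1.mul (hΦc.comp_continuousOn hE)).add (hA.mul ((hΦ'.comp_continuousOn hE).mul hE1))
  · intro t ht w hw
    have h1 : R < E t w := by
      by_contra hcon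
      push Not at hcon
      exact hw (hLE t ht w hcon)
    obtain ⟨h2, h3⟩ := hsupp _ h1
    rw [h2, h3]; simp

/-- the compact set for a path -/
lemma path_compact {p : ℝ → ℍ} {S : Set ℝ} (hS : IsCompact S) (hp : ContinuousOn p S) (R : ℝ) :
    ∃ L : Set ℍ, IsCompact L ∧ ∀ t ∈ S, ∀ w, D (p t) w ≤ R → w ∈ L := by
  refine ⟨Metric.cthickening (Real.sqrt R) (p '' S), (hS.image_of_continuousOn hp).cthickening, ?_⟩
  intro t ht w hw
  refine Metric.mem_cthickening_of_dist_le _ (p t) _ _ ⟨t, ht, rfl⟩ ?_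
  rw [dist_comm]
  exact dist_le_of_D_le hw

lemma cont_pt : ContinuousOn (fun p : ℝ × ℝ => pt p.1 p.2) {p | 0 < p.2} := by
  intro p hp
  have h1 : ContinuousAt (fun p : ℝ × ℝ => (⟨p.1, p.2⟩ : ℂ)) p := by
    have : (fun p : ℝ × ℝ => (⟨p.1, p.2⟩ : ℂ)) = fun p => (p.1 : ℂ) + p.2 * Complex.I := by
      funext p; exact Complex.mk_eq_add_mul_I _ _
    rw [this]; fun_prop
  refine (ContinuousAt.comp (f := fun p : ℝ × ℝ => (⟨p.1, p.2⟩ : ℂ)) (g := fun z : ℂ => ofComplex z) ?_ h1).continuousWithinAt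
  refine ofComplex.continuousAt ?_
  simpa [ofComplex] using hp

lemma cont_pt_left {y : ℝ} (hy : 0 < y) : Continuous (fun x : ℝ => pt x y) := by
  rw [← continuousOn_univ]
  exact cont_pt.comp (f := fun x : ℝ => (x, y)) (by fun_prop) (fun x _ => hy)

lemma cont_pt_right (x : ℝ) : ContinuousOn (fun y : ℝ => pt x y) (Ioi 0) :=
  cont_pt.comp (f := fun y : ℝ => (x, y)) (by fun_prop) (fun y hy => hy)

/-- data for a smooth compactly supported profile -/
structure SKer (φ φ1 φ2 : ℝ → ℝ) (R : ℝ) : Prop where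
  d1 : ∀ t, HasDerivAt φ (φ1 t) t
  d2 : ∀ t, HasDerivAt φ1 (φ2 t) t
  c2 : Continuous φ2
  s : ∀ t, R < t → φ t = 0

variable {φ1 φ2 : ℝ → ℝ}

lemma SKer.c0 (h : SKer φ φ1 φ2 R) : Continuous φ := continuous_iff_continuousAt.2 fun r => (h.d1 r).continuousAt
lemma SKer.c1 (h : SKer φ φ1 φ2 R) : Continuous φ1 := continuous_iff_continuousAt.2 fun r => (h.d2 r).continuousAt

lemma SKer.s1 (h : SKer φ φ1 φ2 R) : ∀ t, R < t → φ1 t = 0 := by
  intro t ht
  have h1 : φ =ᶠ[𝓝 t] fun _ => (0 : ℝ) := by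
    filter_upwards [Ioi_mem_nhds ht] with s hs
    exact h.s s hs
  exact ((hasDerivAt_const t (0 : ℝ)).congr_of_eventuallyEq h1).unique (h.d1 t) |>.symm

lemma SKer.s2 (h : SKer φ φ1 φ2 R) : ∀ t, R < t → φ2 t = 0 := by
  intro t ht
  have h1 : φ1 =ᶠ[𝓝 t] fun _ => (0 : ℝ) := by
    filter_upwards [Ioi_mem_nhds ht] with s hs
    exact h.s1 s hs
  exact ((hasDerivAt_const t (0 : ℝ)).congr_of_eventuallyEq h1).unique (h.d2 t) |>.symm

lemma SKer.ck (h : SKer φ φ1 φ2 R) : CKer φ R := ⟨h.c0, h.s⟩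

/-- the profile of the Laplacian -/
def lapP (φ1 φ2 : ℝ → ℝ) (t : ℝ) : ℝ := (t ^ 2 + 4 * t) * φ2 t + (2 * t + 4) * φ1 t

lemma SKer.lap (h : SKer φ φ1 φ2 R) : CKer (lapP φ1 φ2) R := by
  refine ⟨?_, fun t ht => ?_⟩
  · unfold lapP
    have := h.c2
    have := h.c1
    fun_prop
  · rw [lapP, h.s1 t ht, h.s2 t ht]; ring

/-- first derivative of the kernel in `x` -/
def kx (y : ℝ) (t : ℝ) (w : ℍ) : ℝ := 2 * (t - w.re) / (y * w.im)
def kxx (y : ℝ) (_t : ℝ) (w : ℍ) : ℝ := 2 / (y * w.im)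
def ky (x : ℝ) (t : ℝ) (w : ℍ) : ℝ := 1 / w.im - ((x - w.re) ^ 2 + w.im ^ 2) / (t ^ 2 * w.im)
def kyy (x : ℝ) (t : ℝ) (w : ℍ) : ℝ := 2 * ((x - w.re) ^ 2 + w.im ^ 2) / (t ^ 3 * w.im)

lemma ident {x y : ℝ} (hy : 0 < y) (w : ℍ) (a b : ℝ) :
    y ^ 2 * ((kxx y x w * a + kx y x w * (b * kx y x w)) + (kyy x y w * a + ky x y w * (b * ky x y w)))
      = ((DD x y w) ^ 2 + 4 * DD x y w) * b + (2 * DD x y w + 4) * a := by
  have := w.im_pos
  unfold kxx kx kyy ky DD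
  field_simp
  ring

lemma dDx (y t : ℝ) (w : ℍ) : HasDerivAt (fun s => DD s y w) (kx y t w) t := by
  unfold DD kx
  have h1 : HasDerivAt (fun s : ℝ => ((s - w.re) ^ 2 + w.im ^ 2) / (y * w.im) + y / w.im - 2)
      ((2 * (t - w.re) * 1) / (y * w.im)) t := by
    have h2 : HasDerivAt (fun s : ℝ => (s - w.re) ^ 2 + w.im ^ 2) (2 * (t - w.re) * 1) t := by
      have := (((hasDerivAt_id t).sub_const w.re).pow 2).add_const (w.im ^ 2)
      simpa using this
    exact ((h2.div_const _).add_const _).sub_const _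
  rw [mul_one] at h1
  exact h1

lemma dkx (y t : ℝ) (w : ℍ) : HasDerivAt (fun s => kx y s w) (kxx y t w) t := by
  unfold kx kxx
  have h2 : HasDerivAt (fun s : ℝ => 2 * (s - w.re)) 2 t := by
    have := (((hasDerivAt_id t).sub_const w.re).const_mul 2)
    simpa using this
  exact h2.div_const _

lemma dDy (x : ℝ) {t : ℝ} (ht : 0 < t) (w : ℍ) : HasDerivAt (fun s => DD x s w) (ky x t w) t := by
  unfold DD ky
  have hw := w.im_pos
  have h1 : HasDerivAt (fun s : ℝ => s * w.im) w.im t := by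
    simpa using (hasDerivAt_id t).mul_const w.im
  have h2 := ((hasDerivAt_const t ((x - w.re) ^ 2 + w.im ^ 2)).div h1 (by positivity)).add
    ((hasDerivAt_id t).div_const w.im) |>.sub_const 2
  refine h2.congr_deriv ?_
  field_simp
  ring

lemma dky (x : ℝ) {t : ℝ} (ht : 0 < t) (w : ℍ) : HasDerivAt (fun s => ky x s w) (kyy x t w) t := by
  unfold ky kyy
  have hw := w.im_pos
  have h1 : HasDerivAt (fun s : ℝ => s ^ 2 * w.im) (2 * t * w.im) t := by
    simpa using ((hasDerivAt_id t).pow 2).mul_const w.im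
  have h2 := ((hasDerivAt_const t ((x - w.re) ^ 2 + w.im ^ 2)).div h1 (by positivity)).const_sub (1 / w.im)
  refine h2.congr_deriv ?_
  field_simp
  ring

lemma cDx {y : ℝ} (S : Set ℝ) (hy : 0 < y) : ContinuousOn (uncurry fun t w => DD t y w) (S ×ˢ univ) := by
  refine Continuous.continuousOn ?_
  unfold DD
  refine Continuous.sub (Continuous.add (Continuous.div (by fun_prop) (by fun_prop) ?_)
    (Continuous.div (by fun_prop) (by fun_prop) ?_)) continuous_const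
  · rintro ⟨t, w⟩; have := w.im_pos; positivity
  · rintro ⟨t, w⟩; exact w.im_ne_zero

lemma ckx {y : ℝ} (S : Set ℝ) (hy : 0 < y) : ContinuousOn (uncurry fun t w => kx y t w) (S ×ˢ univ) := by
  refine Continuous.continuousOn ?_
  unfold kx
  refine (Continuous.div (by fun_prop) (by fun_prop) ?_)
  rintro ⟨t, w⟩; have := w.im_pos; positivity

lemma ckxx {y : ℝ} (S : Set ℝ) (hy : 0 < y) : ContinuousOn (uncurry fun t w => kxx y t w) (S ×ˢ univ) := by
  refine Continuous.continuousOn ?_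
  unfold kxx
  refine (Continuous.div (by fun_prop) (by fun_prop) ?_)
  rintro ⟨t, w⟩; have := w.im_pos; positivity

lemma cDy (x : ℝ) {S : Set ℝ} (hS : ∀ t ∈ S, 0 < t) : ContinuousOn (uncurry fun t w => DD x t w) (S ×ˢ univ) := by
  unfold DD
  refine ContinuousOn.sub (ContinuousOn.add (ContinuousOn.div (by fun_prop) (by fun_prop) ?_)
    (ContinuousOn.div (by fun_prop) (by fun_prop) ?_)) continuousOn_const
  · rintro ⟨t, w⟩ ⟨ht, _⟩; have := w.im_pos; have := hS t ht; simp only; positivity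
  · rintro ⟨t, w⟩ _; exact w.im_ne_zero

lemma cky (x : ℝ) {S : Set ℝ} (hS : ∀ t ∈ S, 0 < t) : ContinuousOn (uncurry fun t w => ky x t w) (S ×ˢ univ) := by
  unfold ky
  refine ContinuousOn.sub (ContinuousOn.div (by fun_prop) (by fun_prop) ?_)
    (ContinuousOn.div (by fun_prop) (by fun_prop) ?_)
  · rintro ⟨t, w⟩ _; exact w.im_ne_zero
  · rintro ⟨t, w⟩ ⟨ht, _⟩; have := w.im_pos; have := hS t ht; simp only; positivity

lemma ckyy (x : ℝ) {S : Set ℝ} (hS : ∀ t ∈ S, 0 < t) : ContinuousOn (uncurry fun t w => kyy x t w) (S ×ˢ univ) := by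
  unfold kyy
  refine (ContinuousOn.div (by fun_prop) (by fun_prop) ?_)
  rintro ⟨t, w⟩ ⟨ht, _⟩; have := w.im_pos; have := hS t ht; simp only; positivity

def Fx (φ1 : ℝ → ℝ) (f : ℍ → ℂ) (x y : ℝ) : ℂ := ∫ w, ((kx y x w * φ1 (DD x y w) : ℝ) : ℂ) * f w
def Fxx (φ1 φ2 : ℝ → ℝ) (f : ℍ → ℂ) (x y : ℝ) : ℂ :=
  ∫ w, ((kxx y x w * φ1 (DD x y w) + kx y x w * (φ2 (DD x y w) * kx y x w) : ℝ) : ℂ) * f w
def Fy (φ1 : ℝ → ℝ) (f : ℍ → ℂ) (x y : ℝ) : ℂ := ∫ w, ((ky x y w * φ1 (DD x y w) : ℝ) : ℂ) * f w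
def Fyy (φ1 φ2 : ℝ → ℝ) (f : ℍ → ℂ) (x y : ℝ) : ℂ :=
  ∫ w, ((kyy x y w * φ1 (DD x y w) + ky x y w * (φ2 (DD x y w) * ky x y w) : ℝ) : ℂ) * f w

lemma LEx {y : ℝ} (hy : 0 < y) (x : ℝ) (R : ℝ) : ∃ L : Set ℍ, IsCompact L ∧
    ∀ t ∈ Metric.closedBall x 1, ∀ w, DD t y w ≤ R → w ∈ L := by
  obtain ⟨L, h1, h2⟩ := path_compact (isCompact_closedBall x 1) (cont_pt_left hy).continuousOn R
  exact ⟨L, h1, fun t ht w hw => h2 t ht w (by rw [D_pt hy]; exact hw)⟩

lemma ball_pos {y : ℝ} (hy : 0 < y) : ∀ t ∈ Metric.closedBall y (y / 2), 0 < t := by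
  intro t ht
  rw [Metric.mem_closedBall, Real.dist_eq, abs_le] at ht
  linarith [ht.1]

lemma LEy {y : ℝ} (hy : 0 < y) (x : ℝ) (R : ℝ) : ∃ L : Set ℍ, IsCompact L ∧
    ∀ t ∈ Metric.closedBall y (y / 2), ∀ w, DD x t w ≤ R → w ∈ L := by
  obtain ⟨L, h1, h2⟩ := path_compact (isCompact_closedBall y (y / 2))
    ((cont_pt_right x).mono (fun t ht => ball_pos hy t ht)) R
  exact ⟨L, h1, fun t ht w hw => h2 t ht w (by rw [D_pt (ball_pos hy t ht)]; exact hw)⟩

variable {f : ℍ → ℂ}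

theorem hasDeriv_x (h : SKer φ φ1 φ2 R) (hf : Continuous f) (x : ℝ) {y : ℝ} (hy : 0 < y) :
    HasDerivAt (fun s => Tc φ f (pt s y)) (Fx φ1 f x y) x := by
  obtain ⟨L, hL, hLE⟩ := LEx hy x R
  have := (path_int (A := fun _ _ => 1) (A1 := fun _ _ => 0) one_pos hL (fun t _ w => dDx y t w)
    (fun t _ w => hasDerivAt_const t 1) (cDx _ hy) (ckx _ hy) continuousOn_const continuousOn_const
    h.d1 h.c1 (fun r hr => ⟨h.s r hr, h.s1 r hr⟩) hLE hf).2
  have e1 : (fun s => ∫ w, ((1 * φ (DD s y w) : ℝ) : ℂ) * f w) = fun s => Tc φ f (pt s y) := by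
    funext s
    unfold Tc
    simp only [D_pt hy, one_mul]
  rw [e1] at this
  refine this.congr_deriv ?_
  unfold Fx
  refine integral_congr_ae (Eventually.of_forall fun w => ?_)
  simp only
  congr 2
  ring

theorem hasDeriv_xx (h : SKer φ φ1 φ2 R) (hf : Continuous f) (x : ℝ) {y : ℝ} (hy : 0 < y) :
    Integrable (fun w => ((kxx y x w * φ1 (DD x y w) + kx y x w * (φ2 (DD x y w) * kx y x w) : ℝ) : ℂ) * f w) ∧
    HasDerivAt (fun s => Fx φ1 f s y) (Fxx φ1 φ2 f x y) x := by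
  obtain ⟨L, hL, hLE⟩ := LEx hy x R
  exact (path_int one_pos hL (fun t _ w => dDx y t w)
    (fun t _ w => dkx y t w) (cDx _ hy) (ckx _ hy) (ckx _ hy) (ckxx _ hy)
    h.d2 h.c2 (fun r hr => ⟨h.s1 r hr, h.s2 r hr⟩) hLE hf)

theorem hasDeriv_y (h : SKer φ φ1 φ2 R) (hf : Continuous f) (x : ℝ) {y : ℝ} (hy : 0 < y) :
    HasDerivAt (fun s => Tc φ f (pt x s)) (Fy φ1 f x y) y := by
  obtain ⟨L, hL, hLE⟩ := LEy hy x R
  have hb := ball_pos hy
  have := (path_int (A := fun _ _ => 1) (A1 := fun _ _ => 0) (by positivity) hL (fun t ht w => dDy x (hb t ht) w)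
    (fun t _ w => hasDerivAt_const t 1) (cDy x hb) (cky x hb) continuousOn_const continuousOn_const
    h.d1 h.c1 (fun r hr => ⟨h.s r hr, h.s1 r hr⟩) hLE hf).2
  have e1 : (fun s => ∫ w, ((1 * φ (DD x s w) : ℝ) : ℂ) * f w) =ᶠ[𝓝 y] fun s => Tc φ f (pt x s) := by
    filter_upwards [Ioi_mem_nhds hy] with s hs
    unfold Tc
    simp only [D_pt hs, one_mul]
  have := this.congr_of_eventuallyEq e1.symm
  refine this.congr_deriv ?_
  unfold Fy
  refine integral_congr_ae (Eventually.of_forall fun w => ?_)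
  simp only
  congr 2
  ring

theorem hasDeriv_yy (h : SKer φ φ1 φ2 R) (hf : Continuous f) (x : ℝ) {y : ℝ} (hy : 0 < y) :
    Integrable (fun w => ((kyy x y w * φ1 (DD x y w) + ky x y w * (φ2 (DD x y w) * ky x y w) : ℝ) : ℂ) * f w) ∧
    HasDerivAt (fun s => Fy φ1 f x s) (Fyy φ1 φ2 f x y) y := by
  obtain ⟨L, hL, hLE⟩ := LEy hy x R
  have hb := ball_pos hy
  exact (path_int (by positivity) hL (fun t ht w => dDy x (hb t ht) w)
    (fun t ht w => dky x (hb t ht) w) (cDy x hb) (cky x hb) (cky x hb) (ckyy x hb)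
    h.d2 h.c2 (fun r hr => ⟨h.s1 r hr, h.s2 r hr⟩) hLE hf)

/-- **the Laplacian of an invariant operator** -/
theorem lap_formula (h : SKer φ φ1 φ2 R) (hf : Continuous f) (x : ℝ) {y : ℝ} (hy : 0 < y) :
    (y : ℂ) ^ 2 * (Fxx φ1 φ2 f x y + Fyy φ1 φ2 f x y) = Tc (lapP φ1 φ2) f (pt x y) := by
  have h1 := (hasDeriv_xx h hf x hy).1
  have h2 := (hasDeriv_yy h hf x hy).1
  unfold Fxx Fyy Tc
  rw [← integral_add h1 h2, ← integral_const_mul]
  refine integral_congr_ae (Eventually.of_forall fun w => ?_)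
  simp only
  rw [D_pt hy, lapP, ← ident hy w (φ1 (DD x y w)) (φ2 (DD x y w))]
  push_cast
  ring

end

end Pool.Agent.X291.MF
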