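import Pool.Agent.X291.MF.Joint

/-!
# Existence of an odd Hecke–Maass cusp form of level one
-/

set_option autoImplicit false

open UpperHalfPlane MeasureTheory Set Filter Topology Function
open scoped MatrixGroups Modular ENNReal Pointwise ContDiff

namespace Pool.Agent.X291.MF

noncomputable section

lemma pt_add (x y : ℝ) : pt x y = ofComplex (x + y * Complex.I) := by
  rw [pt, Complex.mk_eq_add_mul_I]

lemma hypLap_of (f : ℍ → ℂ) {m : ℂ} (hm : m ≠ 0) {φ1 φ2 : ℝ → ℝ} (hS : SKer prof φ1 φ2 (1 / 32))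
    (hc : Continuous f) (he : ∀ z, Tc prof f z = m * f z) (z : ℍ) :
    hypLaplacian f z = - m⁻¹ * Tc (lapP φ1 φ2) f z := by
  have hf : ∀ x y : ℝ, f (ofComplex (x + y * Complex.I)) = m⁻¹ * Tc prof f (pt x y) := by
    intro x y
    rw [he, pt_add, inv_mul_cancel_left₀ hm]
  have hy := z.im_pos
  unfold hypLaplacian
  simp only [hf]
  have h1 : (fun t : ℝ => deriv (fun s : ℝ => m⁻¹ * Tc prof f (pt s z.im)) t) = fun t => m⁻¹ * Fx φ1 f t z.im := by
    funext t
    exact ((hasDeriv_x hS hc t hy).const_mul _).deriv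
  have h2 : (fun t : ℝ => deriv (fun s : ℝ => m⁻¹ * Tc prof f (pt z.re s)) t) =ᶠ[𝓝 z.im]
      fun t => m⁻¹ * Fy φ1 f z.re t := by
    filter_upwards [Ioi_mem_nhds hy] with t ht
    exact ((hasDeriv_y hS hc z.re ht).const_mul _).deriv
  rw [h1, h2.deriv_eq, ((hasDeriv_xx hS hc z.re hy).2.const_mul _).deriv,
    ((hasDeriv_yy hS hc z.re hy).2.const_mul _).deriv]
  have h3 := lap_formula hS hc z.re hy
  rw [pt_self] at h3
  rw [← h3]
  ring

lemma odd_xy {f : ℍ → ℂ} (hodd : ∀ z, f (J • z) = - f z) : IsOddForm f := by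
  intro x y hy
  have h1 : 0 < ((x : ℂ) + y * Complex.I).im := by simpa using hy
  rw [← odd_apply hodd h1]
  congr 2
  simp only [map_add, map_mul, Complex.conj_ofReal, Complex.conj_I]
  ring

lemma odd_int {f : ℍ → ℂ} (hodd : IsOddForm f) (hinv : ∀ (γ : SL(2, ℤ)) z, f (γ • z) = f z) {y : ℝ} (hy : 0 < y) :
    ∫ x in (0 : ℝ)..1, f (ofComplex (x + y * Complex.I)) = 0 := by
  have h1 : ∫ x in (0 : ℝ)..1, f (ofComplex (x + y * Complex.I)) =
      ∫ x in (0 : ℝ)..1, - f (ofComplex (x + y * Complex.I)) := by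
    have h2 := intervalIntegral.integral_comp_sub_left
      (fun x : ℝ => f (ofComplex (x + y * Complex.I))) (1 : ℝ) (a := 0) (b := 1)
    simp only [sub_self, sub_zero] at h2
    rw [← h2]
    refine intervalIntegral.integral_congr fun x _ => ?_
    rw [← hodd x y hy]
    have h3 := inv_add hinv 1 (z := (-x : ℂ) + y * Complex.I) (by simpa using hy)
    rw [← h3]
    congr 2
    push_cast
    ring
  rw [intervalIntegral.integral_neg] at h1
  have h2 : (2 : ℂ) * ∫ x in (0 : ℝ)..1, f (ofComplex (x + y * Complex.I)) = 0 := by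
    linear_combination h1
  simpa using h2

/-- **there is an odd Hecke–Maass cusp form for `SL₂(ℤ)`** -/
theorem exists_form : ∃ (f : ℍ → ℂ) (lam : ℂ) (a : ℕ → ℂ), IsHeckeMaassForm f lam a ∧ IsOddForm f := by
  obtain ⟨m, φ1, φ2, f, hm, hS, hf0, hV, ⟨κ, hκ⟩, hH⟩ := exists_eigen
  have he : ∀ z, Tc prof f z = m * f z := hV.eig
  choose! a ha using hH
  have hodd := odd_xy hV.odd
  refine ⟨f, -m⁻¹ * κ, a, ⟨hf0, ?_, hV.inv, hV.bdd, fun y hy => odd_int hodd hV.inv hy, fun z => ?_, ha⟩, hodd⟩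
  · have h1 := Tc_smooth prof_contDiff (by norm_num) hS.ck hV.cont (f := f)
    have h2 : (fun z : ℂ => f (ofComplex z)) = fun z => m⁻¹ * Tc prof f (ofComplex z) := by
      funext z
      rw [he, inv_mul_cancel_left₀ hm]
    rw [h2]
    exact contDiffOn_const.mul h1
  · rw [hypLap_of f hm hS hV.cont he, hκ]
    ring

end

end Pool.Agent.X291.MF
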