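import Pool.Agent.X291.MF.FSer

/-!
# Multiplicativity of the coefficients and the Euler product
-/

set_option autoImplicit false

open UpperHalfPlane MeasureTheory Set Filter Topology Function
open scoped MatrixGroups Modular ENNReal Pointwise ContDiff

namespace Pool.Agent.X291.MF

noncomputable section

variable {f : ℍ → ℂ} {lam : ℂ} {a : ℕ → ℂ} {ν : ℂ}

/-- `ρ_n = √n A_n` -/
def rho (A : ℤ → ℂ) (n : ℕ) : ℂ := (Real.sqrt n : ℂ) * A n

lemma rho_hecke (hf : IsHeckeMaassForm f lam a) {A : ℤ → ℂ} (hA : FCoef f ν A) {p : ℕ} (hp : p.Prime)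
    {n : ℕ} (hn : n ≠ 0) : a p * rho A n = (if p ∣ n then rho A (n / p) else 0) + rho A (p * n) := by
  have h1 := hA.hecke hf hp (n := (n : ℤ)) (by exact_mod_cast hn)
  have hpp : (0 : ℝ) < p := by exact_mod_cast hp.pos
  have hsp : (Real.sqrt p : ℂ) ≠ 0 := by
    have : Real.sqrt p ≠ 0 := (Real.sqrt_pos.2 hpp).ne'
    exact_mod_cast this
  have hsp2 : (p : ℂ) = (Real.sqrt p : ℂ) * (Real.sqrt p : ℂ) := by
    have : (p : ℝ) = Real.sqrt p * Real.sqrt p := (Real.mul_self_sqrt hpp.le).symm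
    exact_mod_cast this
  unfold rho
  have e1 : ((p * n : ℕ) : ℤ) = (p : ℤ) * n := by push_cast; rfl
  rw [e1, Nat.cast_mul, Real.sqrt_mul hpp.le]
  push_cast
  have e2 : ((p : ℤ) ∣ (n : ℤ)) ↔ p ∣ n := Int.natCast_dvd_natCast
  simp only [e2] at h1
  split_ifs with hd
  · rw [if_pos hd] at h1
    obtain ⟨m, rfl⟩ := hd
    rw [Nat.mul_div_cancel_left _ hp.pos]
    rw [Nat.cast_mul, Int.mul_ediv_cancel_left _ (by exact_mod_cast hp.pos.ne')] at h1
    rw [Nat.cast_mul, Real.sqrt_mul hpp.le]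
    push_cast at h1 ⊢
    rw [Int.mul_ediv_cancel_left _ (by exact_mod_cast hp.pos.ne'), mul_left_comm, h1, hsp2]
    field_simp
  · rw [if_neg hd] at h1
    rw [mul_left_comm, h1, hsp2]
    field_simp
    ring

lemma rho_zero (A : ℤ → ℂ) : rho A 0 = 0 := by simp [rho]

/-- the arithmetic facts on the normalised coefficients -/
structure Mul1 (a : ℕ → ℂ) (b : ℕ → ℂ) : Prop where
  zero : b 0 = 0
  one : b 1 = 1
  hecke : ∀ p : ℕ, p.Prime → ∀ n : ℕ, n ≠ 0 → a p * b n = (if p ∣ n then b (n / p) else 0) + b (p * n)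

lemma rho_all_zero (hf : IsHeckeMaassForm f lam a) {A : ℤ → ℂ} (hA : FCoef f ν A) (h1 : rho A 1 = 0) :
    ∀ n : ℕ, rho A n = 0 := by
  intro n
  induction n using Nat.strong_induction_on with
  | _ n ih =>
    rcases Nat.eq_zero_or_pos n with rfl | hn
    · exact rho_zero A
    · by_cases hn1 : n = 1
      · rw [hn1, h1]
      · set p := n.minFac with hp
        have hpp : p.Prime := Nat.minFac_prime hn1
        obtain ⟨m, hm⟩ := n.minFac_dvd
        have hm0 : m ≠ 0 := by rintro rfl; omega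
        have hmn : m < n := by
          rw [hm]; exact lt_mul_of_one_lt_left (Nat.pos_of_ne_zero hm0) hpp.one_lt
        have h2 := rho_hecke hf hA hpp hm0
        rw [ih m hmn, mul_zero] at h2
        rw [hm]
        have h3 : (if p ∣ m then rho A (m / p) else 0) = 0 := by
          split_ifs
          · exact ih _ (lt_of_le_of_lt (Nat.div_le_self _ _) hmn)
          · rfl
        rw [h3, zero_add] at h2
        exact h2.symm

lemma rho_one_ne (hf : IsHeckeMaassForm f lam a) (hodd : IsOddForm f) {A : ℤ → ℂ} (hA : FCoef f ν A) :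
    rho A 1 ≠ 0 := by
  intro h0
  have h1 := rho_all_zero hf hA h0
  have h2 : ∀ n : ℕ, A n = 0 := by
    intro n
    rcases Nat.eq_zero_or_pos n with rfl | hn
    · exact hA.zero
    · have := h1 n
      unfold rho at this
      rcases mul_eq_zero.1 this with h | h
      · exfalso
        have h3 : Real.sqrt n = 0 := by exact_mod_cast h
        rw [Real.sqrt_eq_zero n.cast_nonneg] at h3
        have : n = 0 := by exact_mod_cast h3
        omega
      · exact h
  have h3 : ∀ n : ℤ, A n = 0 := by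
    intro n
    obtain ⟨k, rfl | rfl⟩ := n.eq_nat_or_neg
    · exact h2 k
    · rw [hA.odd hf hodd, h2, neg_zero]
  apply hf.ne_zero
  funext z
  have h4 := hA.sum hf z.re z.im_pos
  simp only [h3, zero_mul] at h4
  have h5 := h4.unique hasSum_zero
  unfold FF at h5
  have h6 : ofComplex ((z.re : ℂ) + z.im * Complex.I) = z := by
    rw [← pt_add, pt_self]
  rw [h6] at h5
  exact h5

lemma exists_Mul1 (hf : IsHeckeMaassForm f lam a) (hodd : IsOddForm f) {A : ℤ → ℂ} (hA : FCoef f ν A) :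
    Mul1 a (fun n => rho A n / rho A 1) := by
  have h1 := rho_one_ne hf hodd hA
  refine ⟨by simp [rho_zero], div_self h1, fun p hp n hn => ?_⟩
  rw [← mul_div_assoc, rho_hecke hf hA hp hn, add_div]
  congr 1
  split_ifs <;> simp

variable {b : ℕ → ℂ}

lemma Mul1.recur (hb : Mul1 a b) {p : ℕ} (hp : p.Prime) (e : ℕ) {m : ℕ} (hm : m ≠ 0) :
    b (p ^ (e + 2) * m) = a p * b (p ^ (e + 1) * m) - b (p ^ e * m) := by
  have h := hb.hecke p hp (p ^ (e + 1) * m) (mul_ne_zero (pow_ne_zero _ hp.pos.ne') hm)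
  have h1 : p ∣ p ^ (e + 1) * m := Dvd.dvd.mul_right (dvd_pow_self p (by omega)) m
  rw [if_pos h1] at h
  have h2 : p ^ (e + 1) * m / p = p ^ e * m := by
    rw [pow_succ, mul_comm (p ^ e) p, mul_assoc, Nat.mul_div_cancel_left _ hp.pos]
  have h3 : p * (p ^ (e + 1) * m) = p ^ (e + 2) * m := by ring
  rw [h2, h3] at h
  linear_combination -h

lemma Mul1.first (hb : Mul1 a b) {p : ℕ} (hp : p.Prime) {m : ℕ} (hm : m ≠ 0) (hpm : ¬ p ∣ m) :
    b (p * m) = a p * b m := by
  have h := hb.hecke p hp m hm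
  rw [if_neg hpm, zero_add] at h
  exact h.symm

lemma Mul1.prime (hb : Mul1 a b) {p : ℕ} (hp : p.Prime) : b p = a p := by
  have := hb.first hp (m := 1) one_ne_zero (fun h => hp.one_lt.ne' (Nat.dvd_one.1 h))
  rwa [mul_one, hb.one, mul_one] at this

lemma Mul1.pow_mul (hb : Mul1 a b) {p : ℕ} (hp : p.Prime) {m : ℕ} (hm : m ≠ 0) (hpm : ¬ p ∣ m) (e : ℕ) :
    b (p ^ e * m) = b (p ^ e) * b m ∧ b (p ^ (e + 1) * m) = b (p ^ (e + 1)) * b m := by
  induction e with
  | zero =>
    refine ⟨by rw [pow_zero, one_mul, hb.one, one_mul], ?_⟩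
    rw [zero_add, pow_one, hb.first hp hm hpm, hb.prime hp]
  | succ e ih =>
    refine ⟨ih.2, ?_⟩
    have h1 := hb.recur hp e hm
    have h2 := hb.recur hp e (m := 1) one_ne_zero
    rw [mul_one, mul_one, mul_one] at h2
    rw [show e + 1 + 1 = e + 2 by ring, h1, h2, ih.1, ih.2]
    ring

lemma Mul1.mul (hb : Mul1 a b) : ∀ {m n : ℕ}, Nat.Coprime m n → b (m * n) = b m * b n := by
  intro m
  induction m using Nat.recOnPosPrimePosCoprime with
  | prime_pow p e hp he =>
    intro n hn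
    rcases Nat.eq_zero_or_pos n with rfl | hn0
    · exfalso
      rw [Nat.coprime_zero_right] at hn
      have := Nat.one_lt_pow he.ne' hp.one_lt
      omega
    · have hpn : ¬ p ∣ n := by
        intro h
        have h1 : Nat.Coprime p n := Nat.Coprime.coprime_dvd_left (dvd_pow_self p he.ne') hn
        exact hp.one_lt.ne' (Nat.Coprime.eq_one_of_dvd h1 h)
      exact (hb.pow_mul hp hn0.ne' hpn e).1
  | zero =>
    intro n hn
    rw [zero_mul, hb.zero, zero_mul]
  | one =>
    intro n _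
    rw [one_mul, hb.one, one_mul]
  | coprime c d hc hd hcd ihc ihd =>
    intro n hn
    have h1 : Nat.Coprime c n := Nat.Coprime.coprime_mul_right hn
    have h2 : Nat.Coprime d n := Nat.Coprime.coprime_mul_left hn
    rw [mul_assoc, ihc (Nat.Coprime.mul_right hcd h1), ihd h2, ihc hcd]
    ring

/-- the generating series at a prime -/
lemma Mul1.local (hb : Mul1 a b) {p : ℕ} (hp : p.Prime) {x : ℂ} (hs : Summable fun e : ℕ => b (p ^ e) * x ^ e) :
    ∑' e : ℕ, b (p ^ e) * x ^ e = (1 - a p * x + x ^ 2)⁻¹ := by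
  set S := ∑' e : ℕ, b (p ^ e) * x ^ e with hS
  have h0 : b (p ^ 0) = 1 := by rw [pow_zero, hb.one]
  have h1 : b (p ^ 1) = a p := by rw [pow_one, hb.prime hp]
  have hs1 : Summable fun e : ℕ => b (p ^ (e + 1)) * x ^ (e + 1) := (summable_nat_add_iff 1).2 hs
  have hs2 : Summable fun e : ℕ => b (p ^ (e + 2)) * x ^ (e + 2) := (summable_nat_add_iff 2).2 hs
  have e1 : S = 1 + ∑' e : ℕ, b (p ^ (e + 1)) * x ^ (e + 1) := by
    rw [hS, hs.tsum_eq_zero_add, h0]; simp
  have e2 : ∑' e : ℕ, b (p ^ (e + 1)) * x ^ (e + 1) = a p * x + ∑' e : ℕ, b (p ^ (e + 2)) * x ^ (e + 2) := by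
    rw [hs1.tsum_eq_zero_add, zero_add, h1, pow_one]
  have e3 : ∑' e : ℕ, b (p ^ (e + 2)) * x ^ (e + 2) =
      a p * x * (∑' e : ℕ, b (p ^ (e + 1)) * x ^ (e + 1)) - x ^ 2 * S := by
    rw [hS, ← tsum_mul_left, ← tsum_mul_left, ← (hs1.mul_left (a p * x)).tsum_sub (hs.mul_left (x ^ 2))]
    refine tsum_congr fun e => ?_
    have := hb.recur hp e (m := 1) one_ne_zero
    rw [mul_one, mul_one, mul_one] at this
    rw [this]; ring
  have h2 : S * (1 - a p * x + x ^ 2) = 1 := by
    rw [e3] at e2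
    have h3 : ∑' e : ℕ, b (p ^ (e + 1)) * x ^ (e + 1) = S - 1 := by rw [e1]; ring
    rw [h3] at e2
    linear_combination e2
  exact eq_inv_of_mul_eq_one_left h2

/-- **Euler product of the twist** -/
theorem euler (hb : Mul1 a b) {C : ℝ} (hC : ∀ n, ‖b n‖ ≤ C * Real.sqrt n) {N : ℕ} (χ : DirichletCharacter ℂ N)
    {s : ℂ} (hs : 3 / 2 < s.re) :
    Summable (fun n : ℕ => ‖b n * χ n * (n : ℂ) ^ (-s)‖) ∧
    HasProd (fun p : Nat.Primes => (1 - a p * χ p * (p : ℂ) ^ (-s) + χ p ^ 2 * (p : ℂ) ^ (-(2 * s)))⁻¹)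
      (∑' n : ℕ, b n * χ n * (n : ℂ) ^ (-s)) := by
  have hC0 : 0 ≤ C := by
    have := (norm_nonneg _).trans (hC 1)
    simpa using this
  have hs0 : -s ≠ 0 := by
    intro h
    have : s.re = 0 := by
      have h2 := congrArg Complex.re h
      simpa using h2
    linarith
  have hsum : Summable (fun n : ℕ => ‖b n * χ n * (n : ℂ) ^ (-s)‖) := by
    have h1 : Summable fun n : ℕ => C * (n : ℝ) ^ (1 / 2 - s.re) :=
      (Real.summable_nat_rpow.2 (by linarith)).mul_left C
    refine Summable.of_nonneg_of_le (fun n => norm_nonneg _) (fun n => ?_) h1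
    rcases Nat.eq_zero_or_pos n with rfl | hn
    · rw [hb.zero]
      simp only [zero_mul, norm_zero]
      positivity
    · have hn' : (0 : ℝ) < n := by exact_mod_cast hn
      rw [norm_mul, norm_mul, Complex.norm_natCast_cpow_of_pos hn, Complex.neg_re]
      calc ‖b n‖ * ‖χ n‖ * (n : ℝ) ^ (-s.re) ≤ (C * Real.sqrt n) * 1 * (n : ℝ) ^ (-s.re) := by
            gcongr
            · exact hC n
            · exact χ.norm_le_one _
        _ = C * (n : ℝ) ^ (1 / 2 - s.re) := by
            rw [Real.sqrt_eq_rpow, sub_eq_add_neg, Real.rpow_add hn']; ring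
  refine ⟨hsum, ?_⟩
  have h1 := EulerProduct.eulerProduct_hasProd (f := fun n : ℕ => b n * χ n * (n : ℂ) ^ (-s)) ?_ ?_ hsum ?_
  · refine h1.congr_fun fun p => ?_
    have hp := p.2
    have hx : ∀ e : ℕ, b ((p : ℕ) ^ e) * χ ((p : ℕ) ^ e : ℕ) * (((p : ℕ) ^ e : ℕ) : ℂ) ^ (-s) =
        b ((p : ℕ) ^ e) * (χ p * (p : ℂ) ^ (-s)) ^ e := by
      intro e
      rw [Nat.cast_pow, map_pow, mul_pow, mul_assoc]
      congr 2
      rw [Nat.cast_pow, ← Complex.natCast_cpow_natCast_mul, ← Complex.cpow_nat_mul]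
    have hs1 : Summable fun e : ℕ => b ((p : ℕ) ^ e) * (χ p * (p : ℂ) ^ (-s)) ^ e := by
      have h2 := hsum.of_norm.comp_injective (Nat.pow_right_injective hp.two_le)
      exact h2.congr fun e => hx e
    simp only [hx]
    rw [hb.local hp hs1]
    congr 1
    rw [mul_pow, ← Complex.cpow_nat_mul]
    push_cast
    rw [show (2 : ℂ) * -s = -(2 * s) by ring]
    ring
  · rw [hb.one]; simp
  · intro m n hmn
    rw [hb.mul hmn, Nat.cast_mul, map_mul, Nat.cast_mul, Complex.natCast_mul_natCast_cpow]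
    ring
  · rw [hb.zero]; simp

end

end Pool.Agent.X291.MF
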