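import Pool.Agent.X291.MF.Gel

/-!
# Smoothness of invariant integral operators
-/

set_option autoImplicit false

open UpperHalfPlane MeasureTheory Set Filter Topology Function
open scoped MatrixGroups Modular ENNReal Pointwise Convolution ContDiff

namespace Pool.Agent.X291.MF

noncomputable section

variable {φ : ℝ → ℝ} {R : ℝ}

/-- a smooth positive function which is the identity for `v ≥ a` -/
def hh (a v : ℝ) : ℝ := v * Real.smoothTransition (2 * v / a - 1) + (1 - Real.smoothTransition (2 * v / a - 1)) * a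

lemma hh_eq {a v : ℝ} (ha : 0 < a) (hv : a ≤ v) : hh a v = v := by
  have h1 : Real.smoothTransition (2 * v / a - 1) = 1 := by
    apply Real.smoothTransition.one_of_one_le
    have : 2 ≤ 2 * v / a := by rw [le_div_iff₀ ha]; linarith
    linarith
  rw [hh, h1]; ring

lemma hh_pos {a : ℝ} (ha : 0 < a) (v : ℝ) : 0 < hh a v := by
  have h0 := Real.smoothTransition.nonneg (2 * v / a - 1)
  have h1 := Real.smoothTransition.le_one (2 * v / a - 1)
  rcases le_or_gt (2 * v / a) 1 with h | h
  · have h2 : Real.smoothTransition (2 * v / a - 1) = 0 :=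
      Real.smoothTransition.zero_of_nonpos (by linarith)
    rw [hh, h2]; linarith
  · have hv : 0 < v := by
      rw [lt_div_iff₀ ha] at h; linarith
    unfold hh
    rcases eq_or_lt_of_le h0 with h2 | h2
    · rw [← h2]; linarith
    · have : 0 < v * Real.smoothTransition (2 * v / a - 1) := by positivity
      have : 0 ≤ (1 - Real.smoothTransition (2 * v / a - 1)) * a := mul_nonneg (by linarith) ha.le
      linarith

lemma hh_le {a : ℝ} (ha : 0 < a) (v : ℝ) : hh a v ≤ |v| + a := by
  have h0 := Real.smoothTransition.nonneg (2 * v / a - 1)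
  have h1 := Real.smoothTransition.le_one (2 * v / a - 1)
  unfold hh
  have h2 : v * Real.smoothTransition (2 * v / a - 1) ≤ |v| * 1 := by
    calc v * Real.smoothTransition (2 * v / a - 1) ≤ |v| * Real.smoothTransition (2 * v / a - 1) := by
          gcongr; exact le_abs_self v
      _ ≤ |v| * 1 := by gcongr
  have h3 : (1 - Real.smoothTransition (2 * v / a - 1)) * a ≤ 1 * a := by
    gcongr; linarith
  linarith

lemma hh_smooth (a : ℝ) : ContDiff ℝ ∞ (hh a) := by
  unfold hh
  have h1 : ContDiff ℝ ∞ fun v : ℝ => Real.smoothTransition (2 * v / a - 1) :=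
    Real.smoothTransition.contDiff.comp (by fun_prop)
  fun_prop

/-- the modified kernel -/
def gk (φ : ℝ → ℝ) (a : ℝ) (p t : ℂ) : ℝ :=
  φ (((p.re + t.re) ^ 2 + (p.im + t.im) ^ 2) / (p.im * hh a (-t.im)))

lemma gk_smooth (hφ : ContDiff ℝ ∞ φ) {a : ℝ} (ha : 0 < a) {s : Set ℂ} (hs : ∀ p ∈ s, 0 < p.im) :
    ContDiffOn ℝ ∞ (↿(gk φ a)) (s ×ˢ univ) := by
  have h1 : ContDiffOn ℝ ∞ (fun q : ℂ × ℂ => ((q.1.re + q.2.re) ^ 2 + (q.1.im + q.2.im) ^ 2) /
      (q.1.im * hh a (-q.2.im))) (s ×ˢ univ) := by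
    have hre : ContDiff ℝ ∞ Complex.re := Complex.reCLM.contDiff
    have him : ContDiff ℝ ∞ Complex.im := Complex.imCLM.contDiff
    have hhs := hh_smooth a
    refine ContDiffOn.div ?_ ?_ ?_
    · refine ContDiff.contDiffOn ?_
      have a1 : ContDiff ℝ ∞ fun q : ℂ × ℂ => q.1.re := hre.comp contDiff_fst
      have a2 : ContDiff ℝ ∞ fun q : ℂ × ℂ => q.2.re := hre.comp contDiff_snd
      have a3 : ContDiff ℝ ∞ fun q : ℂ × ℂ => q.1.im := him.comp contDiff_fst
      have a4 : ContDiff ℝ ∞ fun q : ℂ × ℂ => q.2.im := him.comp contDiff_snd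
      exact ((a1.add a2).pow 2).add ((a3.add a4).pow 2)
    · refine ContDiff.contDiffOn ?_
      have a3 : ContDiff ℝ ∞ fun q : ℂ × ℂ => q.1.im := him.comp contDiff_fst
      have a4 : ContDiff ℝ ∞ fun q : ℂ × ℂ => q.2.im := him.comp contDiff_snd
      exact a3.mul (hhs.comp a4.neg)
    · rintro ⟨p, t⟩ ⟨hp, _⟩
      exact (mul_pos (hs p hp) (hh_pos ha _)).ne'
  exact hφ.comp_contDiffOn h1

lemma comp_zero {F : ℂ × ℂ → ℂ} {s : Set ℂ} (h : ContDiffOn ℝ ∞ F (s ×ˢ univ)) :
    ContDiffOn ℝ ∞ (fun p => F (p, 0)) s := by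
  have hj : ContDiff ℝ ∞ fun p : ℂ => (p, (0 : ℂ)) := contDiff_id.prodMk contDiff_const
  exact h.comp hj.contDiffOn (fun p hp => Set.mk_mem_prod hp (mem_univ _))

lemma Tc_local (hφ : ContDiff ℝ ∞ φ) (hR0 : 0 ≤ R) (h : CKer φ R) {f : ℍ → ℂ} (hf : Continuous f)
    {z1 : ℂ} (hz1 : 0 < z1.im) :
    ContDiffOn ℝ ∞ (fun z : ℂ => Tc φ f (ofComplex z)) (Metric.ball z1 (z1.im / 2)) := by
  set y1 := z1.im with hy1
  set a := y1 / (2 * (R + 2)) with ha_def
  have ha : 0 < a := by positivity
  set s := Metric.ball z1 (y1 / 2) with hs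
  have him : ∀ p ∈ s, y1 / 2 < p.im ∧ p.im < 2 * y1 := by
    intro p hp
    rw [hs, Metric.mem_ball, Complex.dist_eq] at hp
    have h1 := Complex.abs_im_le_norm (p - z1)
    rw [Complex.sub_im] at h1
    have h2 := abs_le.1 (h1.trans hp.le)
    have h3 := abs_lt.1 (h1.trans_lt hp)
    constructor <;> linarith [h3.1, h3.2]
  have hpos : ∀ p ∈ s, 0 < p.im := fun p hp => by linarith [(him p hp).1]
  have hnorm : ∀ p ∈ s, ‖p‖ ≤ ‖z1‖ + y1 := by
    intro p hp
    rw [hs, Metric.mem_ball, Complex.dist_eq] at hp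
    have h1 := norm_add_le (p - z1) z1
    rw [sub_add_cancel] at h1
    linarith
  set ft : ℂ → ℂ := {w : ℂ | a ≤ w.im}.indicator fun w => ((w.im ^ 2)⁻¹ : ℝ) • f (ofComplex w) with hft
  set L : ℂ →L[ℝ] ℝ →L[ℝ] ℂ := (ContinuousLinearMap.lsmul ℝ ℝ).flip with hL
  have hclosed : MeasurableSet {w : ℂ | a ≤ w.im} :=
    (isClosed_le continuous_const Complex.continuous_im).measurableSet
  -- local integrability
  have hloc : LocallyIntegrable ft volume := by
    rw [locallyIntegrable_iff]
    intro K hK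
    rw [IntegrableOn, hft, integrable_indicator_iff hclosed, IntegrableOn, Measure.restrict_restrict hclosed]
    refine ContinuousOn.integrableOn_compact ?_ ?_
    · exact hK.inter_left (isClosed_le continuous_const Complex.continuous_im)
    · intro w hw
      have hw0 : 0 < w.im := lt_of_lt_of_le ha hw.1
      refine ContinuousAt.continuousWithinAt ?_
      refine ContinuousAt.smul (f := fun w : ℂ => ((w.im ^ 2)⁻¹ : ℝ)) (g := fun w : ℂ => f (ofComplex w)) ?_ ?_
      · refine ContinuousAt.inv₀ (by fun_prop) (by positivity)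
      · refine ContinuousAt.comp hf.continuousAt ?_
        exact ofComplex.continuousAt (by simpa [ofComplex] using hw0)
  -- the compact set
  set A : ℝ := R * (2 * y1) with hA
  set B : ℝ := ‖z1‖ + y1 + a with hB
  have hA0 : 0 ≤ A := by positivity
  have hB0 : 0 ≤ B := by positivity
  have hvan : ∀ p t, p ∈ s → t ∉ Metric.closedBall (0 : ℂ) (A + B + ‖z1‖ + y1) → gk φ a p t = 0 := by
    intro p t hp ht
    apply h.supp
    by_contra hcon
    push Not at hcon
    apply ht
    have hp0 := hpos p hp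
    have hh0 := hh_pos ha (-t.im)
    rw [div_le_iff₀ (by positivity)] at hcon
    have e1 : (p.re + t.re) ^ 2 + (p.im + t.im) ^ 2 = ‖p + t‖ ^ 2 := by
      rw [← Complex.normSq_eq_norm_sq, Complex.normSq_apply, Complex.add_re, Complex.add_im]; ring
    rw [e1] at hcon
    have e2 : hh a (-t.im) ≤ ‖t‖ + a := by
      have h1 := hh_le ha (-t.im)
      have h2 := Complex.abs_im_le_norm t
      rw [abs_neg] at h1
      linarith
    have e3 : ‖t‖ ≤ ‖p + t‖ + ‖p‖ := by
      have := norm_sub_le (p + t) p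
      rw [add_sub_cancel_left] at this
      exact this
    have e4 := hnorm p hp
    have e5 : ‖p + t‖ ^ 2 ≤ A * (‖p + t‖ + B) := by
      refine hcon.trans ?_
      rw [hA, mul_assoc]
      have h6 : p.im * hh a (-t.im) ≤ 2 * y1 * (‖p + t‖ + B) := by
        refine mul_le_mul (him p hp).2.le ?_ hh0.le (by positivity)
        linarith
      exact mul_le_mul_of_nonneg_left h6 hR0
    have e6 : ‖p + t‖ ≤ A + B := by
      by_contra hlt
      push Not at hlt
      have hX := norm_nonneg (p + t)
      nlinarith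
    rw [mem_closedBall_zero_iff]
    linarith
  have hsm := contDiffOn_convolution_right_with_param (n := ⊤) (μ := volume) L (f := ft) (g := gk φ a) (s := s)
    (k := Metric.closedBall (0 : ℂ) (A + B + ‖z1‖ + y1)) Metric.isOpen_ball (isCompact_closedBall _ _) hvan hloc
    (gk_smooth hφ ha hpos)
  have hsm2 := comp_zero hsm
  simp only at hsm2
  refine hsm2.congr fun p hp => ?_
  have hp0 := hpos p hp
  rw [convolution_def]
  unfold Tc
  rw [integral_eq_complex]
  have h0 : ∀ w : ℂ, w ∉ {w : ℂ | 0 < w.im} → L (ft w) (gk φ a p (0 - w)) = 0 := by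
    intro w hw
    have : ft w = 0 := by
      rw [hft]
      apply indicator_of_notMem
      intro hw2
      exact hw (lt_of_lt_of_le ha hw2)
    rw [this]; simp
  rw [← setIntegral_eq_integral_of_forall_compl_eq_zero h0]
  have hmeas : MeasurableSet {w : ℂ | 0 < w.im} := (isOpen_lt continuous_const Complex.continuous_im).measurableSet
  refine setIntegral_congr_fun hmeas fun w hw => ?_
  have hw0 : 0 < w.im := hw
  have hD : D (ofComplex p) (ofComplex w) = ((p.re - w.re) ^ 2 + (p.im - w.im) ^ 2) / (p.im * w.im) := by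
    rw [ofComplex_apply_of_im_pos hp0, ofComplex_apply_of_im_pos hw0, D, ← Complex.normSq_eq_norm_sq,
      Complex.normSq_apply, Complex.sub_re, Complex.sub_im]
    simp only [← UpperHalfPlane.coe_im]
    ring_nf
  simp only [hL, ContinuousLinearMap.flip_apply, ContinuousLinearMap.lsmul_apply]
  by_cases hwa : a ≤ w.im
  · have e1 : ft w = ((w.im ^ 2)⁻¹ : ℝ) • f (ofComplex w) := by
      rw [hft]; exact indicator_of_mem (show w ∈ {w : ℂ | a ≤ w.im} from hwa) _
    have e2 : gk φ a p (0 - w) = φ (D (ofComplex p) (ofComplex w)) := by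
      rw [hD, gk]
      congr 1
      simp only [zero_sub, Complex.neg_re, Complex.neg_im, neg_neg]
      rw [hh_eq ha hwa]
      ring
    rw [e1, e2]
    simp only [Complex.real_smul]
    ring
  · have e1 : ft w = 0 := by
      rw [hft]; exact indicator_of_notMem (show w ∉ {w : ℂ | a ≤ w.im} from hwa) _
    have e2 : φ (D (ofComplex p) (ofComplex w)) = 0 := by
      apply h.supp
      by_contra hcon
      push Not at hcon hwa
      have h1 := im_ratio_le (ofComplex p) (ofComplex w)
      rw [ofComplex_apply_of_im_pos hp0, ofComplex_apply_of_im_pos hw0] at h1 hcon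
      have h2 : p.im / w.im ≤ R + 2 := by
        have : (⟨p, hp0⟩ : ℍ).im / (⟨w, hw0⟩ : ℍ).im = p.im / w.im := rfl
        rw [this] at h1
        linarith
      rw [div_le_iff₀ hw0] at h2
      have h3 := (him p hp).1
      have h4 : a * (2 * (R + 2)) = y1 := by rw [ha_def]; field_simp
      nlinarith
    rw [e1, e2]; simp

/-- **smoothness** -/
theorem Tc_smooth (hφ : ContDiff ℝ ∞ φ) (hR0 : 0 ≤ R) (h : CKer φ R) {f : ℍ → ℂ} (hf : Continuous f) :
    ContDiffOn ℝ ∞ (fun z : ℂ => Tc φ f (ofComplex z)) {z : ℂ | 0 < z.im} := by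
  intro z1 hz1
  have hz1' : 0 < z1.im := hz1
  exact ((Tc_local hφ hR0 h hf hz1').contDiffAt (Metric.ball_mem_nhds z1 (by positivity))).contDiffWithinAt

end

end Pool.Agent.X291.MF
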