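import Pool.Agent.X291.MF.Mult

/-!
# Twisting a Maass form by a real primitive character
-/

set_option autoImplicit false

open UpperHalfPlane MeasureTheory Set Filter Topology Function
open scoped MatrixGroups Modular ENNReal Pointwise ContDiff

namespace Pool.Agent.X291.MF

noncomputable section

variable {f : ℍ → ℂ} {lam : ℂ} {a : ℕ → ℂ} {ν : ℂ} {N : ℕ} [NeZero N]

/-- primitive quadratic characters -/
structure IsPQ (χ : DirichletCharacter ℂ N) : Prop where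
  prim : χ.IsPrimitive
  quad : MulChar.IsQuadratic χ

lemma IsPQ.inv {χ : DirichletCharacter ℂ N} (h : IsPQ χ) : χ⁻¹ = χ := h.quad.inv

/-- the twisted sum `∑_a χ(a) G(z + a/N)` -/
def tw (χ : DirichletCharacter ℂ N) (G : ℂ → ℂ) (z : ℂ) : ℂ :=
  ∑ α : ZMod N, χ α * G (z + (α.val : ℂ) / N)

lemma per_nat {G : ℂ → ℂ} (hG : Per G) {z : ℂ} (hz : z ∈ UU) (n : ℤ) : G (z + n) = G z := by
  induction n using Int.induction_on generalizing z with
  | zero => simp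
  | succ i ih =>
    have h1 : z + (i : ℤ) ∈ UU := by
      show 0 < (z + (i : ℤ)).im
      simpa using hz
    have := hG _ h1
    rw [ih hz] at this
    rw [← this]; congr 1; push_cast; ring
  | pred i ih =>
    have h1 : z + ((-(i : ℤ) - 1 : ℤ) : ℂ) ∈ UU := by
      show 0 < (z + ((-(i : ℤ) - 1 : ℤ) : ℂ)).im
      simpa using hz
    have := hG _ h1
    rw [← this, ← ih hz]; congr 1; push_cast; ring

lemma add_div_mem {z : ℂ} (hz : z ∈ UU) (n : ℤ) (N : ℕ) : z + (n : ℂ) / N ∈ UU := by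
  show 0 < (z + (n : ℂ) / N).im
  have : (z + (n : ℂ) / N).im = z.im := by
    rw [Complex.add_im, show ((n : ℂ) / N) = (((n : ℝ) / N : ℝ) : ℂ) by push_cast; rfl, Complex.ofReal_im, add_zero]
  rw [this]; exact hz

lemma shift_per {G : ℂ → ℂ} (hG : Per G) {z : ℂ} (hz : z ∈ UU) (n : ℤ) :
    G (z + ((n + N : ℤ) : ℂ) / N) = G (z + (n : ℂ) / N) := by
  have h1 := per_nat hG (add_div_mem hz n N) 1
  rw [← h1]
  congr 1
  have hN : (N : ℂ) ≠ 0 := by exact_mod_cast NeZero.ne N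
  push_cast
  field_simp
  ring

/-- the values as a function on `ZMod N` -/
lemma exists_H {G : ℂ → ℂ} (hG : Per G) {z : ℂ} (hz : z ∈ UU) (χ : DirichletCharacter ℂ N) :
    ∃ H : ZMod N → ℂ, (∀ n : ℤ, H n = G (z + (n : ℂ) / N)) ∧ tw χ G z = ∑ α, χ α * H α := by
  obtain ⟨H, h1, _⟩ := exists_zmod (p := N) (fun n : ℤ => G (z + (n : ℂ) / N)) (fun n => shift_per hG hz n)
  refine ⟨H, h1, ?_⟩
  unfold tw
  refine Finset.sum_congr rfl fun α _ => ?_
  congr 1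
  have h2 := h1 (α.val : ℤ)
  push_cast at h2
  rw [ZMod.natCast_zmod_val] at h2
  exact h2.symm

lemma sum_units (χ : DirichletCharacter ℂ N) (g : ZMod N → ℂ) :
    ∑ α, χ α * g α = ∑ u : (ZMod N)ˣ, χ u * g u := by
  symm
  refine Fintype.sum_of_injective (fun u : (ZMod N)ˣ => (u : ZMod N)) Units.val_injective _ _ ?_ (fun u => rfl)
  intro α hα
  have : ¬ IsUnit α := by
    rintro ⟨u, rfl⟩
    exact hα ⟨u, rfl⟩
  rw [MulChar.map_nonunit χ this, zero_mul]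

lemma neg_inv_mem {z : ℂ} (hz : z ∈ UU) : -1 / ((N : ℂ) ^ 2 * z) ∈ UU := by
  have hN : (0 : ℝ) < N := by exact_mod_cast Nat.pos_of_ne_zero (NeZero.ne N)
  refine im_neg_inv ?_
  have : ((N : ℂ) ^ 2 * z).im = (N : ℝ) ^ 2 * z.im := by
    rw [show ((N : ℂ) ^ 2) = (((N : ℝ) ^ 2 : ℝ) : ℂ) by push_cast; rfl, Complex.im_ofReal_mul]
  rw [this]
  have hz' : 0 < z.im := hz
  positivity

/-- **functional equation of the twisted form** -/
lemma tw_fe (hinv : ∀ (γ : SL(2, ℤ)) z, f (γ • z) = f z) {χ : DirichletCharacter ℂ N} (hχ : IsPQ χ) {z : ℂ}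
    (hz : z ∈ UU) : tw χ (FF f) (-1 / ((N : ℂ) ^ 2 * z)) = χ (-1) * tw χ (FF f) z := by
  have hz' : 0 < z.im := hz
  have hz0 : z ≠ 0 := by rintro rfl; simp at hz'
  have hN : (N : ℂ) ≠ 0 := by exact_mod_cast NeZero.ne N
  have hper := FF_per hinv
  obtain ⟨H, h1, h2⟩ := exists_H hper hz χ
  obtain ⟨H', h1', h2'⟩ := exists_H hper (neg_inv_mem (N := N) hz) χ
  rw [h2, h2', sum_units, sum_units]
  have e1 : ∀ u : (ZMod N)ˣ, H' u = H ((-u⁻¹ : (ZMod N)ˣ) : ZMod N) := by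
    intro u
    obtain ⟨b, hb⟩ := ZMod.intCast_surjective (u : ZMod N)
    obtain ⟨b', hb'⟩ := ZMod.intCast_surjective ((-u⁻¹ : (ZMod N)ˣ) : ZMod N)
    rw [← hb, ← hb', h1, h1']
    have h3 : ((b * b' + 1 : ℤ) : ZMod N) = 0 := by
      push_cast
      rw [hb, hb']
      simp
    rw [ZMod.intCast_zmod_eq_zero_iff_dvd] at h3
    obtain ⟨k, hk⟩ := h3
    have h4 := inv_apply hinv (a := b) (b := -k) (c := N) (d := -b') (by linarith) (add_div_mem hz b' N)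
    unfold FF
    rw [← h4]
    congr 2
    have hk' : (b : ℂ) * b' + 1 = N * k := by exact_mod_cast hk
    have h5 : (N : ℂ) * (z + b' / N) + -(b' : ℂ) = N * z := by field_simp; ring
    push_cast
    rw [h5]
    field_simp
    linear_combination (-1 : ℂ) * hk'
  simp only [e1]
  rw [Finset.mul_sum, ← Equiv.sum_comp ((Equiv.inv (ZMod N)ˣ).trans (Equiv.neg (ZMod N)ˣ))]
  refine Finset.sum_congr rfl fun v _ => ?_
  simp only [Equiv.trans_apply, Equiv.inv_apply, Equiv.neg_apply]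
  have e2 : (-(-v⁻¹)⁻¹ : (ZMod N)ˣ) = v := by rw [inv_neg, inv_inv, neg_neg]
  rw [e2, ← mul_assoc]
  congr 1
  have e3 : ((-v⁻¹ : (ZMod N)ˣ) : ZMod N) = (-1 : ZMod N) * ((v⁻¹ : (ZMod N)ˣ) : ZMod N) := by
    rw [Units.val_neg]; ring
  rw [e3, map_mul]
  congr 1
  have e4 : χ⁻¹ (v : ZMod N) = χ ((v⁻¹ : (ZMod N)ˣ) : ZMod N) := by
    rw [MulChar.inv_apply, Ring.inverse_unit]
  rw [← e4, hχ.inv]

/-- Gauss sum -/
lemma gauss_val {χ : DirichletCharacter ℂ N} (hχ : IsPQ χ) (n : ℤ) :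
    ∑ α : ZMod N, χ α * Complex.exp (2 * Real.pi * Complex.I * n * (α.val / N)) =
      χ n * gaussSum χ (ZMod.stdAddChar (N := N)) := by
  have h1 := gaussSum_mulShift_of_isPrimitive (e := ZMod.stdAddChar (N := N)) hχ.prim (n : ZMod N)
  rw [hχ.inv] at h1
  rw [← h1, gaussSum]
  refine Finset.sum_congr rfl fun α _ => ?_
  congr 1
  rw [AddChar.mulShift_apply]
  have h2 : (n : ZMod N) * α = ((n * α.val : ℤ) : ZMod N) := by
    push_cast; rw [ZMod.natCast_zmod_val]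
  rw [h2, ZMod.stdAddChar_coe]
  congr 1
  push_cast
  ring

lemma gauss_ne {χ : DirichletCharacter ℂ N} (hχ : IsPQ χ) : gaussSum χ (ZMod.stdAddChar (N := N)) ≠ 0 := by
  intro h0
  have h1 : ZMod.dft (fun k : ZMod N => χ k) = 0 := by
    funext k
    have := hχ.prim.fourierTransform_eq_inv_mul_gaussSum k
    rw [h0, mul_zero] at this
    exact this
  have h2 : (fun k : ZMod N => χ k) = 0 := by
    apply (ZMod.dft (N := N) (E := ℂ)).injective
    rw [h1, map_zero]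
  have h3 := congrFun h2 1
  simp at h3

lemma mem_I {y : ℝ} (hy : 0 < y) : (y : ℂ) * Complex.I ∈ UU := by
  have := xy_mem (x := 0) hy
  simpa using this

lemma tw_hasSum {G : ℂ → ℂ} {χ : DirichletCharacter ℂ N} (hχ : IsPQ χ) {y : ℝ} {c : ℤ → ℂ}
    (h : ∀ x : ℝ, HasSum (fun n : ℤ => c n * ee (-n) x) (G (x + y * Complex.I))) :
    HasSum (fun n : ℤ => c n * (χ n * gaussSum χ (ZMod.stdAddChar (N := N)))) (tw χ G (y * Complex.I)) := by
  have h1 : HasSum (fun n : ℤ => ∑ α : ZMod N, χ α * (c n * ee (-n) ((α.val : ℝ) / N)))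
      (∑ α : ZMod N, χ α * G (((α.val : ℝ) / N : ℝ) + y * Complex.I)) :=
    hasSum_sum fun α _ => (h ((α.val : ℝ) / N)).mul_left (χ α)
  have h2 : tw χ G (y * Complex.I) = ∑ α : ZMod N, χ α * G (((α.val : ℝ) / N : ℝ) + y * Complex.I) := by
    unfold tw
    refine Finset.sum_congr rfl fun α _ => ?_
    congr 2
    push_cast; ring
  rw [h2]
  refine h1.congr_fun fun n => ?_
  rw [← gauss_val hχ, Finset.mul_sum]
  refine Finset.sum_congr rfl fun α _ => ?_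
  have : ee (-n) ((α.val : ℝ) / N) = Complex.exp (2 * Real.pi * Complex.I * n * (α.val / N)) := by
    unfold ee; congr 1; push_cast; ring
  rw [this]; ring

lemma smooth_tw {G : ℂ → ℂ} (hG : ContDiffOn ℝ ∞ G UU) (χ : DirichletCharacter ℂ N) : ContDiffOn ℝ ∞ (tw χ G) UU := by
  unfold tw
  refine ContDiffOn.sum fun α _ => ?_
  refine contDiffOn_const.mul ?_
  refine hG.comp (f := fun z : ℂ => z + (α.val : ℂ) / N) (by fun_prop) fun z hz => ?_
  have := add_div_mem hz (α.val : ℤ) N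
  push_cast at this
  exact this

lemma Gx_tw {G : ℂ → ℂ} (hG : ContDiffOn ℝ ∞ G UU) (χ : DirichletCharacter ℂ N) (x : ℝ) {y : ℝ} (hy : 0 < y) :
    Gx (tw χ G) (x + y * Complex.I) = tw χ (Gx G) (x + y * Complex.I) := by
  have h1 := hasDeriv_Gx (smooth_tw hG χ) x hy
  have h2 : HasDerivAt (fun s : ℝ => tw χ G (s + y * Complex.I)) (tw χ (Gx G) (x + y * Complex.I)) x := by
    unfold tw
    refine HasDerivAt.fun_sum fun α _ => ?_
    refine HasDerivAt.const_mul _ ?_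
    have h3 := hasDeriv_Gx hG (x + (α.val : ℝ) / N) hy
    have h4 := HasDerivAt.comp_add_const (x := x) (a := (α.val : ℝ) / N)
      (f := fun s : ℝ => G ((s : ℂ) + y * Complex.I)) h3
    have e1 : (fun s : ℝ => G (((s + (α.val : ℝ) / N : ℝ) : ℂ) + y * Complex.I)) =
        fun s : ℝ => G ((s : ℂ) + y * Complex.I + (α.val : ℂ) / N) := by
      funext s; congr 1; push_cast; ring
    have e2 : (((x + (α.val : ℝ) / N : ℝ) : ℂ) + y * Complex.I) = (x : ℂ) + y * Complex.I + (α.val : ℂ) / N := by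
      push_cast; ring
    rw [e2] at h4
    have h5 : HasDerivAt (fun s : ℝ => G (((s + (α.val : ℝ) / N : ℝ) : ℂ) + y * Complex.I))
      (Gx G ((x : ℂ) + y * Complex.I + (α.val : ℂ) / N)) x := h4
    rw [e1] at h5
    exact h5
  exact h1.unique h2

lemma neg_inv_I {y : ℝ} (hy : 0 < y) : -1 / ((N : ℂ) ^ 2 * (y * Complex.I)) = ((1 / ((N : ℝ) ^ 2 * y) : ℝ) : ℂ) * Complex.I := by
  have hN : (N : ℂ) ≠ 0 := by exact_mod_cast NeZero.ne N
  have hyc : (y : ℂ) ≠ 0 := by exact_mod_cast hy.ne'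
  push_cast
  rw [div_mul_eq_mul_div, one_mul, div_eq_div_iff (by simp [hN, hyc]) (by simp [hN, hyc])]
  linear_combination (-(N : ℂ) ^ 2 * y) * Complex.I_sq

/-- functional equation, first kind -/
lemma fe0 (hf : IsHeckeMaassForm f lam a) {χ : DirichletCharacter ℂ N} (hχ : IsPQ χ) {y : ℝ} (hy : 0 < y) :
    tw χ (FF f) ((1 / ((N : ℝ) ^ 2 * y) : ℝ) * Complex.I) = χ (-1) * tw χ (FF f) (y * Complex.I) := by
  rw [← neg_inv_I hy]
  exact tw_fe hf.invariant hχ (mem_I hy)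

/-- functional equation, second kind -/
lemma fe1 (hf : IsHeckeMaassForm f lam a) {χ : DirichletCharacter ℂ N} (hχ : IsPQ χ) {y : ℝ} (hy : 0 < y) :
    tw χ (Gx (FF f)) ((1 / ((N : ℝ) ^ 2 * y) : ℝ) * Complex.I) =
      -((N : ℂ) ^ 2 * y ^ 2) * (χ (-1) * tw χ (Gx (FF f)) (y * Complex.I)) := by
  have hs : ContDiffOn ℝ ∞ (FF f) UU := hf.smooth
  have hN : (N : ℂ) ≠ 0 := by exact_mod_cast NeZero.ne N
  have hNr : (0 : ℝ) < N := by exact_mod_cast Nat.pos_of_ne_zero (NeZero.ne N)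
  have hyc : (y : ℂ) ≠ 0 := by exact_mod_cast hy.ne'
  have hP := smooth_tw (N := N) hs χ
  have hy' : 0 < 1 / ((N : ℝ) ^ 2 * y) := by positivity
  -- derivative of the right-hand side
  have h1 := (hasDeriv_Gx hP 0 hy).const_mul (χ (-1))
  -- derivative of the left-hand side
  have hw : HasDerivAt (fun s : ℝ => -1 / ((N : ℂ) ^ 2 * ((s : ℂ) + y * Complex.I)))
      ((-(1 / ((N : ℝ) ^ 2 * y ^ 2)) : ℝ) : ℂ) 0 := by
    have h2 : HasDerivAt (fun s : ℝ => (N : ℂ) ^ 2 * ((s : ℂ) + y * Complex.I)) ((N : ℂ) ^ 2) 0 := by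
      have h3 : HasDerivAt (fun s : ℝ => ((s : ℂ) + y * Complex.I)) 1 0 := by
        simpa using (Complex.ofRealCLM.hasDerivAt (x := (0 : ℝ))).add_const (y * Complex.I : ℂ)
      simpa using h3.const_mul ((N : ℂ) ^ 2)
    have hne : (N : ℂ) ^ 2 * (((0 : ℝ) : ℂ) + y * Complex.I) ≠ 0 := by simp [hN, hyc]
    have h3 := (hasDerivAt_const (0 : ℝ) (-1 : ℂ)).div h2 hne
    refine h3.congr_deriv ?_
    push_cast
    rw [zero_add]
    have hI : Complex.I ^ 2 = -1 := Complex.I_sq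
    have e : ((N : ℂ) ^ 2 * ((y : ℂ) * Complex.I)) ^ 2 = -((N : ℂ) ^ 4 * y ^ 2) := by
      linear_combination ((N : ℂ) ^ 4 * y ^ 2) * hI
    rw [e]
    field_simp
    ring
  have hmem := mem_I hy'
  have e0 : -1 / ((N : ℂ) ^ 2 * (((0 : ℝ) : ℂ) + y * Complex.I)) = ((1 / ((N : ℝ) ^ 2 * y) : ℝ) : ℂ) * Complex.I := by
    rw [Complex.ofReal_zero, zero_add]; exact neg_inv_I hy
  have h4 : HasDerivAt (fun s : ℝ => tw χ (FF f) (-1 / ((N : ℂ) ^ 2 * ((s : ℂ) + y * Complex.I))))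
      (fderiv ℝ (tw χ (FF f)) (((1 / ((N : ℝ) ^ 2 * y) : ℝ) : ℂ) * Complex.I) ((-(1 / ((N : ℝ) ^ 2 * y ^ 2)) : ℝ) : ℂ)) 0 := by
    have h5 := hasFDeriv hP hmem
    rw [← e0] at h5 ⊢
    exact h5.comp_hasDerivAt (0 : ℝ) hw
  have h5 : (fun s : ℝ => tw χ (FF f) (-1 / ((N : ℂ) ^ 2 * ((s : ℂ) + y * Complex.I)))) =
      fun s : ℝ => χ (-1) * tw χ (FF f) ((s : ℂ) + y * Complex.I) := by
    funext s
    exact tw_fe hf.invariant hχ (xy_mem hy)
  rw [h5] at h4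
  have h6 := h4.unique h1
  have h7 : fderiv ℝ (tw χ (FF f)) (((1 / ((N : ℝ) ^ 2 * y) : ℝ) : ℂ) * Complex.I) ((-(1 / ((N : ℝ) ^ 2 * y ^ 2)) : ℝ) : ℂ) =
      ((-(1 / ((N : ℝ) ^ 2 * y ^ 2)) : ℝ) : ℂ) * Gx (tw χ (FF f)) (((1 / ((N : ℝ) ^ 2 * y) : ℝ) : ℂ) * Complex.I) := by
    have e1 : ((-(1 / ((N : ℝ) ^ 2 * y ^ 2)) : ℝ) : ℂ) = (-(1 / ((N : ℝ) ^ 2 * y ^ 2)) : ℝ) • (1 : ℂ) := by
      rw [Complex.real_smul, mul_one]
    rw [e1, map_smul, Gx, Complex.real_smul, Complex.real_smul, mul_one]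
  rw [h7] at h6
  have h8 := Gx_tw hs χ 0 hy
  have h9 := Gx_tw hs χ 0 hy'
  rw [Complex.ofReal_zero, zero_add] at h8 h9
  rw [Complex.ofReal_zero, zero_add, h8, h9] at h6
  push_cast at h6 ⊢
  field_simp at h6 ⊢
  linear_combination -h6

end

end Pool.Agent.X291.MF
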