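import Pool.Agent.X291.MF.Bnd

/-!
# Unfolding
-/

set_option autoImplicit false

open UpperHalfPlane MeasureTheory Set Filter Topology Function
open scoped MatrixGroups Modular ENNReal Pointwise

namespace Pool.Agent.X291.MF

noncomputable section

lemma null_of_coe {A : Set ℍ} (h : volume (UpperHalfPlane.coe '' A) = 0) : volume A = 0 := by
  rw [volume_eq_lintegral]
  exact setLIntegral_measure_zero _ _ h

lemma null_re (c : ℝ) : volume {z : ℂ | z.re = c} = 0 := by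
  have h1 : {z : ℂ | z.re = c} = Complex.measurableEquivRealProd ⁻¹' (({c} : Set ℝ) ×ˢ (Set.univ : Set ℝ)) := by
    ext z
    simp [Complex.measurableEquivRealProd]
  rw [h1, Complex.volume_preserving_equiv_real_prod.measure_preimage
    ((measurableSet_singleton c).prod MeasurableSet.univ).nullMeasurableSet]
  rw [Measure.volume_eq_prod, Measure.prod_prod]
  simp

lemma null_boundary : volume (𝒟 \ 𝒟ᵒ : Set ℍ) = 0 := by
  apply null_of_coe
  refine measure_mono_null (t := Metric.sphere (0 : ℂ) 1 ∪ ({z : ℂ | z.re = 1 / 2} ∪ {z : ℂ | z.re = -(1 / 2)})) ?_ ?_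
  · rintro _ ⟨z, ⟨hz1, hz2⟩, rfl⟩
    rw [ModularGroup.fd, mem_ofPred_eq] at hz1
    rw [ModularGroup.fdo, mem_ofPred_eq, not_and_or, not_lt, not_lt] at hz2
    rcases hz2 with h | h
    · left
      have h3 : Complex.normSq (z : ℂ) = 1 := le_antisymm h hz1.1
      rw [Complex.normSq_eq_norm_sq] at h3
      simp only [mem_sphere_iff_norm, sub_zero]
      have := norm_nonneg (z : ℂ)
      nlinarith
    · right
      have h3 : |z.re| = 1 / 2 := le_antisymm hz1.2 h
      rcases (abs_eq (by norm_num)).1 h3 with h4 | h4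
      · left; exact h4
      · right; exact h4
  · rw [measure_union_null_iff, measure_union_null_iff]
    exact ⟨Measure.addHaar_sphere volume 0 1, null_re _, null_re _⟩

instance : Countable SL(2, ℤ) := by
  have : Function.Injective (fun g : SL(2, ℤ) => ((g 0 0, g 0 1), (g 1 0, g 1 1))) := by
    intro a b h
    simp only [Prod.mk.injEq] at h
    ext i j
    fin_cases i <;> fin_cases j <;> simp [h]
  exact this.countable

instance : SMulInvariantMeasure SL(2, ℤ) ℍ volume :=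
  ⟨fun γ _ hs => (measurePreserving_smul (γ : GL (Fin 2) ℝ) (volume : Measure ℍ)).measure_preimage hs.nullMeasurableSet⟩

instance : ContinuousConstSMul SL(2, ℤ) ℍ := ⟨cont_SL⟩

instance : MeasurableConstSMul SL(2, ℤ) ℍ := ⟨fun γ => (cont_SL γ).measurable⟩

lemma measurable_fd : MeasurableSet (𝒟 : Set ℍ) := ModularGroup.isClosed_fd.measurableSet

/-- almost every point has exactly two translates in the fundamental domain -/
lemma ae_two : ∀ᵐ w : ℍ, ∃ γ₀ : SL(2, ℤ), ∀ γ : SL(2, ℤ), γ • w ∈ 𝒟 ↔ γ = γ₀ ∨ γ = -γ₀ := by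
  have h1 : ∀ᵐ w : ℍ, ∀ γ : SL(2, ℤ), γ • w ∉ (𝒟 \ 𝒟ᵒ : Set ℍ) := by
    rw [ae_all_iff]
    intro γ
    have h := (measurePreserving_smul γ (volume : Measure ℍ)).quasiMeasurePreserving.ae
      (p := fun w => w ∉ (𝒟 \ 𝒟ᵒ : Set ℍ)) (measure_eq_zero_iff_ae_notMem.1 null_boundary)
    exact h
  filter_upwards [h1] with w hw
  obtain ⟨γ₀, hγ₀⟩ := ModularGroup.exists_smul_mem_fd w
  have h2 : γ₀ • w ∈ 𝒟ᵒ := by
    by_contra hcon
    exact hw γ₀ ⟨hγ₀, hcon⟩
  refine ⟨γ₀, fun γ => ⟨fun h => ?_, ?_⟩⟩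
  · have h3 : (γ * γ₀⁻¹) • (γ₀ • w) ∈ 𝒟 := by rw [mul_smul, inv_smul_smul]; exact h
    rcases ModularGroup.eq_one_or_neg_one_of_mem_fdo_mem_fd h2 h3 with h4 | h4
    · left; exact mul_inv_eq_one.1 h4
    · right
      have := mul_inv_eq_iff_eq_mul.1 h4
      rw [this]; simp
  · rintro (rfl | rfl)
    · exact hγ₀
    · rw [ModularGroup.SL_neg_smul]; exact hγ₀

lemma neg_ne_self (γ : SL(2, ℤ)) : γ ≠ -γ := by
  intro h
  have hd := γ.det_coe
  rw [Matrix.det_fin_two] at hd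
  have h00 := congrArg (fun g : SL(2, ℤ) => g 0 0) h
  have h10 := congrArg (fun g : SL(2, ℤ) => g 1 0) h
  simp only [Matrix.SpecialLinearGroup.coe_neg, Matrix.neg_apply] at h00 h10
  have a : γ 0 0 = 0 := by linarith
  have b : γ 1 0 = 0 := by linarith
  rw [a, b] at hd
  simp at hd

lemma lint_unfold (g : ℍ → ℝ≥0∞) (hg : Measurable g) :
    ∑' γ : SL(2, ℤ), ∫⁻ w in 𝒟, g (γ • w) = 2 * ∫⁻ w, g w := by
  have h1 : ∀ γ : SL(2, ℤ), ∫⁻ w in 𝒟, g (γ • w) = ∫⁻ w, (𝒟 : Set ℍ).indicator 1 (γ⁻¹ • w) * g w := by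
    intro γ
    rw [← lintegral_indicator measurable_fd]
    have h2 := (measurePreserving_smul γ (volume : Measure ℍ)).lintegral_comp
      (f := fun w => (𝒟 : Set ℍ).indicator 1 (γ⁻¹ • w) * g w) (by
        refine Measurable.mul ?_ hg
        exact (measurable_one.indicator measurable_fd).comp (measurable_const_smul γ⁻¹))
    rw [← h2]
    refine lintegral_congr fun w => ?_
    rw [inv_smul_smul]
    by_cases hw : w ∈ 𝒟
    · simp [hw]
    · simp [hw]
  simp only [h1]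
  have hmeas : ∀ γ : SL(2, ℤ), AEMeasurable (fun w : ℍ => (𝒟 : Set ℍ).indicator (1 : ℍ → ℝ≥0∞) (γ⁻¹ • w) * g w) volume :=
    fun γ => (Measurable.mul ((measurable_one.indicator measurable_fd).comp
      (measurable_const_smul γ⁻¹)) hg).aemeasurable
  rw [← lintegral_tsum hmeas, ← lintegral_const_mul _ hg]
  refine lintegral_congr_ae ?_
  filter_upwards [ae_two] with w hw
  obtain ⟨γ₀, hγ₀⟩ := hw
  rw [ENNReal.tsum_mul_right]
  congr 1
  rw [tsum_eq_sum (s := {γ₀⁻¹, -γ₀⁻¹})]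
  · rw [Finset.sum_pair (neg_ne_self _)]
    have h3 : γ₀ • w ∈ 𝒟 := (hγ₀ γ₀).2 (Or.inl rfl)
    have h4 : (-γ₀⁻¹)⁻¹ • w ∈ 𝒟 := by
      rw [inv_neg, inv_inv, ModularGroup.SL_neg_smul]; exact h3
    rw [inv_inv, indicator_of_mem h3, indicator_of_mem h4]
    simp; norm_num
  · intro γ hγ
    rw [Finset.mem_insert, Finset.mem_singleton, not_or] at hγ
    apply indicator_of_notMem
    intro h5
    rcases (hγ₀ γ⁻¹).1 h5 with h6 | h6
    · exact hγ.1 (by rw [← h6, inv_inv])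
    · apply hγ.2
      rw [← inv_neg, neg_eq_iff_eq_neg.1 h6.symm, neg_neg, inv_inv]

/-- **unfolding** -/
lemma unfold_hasSum {G : ℍ → ℂ} (hG : Integrable G) (hm : Measurable G) :
    HasSum (fun γ : SL(2, ℤ) => ∫ w in 𝒟, G (γ • w)) (2 * ∫ w, G w) ∧
    Summable (fun γ : SL(2, ℤ) => ∫ w in 𝒟, ‖G (γ • w)‖) ∧
    (∀ γ : SL(2, ℤ), IntegrableOn (fun w => G (γ • w)) 𝒟) := by
  have hint : ∀ γ : SL(2, ℤ), Integrable (fun w => G (γ • w)) := fun γ =>
    (measurePreserving_smul γ (volume : Measure ℍ)).integrable_comp_of_integrable hG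
  have hfin : ∑' γ : SL(2, ℤ), ∫⁻ w in 𝒟, ‖G (γ • w)‖ₑ ≠ ∞ := by
    rw [lint_unfold (fun w => ‖G w‖ₑ) hm.enorm]
    exact ENNReal.mul_ne_top (by norm_num) hG.2.ne
  have hsumm : Summable (fun γ : SL(2, ℤ) => ∫ w in 𝒟, ‖G (γ • w)‖) := by
    have h1 : ∀ γ : SL(2, ℤ), ∫ w in 𝒟, ‖G (γ • w)‖ = (∫⁻ w in 𝒟, ‖G (γ • w)‖ₑ).toReal := by
      intro γ
      rw [integral_norm_eq_lintegral_enorm (hint γ).aestronglyMeasurable.restrict]
    simp only [h1]
    exact ENNReal.summable_toReal hfin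
  refine ⟨?_, hsumm, fun γ => (hint γ).integrableOn⟩
  -- rewrite as integrals over the plane
  have h1 : ∀ γ : SL(2, ℤ), ∫ w in 𝒟, G (γ • w) = ∫ w, (𝒟 : Set ℍ).indicator 1 (γ⁻¹ • w) * G w := by
    intro γ
    rw [← integral_indicator measurable_fd]
    have h2 := (measurePreserving_smul γ (volume : Measure ℍ)).integral_comp
      (Homeomorph.smul γ).measurableEmbedding (fun w => (𝒟 : Set ℍ).indicator 1 (γ⁻¹ • w) * G w)
    rw [← h2]
    refine integral_congr_ae (Eventually.of_forall fun w => ?_)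
    simp only
    rw [inv_smul_smul]
    by_cases hw : w ∈ 𝒟
    · simp [hw]
    · simp [hw]
  have hn : ∀ γ : SL(2, ℤ), ∫ w in 𝒟, ‖G (γ • w)‖ = ∫ w, ‖(𝒟 : Set ℍ).indicator 1 (γ⁻¹ • w) * G w‖ := by
    intro γ
    rw [← integral_indicator measurable_fd]
    have h2 := (measurePreserving_smul γ (volume : Measure ℍ)).integral_comp
      (Homeomorph.smul γ).measurableEmbedding (fun w => ‖(𝒟 : Set ℍ).indicator 1 (γ⁻¹ • w) * G w‖)
    rw [← h2]
    refine integral_congr_ae (Eventually.of_forall fun w => ?_)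
    simp only
    rw [inv_smul_smul]
    by_cases hw : w ∈ 𝒟
    · simp [hw]
    · simp [hw]
  have hi2 : ∀ γ : SL(2, ℤ), Integrable (fun w => (𝒟 : Set ℍ).indicator (1 : ℍ → ℂ) (γ⁻¹ • w) * G w) := by
    intro γ
    refine (hG.norm).mono' ?_ (Eventually.of_forall fun w => ?_)
    · exact (((measurable_one.indicator measurable_fd).comp (measurable_const_smul γ⁻¹)).mul hm).aestronglyMeasurable
    · rw [norm_mul]
      refine mul_le_of_le_one_left (norm_nonneg _) ?_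
      by_cases hw : γ⁻¹ • w ∈ 𝒟
      · rw [indicator_of_mem hw]; simp
      · rw [indicator_of_notMem hw]; simp
  have h3 := hasSum_integral_of_summable_integral_norm hi2 (by simpa only [← hn] using hsumm)
  simp only [h1]
  suffices hval : 2 * ∫ w, G w = ∫ w, ∑' γ : SL(2, ℤ), (𝒟 : Set ℍ).indicator (1 : ℍ → ℂ) (γ⁻¹ • w) * G w by
    rw [hval]; exact h3
  rw [← integral_const_mul]
  refine integral_congr_ae ?_
  filter_upwards [ae_two] with w hw
  obtain ⟨γ₀, hγ₀⟩ := hw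
  rw [tsum_eq_sum (s := {γ₀⁻¹, -γ₀⁻¹})]
  · rw [Finset.sum_pair (neg_ne_self _)]
    have h3 : γ₀ • w ∈ 𝒟 := (hγ₀ γ₀).2 (Or.inl rfl)
    have h4 : (-γ₀⁻¹)⁻¹ • w ∈ 𝒟 := by
      rw [inv_neg, inv_inv, ModularGroup.SL_neg_smul]; exact h3
    rw [inv_inv, indicator_of_mem h3, indicator_of_mem h4]
    simp; ring
  · intro γ hγ
    rw [Finset.mem_insert, Finset.mem_singleton, not_or] at hγ
    rw [indicator_of_notMem, zero_mul]
    intro h5
    rcases (hγ₀ γ⁻¹).1 h5 with h6 | h6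
    · exact hγ.1 (by rw [← h6, inv_inv])
    · apply hγ.2
      rw [← inv_neg, neg_eq_iff_eq_neg.1 h6.symm, neg_neg, inv_inv]

lemma unfold_int {G : ℍ → ℂ} (hG : Integrable G) (hm : Measurable G) :
    ∫ w in 𝒟, ∑' γ : SL(2, ℤ), G (γ • w) = 2 * ∫ w, G w := by
  obtain ⟨h1, h2, h3⟩ := unfold_hasSum hG hm
  have h4 := hasSum_integral_of_summable_integral_norm h3 h2
  exact h4.unique h1

end

end Pool.Agent.X291.MF
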