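import Pool.Agent.X291.MF.Unf

/-!
# The hyperbolic measure: finite volume of the fundamental domain, positivity, formula on `ℂ`
-/

set_option autoImplicit false

open UpperHalfPlane MeasureTheory Set Filter Topology Function
open scoped MatrixGroups Modular ENNReal Pointwise

namespace Pool.Agent.X291.MF

noncomputable section

lemma vol_fd_lt_top : volume (𝒟 : Set ℍ) < ∞ := by
  rw [volume_eq_lintegral]
  have h1 : UpperHalfPlane.coe '' (𝒟 : Set ℍ) ⊆
      Complex.measurableEquivRealProd ⁻¹' (Icc (-(1/2) : ℝ) (1 / 2) ×ˢ Ioi (1 / 3 : ℝ)) := by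
    rintro _ ⟨z, hz, rfl⟩
    have h2 := mem_fd_im hz
    have h3 := abs_le.1 hz.2
    simp only [Complex.measurableEquivRealProd, mem_preimage]
    refine ⟨⟨?_, ?_⟩, ?_⟩
    · exact h3.1
    · exact h3.2
    · show (1 / 3 : ℝ) < z.im
      linarith
  refine (lintegral_mono_set h1).trans_lt ?_
  have h2 := Complex.volume_preserving_equiv_real_prod.setLIntegral_comp_preimage_emb
    Complex.measurableEquivRealProd.measurableEmbedding
    (fun p : ℝ × ℝ => (↑((1 / ‖p.2‖₊) ^ 2 : NNReal) : ℝ≥0∞)) (Icc (-(1/2) : ℝ) (1 / 2) ×ˢ Ioi (1 / 3 : ℝ))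
  have h3 : ∀ z : ℂ, (Complex.measurableEquivRealProd z).2 = z.im := fun z => rfl
  simp only [h3] at h2
  rw [h2, Measure.volume_eq_prod, ← Measure.prod_restrict, lintegral_prod]
  · simp only [lintegral_const, Measure.restrict_apply MeasurableSet.univ, univ_inter]
    refine ENNReal.mul_lt_top ?_ (by simp)
    have h4 : IntegrableOn (fun y : ℝ => y ^ (-2 : ℝ)) (Ioi (1 / 3 : ℝ)) :=
      integrableOn_Ioi_rpow_of_lt (by norm_num) (by norm_num)
    have h5 := h4.2
    refine lt_of_le_of_lt (lintegral_mono_ae ?_) h5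
    filter_upwards [ae_restrict_mem measurableSet_Ioi] with y hy
    have hy0 : 0 < y := lt_trans (by norm_num) hy
    rw [enorm_eq_nnnorm, ENNReal.coe_le_coe]
    apply le_of_eq
    ext
    push_cast
    rw [Real.norm_of_nonneg hy0.le, Real.norm_of_nonneg (by positivity), Real.rpow_neg hy0.le]
    norm_cast
    rw [one_div, inv_pow]
  · refine Measurable.aemeasurable ?_
    fun_prop

instance : IsFiniteMeasure ((volume : Measure ℍ).restrict 𝒟) :=
  ⟨by rw [Measure.restrict_apply_univ]; exact vol_fd_lt_top⟩

lemma vol_open_pos {U : Set ℍ} (hU : IsOpen U) (hne : U.Nonempty) : 0 < volume U := by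
  rw [volume_eq_lintegral, setLIntegral_pos_iff (by fun_prop)]
  have h1 : IsOpen (UpperHalfPlane.coe '' U) := isOpenEmbedding_coe.isOpenMap U hU
  have h2 : Function.support (fun z : ℂ => (↑((1 / ‖z.im‖₊) ^ 2 : NNReal) : ℝ≥0∞)) ∩ UpperHalfPlane.coe '' U
      = UpperHalfPlane.coe '' U := by
    apply inter_eq_right.2
    rintro _ ⟨z, _, rfl⟩
    have := z.im_ne_zero
    simp [this]
  rw [h2]
  exact h1.measure_pos volume (hne.image _)

instance : Measure.IsOpenPosMeasure (volume : Measure ℍ) :=
  ⟨fun _ hU hne => (vol_open_pos hU hne).ne'⟩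

/-- integrals over the upper half plane as integrals over `ℂ` -/
lemma integral_eq_complex {E : Type*} [NormedAddCommGroup E] [NormedSpace ℝ E] (G : ℍ → E) :
    ∫ w, G w = ∫ w in {w : ℂ | 0 < w.im}, ((w.im) ^ 2)⁻¹ • G (ofComplex w) := by
  have hmp : MeasurePreserving UpperHalfPlane.coe (volume.comap UpperHalfPlane.coe)
      (volume.restrict (.range UpperHalfPlane.coe)) :=
    ⟨measurable_coe, by rw [measurableEmbedding_coe.map_comap]⟩
  rw [volume_def, integral_withDensity_eq_integral_smul]
  · have h1 := hmp.integral_comp measurableEmbedding_coe (fun w : ℂ => ((w.im) ^ 2)⁻¹ • G (ofComplex w))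
    rw [UpperHalfPlane.range_coe] at h1
    rw [← h1]
    refine integral_congr_ae (Eventually.of_forall fun z => ?_)
    simp only [ofComplex_apply, coe_im]
    rw [NNReal.smul_def]
    congr 1
    push_cast
    simp
  · refine Measurable.pow_const ?_ _
    refine Measurable.div measurable_const ?_
    exact (continuous_im.measurable).subtype_mk

lemma integrable_iff_complex {E : Type*} [NormedAddCommGroup E] [NormedSpace ℝ E] (G : ℍ → E) :
    Integrable G ↔ IntegrableOn (fun w : ℂ => ((w.im) ^ 2)⁻¹ • G (ofComplex w)) {w : ℂ | 0 < w.im} := by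
  have hmp : MeasurePreserving UpperHalfPlane.coe (volume.comap UpperHalfPlane.coe)
      (volume.restrict (.range UpperHalfPlane.coe)) :=
    ⟨measurable_coe, by rw [measurableEmbedding_coe.map_comap]⟩
  rw [volume_def, integrable_withDensity_iff_integrable_smul]
  · have h1 := hmp.integrable_comp_emb measurableEmbedding_coe (g := fun w : ℂ => ((w.im) ^ 2)⁻¹ • G (ofComplex w))
    rw [UpperHalfPlane.range_coe] at h1
    rw [IntegrableOn, ← h1]
    refine integrable_congr (Eventually.of_forall fun z => ?_)
    simp only [comp_apply, ofComplex_apply, coe_im]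
    rw [NNReal.smul_def]
    congr 1
    push_cast
    simp
  · refine Measurable.pow_const ?_ _
    refine Measurable.div measurable_const ?_
    exact (continuous_im.measurable).subtype_mk

end

end Pool.Agent.X291.MF
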