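import Pool.Agent.X291.MF.Bes

/-!
# The Whittaker function `W(y) = 2 (y/2)^(1/2) ... K_ν(y)`: ODE, decay
-/

set_option autoImplicit false

open Set Filter Topology MeasureTheory

namespace Pool.Agent.X291.MF

noncomputable section

lemma dcpow (s : ℂ) {y : ℝ} (hy : 0 < y) : HasDerivAt (fun y : ℝ => (y : ℂ) ^ s) (s * (y : ℂ) ^ (s - 1)) y := by
  by_cases hs : s = 0
  · subst hs
    simp only [Complex.cpow_zero, zero_mul]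
    exact hasDerivAt_const _ _
  · exact hasDerivAt_ofReal_cpow_const (x := y) hy.ne' hs

/-- `W_ν` -/
def WW (ν : ℂ) (y : ℝ) : ℂ := (y : ℂ) ^ (ν + 1 / 2) * JJ (-ν - 1) y
def WW' (ν : ℂ) (y : ℝ) : ℂ :=
  (ν + 1 / 2) * (y : ℂ) ^ (ν - 1 / 2) * JJ (-ν - 1) y - (1 / 2) * (y : ℂ) ^ (ν + 3 / 2) * JJ (-ν - 2) y

lemma cpow1 (ν : ℂ) {y : ℝ} (hy : 0 < y) : (y : ℂ) ^ (ν + 1 / 2) = (y : ℂ) ^ (ν - 1 / 2) * y := by
  have h : (y : ℂ) ≠ 0 := by exact_mod_cast hy.ne'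
  rw [show ν + 1 / 2 = (ν - 1 / 2) + 1 by ring, Complex.cpow_add _ _ h, Complex.cpow_one]

lemma cpow2 (ν : ℂ) {y : ℝ} (hy : 0 < y) : (y : ℂ) ^ (ν + 3 / 2) = (y : ℂ) ^ (ν - 1 / 2) * y ^ 2 := by
  have h : (y : ℂ) ≠ 0 := by exact_mod_cast hy.ne'
  rw [show ν + 3 / 2 = (ν - 1 / 2) + 1 + 1 by ring, Complex.cpow_add _ _ h, Complex.cpow_add _ _ h, Complex.cpow_one]
  ring

lemma cpow3 (ν : ℂ) {y : ℝ} (hy : 0 < y) : (y : ℂ) ^ (ν - 1 / 2 - 1) = (y : ℂ) ^ (ν - 1 / 2) / y := by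
  have h : (y : ℂ) ≠ 0 := by exact_mod_cast hy.ne'
  rw [Complex.cpow_sub _ _ h, Complex.cpow_one]

lemma dWW (ν : ℂ) {y : ℝ} (hy : 0 < y) : HasDerivAt (WW ν) (WW' ν y) y := by
  have h1 := (dcpow (ν + 1 / 2) hy).mul (dJJ (-ν - 1) hy)
  refine h1.congr_deriv ?_
  unfold WW'
  rw [show ν + 1 / 2 - 1 = ν - 1 / 2 by ring, show -ν - 1 - 1 = -ν - 2 by ring, cpow1 ν hy, cpow2 ν hy]
  ring

lemma dWW' (ν : ℂ) {y : ℝ} (hy : 0 < y) :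
    HasDerivAt (WW' ν) ((1 - (1 / 4 - ν ^ 2) / y ^ 2) * WW ν y) y := by
  have h : (y : ℂ) ≠ 0 := by exact_mod_cast hy.ne'
  have h1 := (((dcpow (ν - 1 / 2) hy).const_mul (ν + 1 / 2)).mul (dJJ (-ν - 1) hy)).sub
    (((dcpow (ν + 3 / 2) hy).const_mul (1 / 2)).mul (dJJ (-ν - 2) hy))
  refine h1.congr_deriv ?_
  have h2 := ibpJJ (-ν - 2) hy
  unfold WW
  rw [show ν + 3 / 2 - 1 = ν + 1 / 2 by ring, show -ν - 1 - 1 = -ν - 2 by ring, show -ν - 2 - 1 = -ν - 3 by ring,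
    cpow1 ν hy, cpow2 ν hy, cpow3 ν hy]
  rw [show -ν - 2 + 1 = -ν - 1 by ring, show -ν - 2 - 1 = -ν - 3 by ring] at h2
  generalize (y : ℂ) ^ (ν - 1 / 2) = P
  field_simp
  linear_combination (16 * P * (y : ℂ) ^ 2) * h2

lemma rpow_le_exp (σ : ℝ) : ∃ B : ℝ, 0 ≤ B ∧ ∀ y : ℝ, 1 ≤ y → y ^ σ ≤ B * Real.exp (y / 4) := by
  obtain ⟨k, hk⟩ := exists_nat_ge σ
  refine ⟨4 ^ k * k.factorial, by positivity, fun y hy => ?_⟩
  have h1 := Real.pow_div_factorial_le_exp (y / 4) (by positivity) k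
  rw [div_pow, div_div, div_le_iff₀ (by positivity)] at h1
  calc y ^ σ ≤ y ^ (k : ℝ) := Real.rpow_le_rpow_of_exponent_le hy hk
    _ = y ^ k := Real.rpow_natCast _ _
    _ ≤ Real.exp (y / 4) * (4 ^ k * k.factorial) := h1
    _ = _ := by ring

lemma cpow_JJ_decay (s r : ℂ) : ∃ C, 0 ≤ C ∧ ∀ y : ℝ, 1 ≤ y → ‖(y : ℂ) ^ s * JJ r y‖ ≤ C * Real.exp (-(y / 4)) := by
  obtain ⟨C, hC0, hC⟩ := JJ_decay r
  obtain ⟨B, hB0, hB⟩ := rpow_le_exp s.re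
  refine ⟨B * C, by positivity, fun y hy => ?_⟩
  rw [norm_mul, Complex.norm_cpow_eq_rpow_re_of_pos (by linarith)]
  calc y ^ s.re * ‖JJ r y‖ ≤ (B * Real.exp (y / 4)) * (C * Real.exp (-(y / 2))) :=
        mul_le_mul (hB y hy) (hC y hy) (norm_nonneg _) (by positivity)
    _ = B * C * (Real.exp (y / 4) * Real.exp (-(y / 2))) := by ring
    _ = B * C * Real.exp (-(y / 4)) := by rw [← Real.exp_add]; congr 2; ring

lemma WW_decay (ν : ℂ) : ∃ C, 0 ≤ C ∧ ∀ y : ℝ, 1 ≤ y → ‖WW ν y‖ ≤ C * Real.exp (-(y / 4)) :=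
  cpow_JJ_decay _ _

lemma WW'_decay (ν : ℂ) : ∃ C, 0 ≤ C ∧ ∀ y : ℝ, 1 ≤ y → ‖WW' ν y‖ ≤ C * Real.exp (-(y / 4)) := by
  obtain ⟨C1, h1, h1'⟩ := cpow_JJ_decay (ν - 1 / 2) (-ν - 1)
  obtain ⟨C2, h2, h2'⟩ := cpow_JJ_decay (ν + 3 / 2) (-ν - 2)
  refine ⟨‖ν + 1 / 2‖ * C1 + ‖(1 / 2 : ℂ)‖ * C2, by positivity, fun y hy => ?_⟩
  unfold WW'
  refine (norm_sub_le _ _).trans ?_
  rw [mul_assoc, mul_assoc, norm_mul, norm_mul (1 / 2 : ℂ), add_mul, mul_assoc, mul_assoc]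
  exact add_le_add (mul_le_mul_of_nonneg_left (h1' y hy) (norm_nonneg _))
    (mul_le_mul_of_nonneg_left (h2' y hy) (norm_nonneg _))

lemma decay_tendsto {g : ℝ → ℂ} {C : ℝ} (h : ∀ y : ℝ, 1 ≤ y → ‖g y‖ ≤ C * Real.exp (-(y / 4))) :
    Tendsto g atTop (𝓝 0) := by
  rw [tendsto_zero_iff_norm_tendsto_zero]
  have h1 : Tendsto (fun y : ℝ => C * Real.exp (-(y / 4))) atTop (𝓝 0) := by
    have h2 : Tendsto (fun y : ℝ => Real.exp (-(y / 4))) atTop (𝓝 0) := by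
      refine Real.tendsto_exp_neg_atTop_nhds_zero.comp ?_
      exact tendsto_id.atTop_div_const (by norm_num)
    simpa using h2.const_mul C
  refine squeeze_zero' (Eventually.of_forall fun y => norm_nonneg _) ?_ h1
  filter_upwards [eventually_ge_atTop 1] with y hy
  exact h y hy

end

end Pool.Agent.X291.MF
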